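import Pool.Agent.Run7.h290.SH.W

set_option autoImplicit false

/-! One exponent, and an inequality for powers of sums. -/

namespace Pool.Agent.Run7.h290.SH

open Finset Filter MeasureTheory Topology Complex
open Pool.Agent.N748.MG Pool.Agent.N748.MJ Pool.Agent.N748.MJ.SM

/-- one exponent -/
noncomputable def kv {m : ℕ} (i : Fin m) (κ : ℝ) : Fin m → ℝ := fun j => if j = i then κ else 0

lemma lC0 (k : ℕ) (hk : k ≠ 0) : lC 0 k = 0 := by
  unfold lC
  refine prod_eq_zero (mem_range.2 (Nat.pos_of_ne_zero hk)) ?_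
  simp

lemma lV_one {m : ℕ} (i : Fin m) (κ : ℝ) (h : Fin m → ℝ) (q n : ℕ) :
    lV (cc (kv i κ)) h q n = lC κ n * (q : ℂ) ^ (-((n * h i : ℝ) * I)) := by
  classical
  unfold lV
  rw [Finset.sum_eq_single (Pi.single i n)]
  · rw [Finset.prod_eq_single i]
    · simp [cc, kv]
    · intro j _ hj
      simp [cc, kv, hj, lC]
    · intro h; exact absurd (mem_univ i) h
  · intro μ hμ hne
    rw [mem_piAntidiag] at hμ
    have hex : ∃ j, j ≠ i ∧ μ j ≠ 0 := by
      by_contra hcon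
      push Not at hcon
      apply hne
      funext j
      by_cases hj : j = i
      · subst hj
        rw [Pi.single_eq_same, ← hμ.1]
        exact (Finset.sum_eq_single j (fun l _ hl => hcon l hl) (fun h => absurd (mem_univ j) h)).symm
      · rw [Pi.single_eq_of_ne hj]; exact hcon j hj
    obtain ⟨j, hj, hj0⟩ := hex
    refine prod_eq_zero (mem_univ j) ?_
    have : cc (kv i κ) j = 0 := by simp [cc, kv, hj]
    rw [this, lC0 _ hj0, zero_mul]
  · intro hcon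
    exfalso
    apply hcon
    rw [mem_piAntidiag]
    refine ⟨?_, fun j _ => mem_univ j⟩
    rw [Finset.sum_eq_single i]
    · simp
    · intro j _ hj
      exact Pi.single_eq_of_ne hj _
    · intro h; exact absurd (mem_univ i) h

theorem aV_one {m : ℕ} (i : Fin m) (κ : ℝ) (h : Fin m → ℝ) : aV (cc (kv i κ)) (cc (kv i κ)) h = aC κ := by
  classical
  unfold aV aC
  congr 1
  funext p
  unfold gV
  have hcj : cj (cc (kv i κ)) = cc (kv i κ) := by
    funext j
    simp [cj, cc]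
  have hp0 : ((p : ℕ) : ℂ) ≠ 0 := by exact_mod_cast p.2.ne_zero
  have hx : (((p : ℕ) : ℝ) ^ (-(1 + 2 * (0:ℝ))) : ℝ) = 1 / ((p : ℕ) : ℝ) := by
    rw [show -(1 + 2 * (0 : ℝ)) = -1 by norm_num, Real.rpow_neg_one, one_div]
  congr 1
  · rw [Finset.prod_eq_single i]
    · rw [Finset.prod_eq_single i]
      · have e1 : cc (kv i κ) i = (κ : ℂ) := by simp [cc, kv]
        have e2 : ((p : ℕ) : ℂ) ^ (-(((1 + 2 * (0:ℝ) : ℝ) : ℂ) + ((h i - h i : ℝ) : ℂ) * I)) = 1 / ((p : ℕ) : ℂ) := by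
          rw [sub_self]
          simp [Complex.cpow_neg_one]
        rw [e1, e2, sq]
      · intro l _ hl
        have : cc (kv i κ) l = 0 := by simp [cc, kv, hl]
        rw [this, mul_zero (cc (kv i κ) i), Complex.cpow_zero]
      · intro h; exact absurd (mem_univ i) h
    · intro j _ hj
      have : cc (kv i κ) j = 0 := by simp [cc, kv, hj]
      refine prod_eq_one fun l _ => ?_
      rw [this, zero_mul, Complex.cpow_zero]
    · intro h; exact absurd (mem_univ i) h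
  · refine tsum_congr fun n => ?_
    rw [hcj, lV_one, map_mul, hx]
    have e1 : (starRingEnd ℂ) (lC κ n) = lC κ n := by
      unfold lC
      rw [map_prod]
      refine prod_congr rfl fun i _ => ?_
      simp
    have e2 : ((p : ℕ) : ℂ) ^ (-((n * h i : ℝ) * I)) * (starRingEnd ℂ) (((p : ℕ) : ℂ) ^ (-((n * h i : ℝ) * I))) = 1 := by
      rw [Complex.mul_conj, Complex.normSq_eq_norm_sq]
      have : ‖((p : ℕ) : ℂ) ^ (-((n * h i : ℝ) * I))‖ = 1 := by
        rw [Complex.norm_natCast_cpow_of_pos p.2.pos]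
        simp
      rw [this]
      simp
    rw [e1]
    calc lC κ n * ((p : ℕ) : ℂ) ^ (-((n * h i : ℝ) * I)) * (lC κ n * (starRingEnd ℂ) (((p : ℕ) : ℂ) ^ (-((n * h i : ℝ) * I)))) *
          (((1 / ((p : ℕ) : ℝ) : ℝ) : ℂ)) ^ n
        = lC κ n ^ 2 * (((p : ℕ) : ℂ) ^ (-((n * h i : ℝ) * I)) * (starRingEnd ℂ) (((p : ℕ) : ℂ) ^ (-((n * h i : ℝ) * I)))) *
          (((1 / ((p : ℕ) : ℝ) : ℝ) : ℂ)) ^ n := by ring
      _ = lC κ n ^ 2 * (1 / ((p : ℕ) : ℂ)) ^ n := by
          rw [e2, mul_one]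
          push_cast
          rfl

/-- powers of close numbers -/
lemma pow_close {p κ M x y r : ℝ} (hp : 0 < p) (hκ : 0 < κ) (hκ1 : κ ≤ 1) (hκp : κ ≤ p) (hM : 1 ≤ M) (hx : 0 ≤ x) (hy : 0 < y)
    (hr : 0 ≤ r) (h1 : |x - y| ≤ r) (h2 : r ≤ M * y) :
    |x ^ p - y ^ p| ≤ (p + 1) * (M + 1) ^ (p + 1) * (y ^ (p - κ) * r ^ κ) := by
  have hM0 : 0 ≤ M := by linarith
  have hM1 : 1 ≤ M + 1 := by linarith
  rcases hr.eq_or_lt with hr0 | hr0
  · have : x = y := by
      have := abs_le.mp (h1.trans hr0.symm.le)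
      linarith
    rw [this, sub_self, abs_zero]
    positivity
  have hxy : x ≤ (M + 1) * y := by
    have := (abs_le.mp h1).2
    linarith
  rcases le_total p 1 with hp1 | hp1
  · -- subadditive
    have hsub : ∀ a b : ℝ, 0 ≤ a → a ≤ b → b ^ p - a ^ p ≤ (b - a) ^ p := by
      intro a b ha hab
      have h3 := Real.rpow_add_le_add_rpow (a := a) (b := b - a) (p := p) ha (by linarith) hp.le hp1
      rw [add_sub_cancel] at h3
      linarith
    have h3 : |x ^ p - y ^ p| ≤ |x - y| ^ p := by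
      rcases le_total x y with h | h
      · have h4 := hsub x y hx h
        have h5 : x ^ p ≤ y ^ p := Real.rpow_le_rpow hx h hp.le
        rw [abs_of_nonpos (by linarith), abs_of_nonpos (by linarith)]
        rw [neg_sub, neg_sub]; exact h4
      · have h4 := hsub y x hy.le h
        have h5 : y ^ p ≤ x ^ p := Real.rpow_le_rpow hy.le h hp.le
        rw [abs_of_nonneg (by linarith), abs_of_nonneg (by linarith)]
        exact h4
    have h4 : |x - y| ^ p ≤ r ^ p := Real.rpow_le_rpow (abs_nonneg _) h1 hp.le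
    have h5 : r ^ p = r ^ (p - κ) * r ^ κ := by rw [← Real.rpow_add hr0]; congr 1; ring
    have h6 : r ^ (p - κ) ≤ (M * y) ^ (p - κ) := Real.rpow_le_rpow hr h2 (by linarith)
    have h7 : (M * y) ^ (p - κ) = M ^ (p - κ) * y ^ (p - κ) := Real.mul_rpow hM0 hy.le
    have h8 : M ^ (p - κ) ≤ (M + 1) ^ (p + 1) := by
      calc M ^ (p - κ) ≤ (M + 1) ^ (p - κ) := Real.rpow_le_rpow hM0 (by linarith) (by linarith)
        _ ≤ _ := Real.rpow_le_rpow_of_exponent_le hM1 (by linarith)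
    have h9 : (M + 1) ^ (p + 1) ≤ (p + 1) * (M + 1) ^ (p + 1) :=
      le_mul_of_one_le_left (by positivity) (by linarith)
    have h10 : 0 ≤ y ^ (p - κ) * r ^ κ := by positivity
    calc |x ^ p - y ^ p| ≤ r ^ (p - κ) * r ^ κ := by rw [← h5]; exact h3.trans h4
      _ ≤ (M ^ (p - κ) * y ^ (p - κ)) * r ^ κ := by rw [← h7]; exact mul_le_mul_of_nonneg_right h6 (by positivity)
      _ = M ^ (p - κ) * (y ^ (p - κ) * r ^ κ) := by ring
      _ ≤ _ := mul_le_mul_of_nonneg_right (h8.trans h9) h10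
  · -- Bernoulli
    have hber : ∀ a b : ℝ, 0 ≤ a → a ≤ b → 0 < b → b ^ p - a ^ p ≤ p * b ^ (p - 1) * (b - a) := by
      intro a b ha hab hb
      have h3 := one_add_mul_self_le_rpow_one_add (s := a / b - 1) (p := p) (by
        have : 0 ≤ a / b := by positivity
        linarith) hp1
      rw [add_sub_cancel, Real.div_rpow ha hb.le] at h3
      have hbp : 0 < b ^ p := by positivity
      rw [le_div_iff₀ hbp] at h3
      have h4 : b ^ p = b ^ (p - 1) * b := by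
        rw [← Real.rpow_add_one hb.ne']; congr 1; ring
      have h5 : (1 + p * (a / b - 1)) * b ^ p = b ^ p - p * b ^ (p - 1) * (b - a) := by
        rw [h4]; field_simp; ring
      rw [h5] at h3
      linarith
    have hb1 : 0 < (M + 1) * y := by positivity
    have h3 : |x ^ p - y ^ p| ≤ p * ((M + 1) * y) ^ (p - 1) * r := by
      rcases le_total x y with h | h
      · have h4 := hber x y hx h hy
        have h5 : x ^ p ≤ y ^ p := Real.rpow_le_rpow hx h hp.le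
        rw [abs_of_nonpos (by linarith), neg_sub]
        refine h4.trans ?_
        have h6 : y ^ (p - 1) ≤ ((M + 1) * y) ^ (p - 1) :=
          Real.rpow_le_rpow hy.le (le_mul_of_one_le_left hy.le hM1) (by linarith)
        have h7 : y - x ≤ r := by have := (abs_le.mp h1).1; linarith
        exact mul_le_mul (mul_le_mul_of_nonneg_left h6 hp.le) h7 (by linarith) (by positivity)
      · have h4 := hber y x hy.le h (lt_of_lt_of_le hy h)
        have h5 : y ^ p ≤ x ^ p := Real.rpow_le_rpow hy.le h hp.le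
        rw [abs_of_nonneg (by linarith)]
        refine h4.trans ?_
        have h6 : x ^ (p - 1) ≤ ((M + 1) * y) ^ (p - 1) := Real.rpow_le_rpow hx hxy (by linarith)
        have h7 : x - y ≤ r := (abs_le.mp h1).2
        exact mul_le_mul (mul_le_mul_of_nonneg_left h6 hp.le) h7 (by linarith) (by positivity)
    have h5 : r = r ^ (1 - κ) * r ^ κ := by
      rw [← Real.rpow_add hr0]
      rw [sub_add_cancel, Real.rpow_one]
    have h6 : r ^ (1 - κ) ≤ ((M + 1) * y) ^ (1 - κ) :=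
      Real.rpow_le_rpow hr (h2.trans (mul_le_mul_of_nonneg_right (by linarith) hy.le)) (by linarith)
    have h7 : ((M + 1) * y) ^ (p - 1) * ((M + 1) * y) ^ (1 - κ) = (M + 1) ^ (p - κ) * y ^ (p - κ) := by
      rw [← Real.rpow_add hb1, ← Real.mul_rpow (by linarith) hy.le]
      congr 1; ring
    have h8 : (M + 1) ^ (p - κ) ≤ (M + 1) ^ (p + 1) := Real.rpow_le_rpow_of_exponent_le hM1 (by linarith)
    calc |x ^ p - y ^ p| ≤ p * ((M + 1) * y) ^ (p - 1) * r := h3
      _ = p * ((M + 1) * y) ^ (p - 1) * (r ^ (1 - κ) * r ^ κ) := by rw [← h5]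
      _ ≤ p * ((M + 1) * y) ^ (p - 1) * (((M + 1) * y) ^ (1 - κ) * r ^ κ) := by gcongr
      _ = p * (((M + 1) * y) ^ (p - 1) * ((M + 1) * y) ^ (1 - κ)) * r ^ κ := by ring
      _ = p * (M + 1) ^ (p - κ) * (y ^ (p - κ) * r ^ κ) := by rw [h7]; ring
      _ ≤ (p + 1) * (M + 1) ^ (p + 1) * (y ^ (p - κ) * r ^ κ) := by
          refine mul_le_mul_of_nonneg_right ?_ (by positivity)
          exact mul_le_mul (by linarith) h8 (by positivity) (by linarith)

/-- powers of sums -/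
theorem sum_pow {m : ℕ} (c : Fin m → ℂ) {p κ : ℝ} (hκ : 0 < κ) (hκ1 : κ ≤ 1) (hκp : κ ≤ p) :
    ∃ C : ℝ, 0 ≤ C ∧ ∀ z : Fin m → ℂ, |‖∑ j, c j * z j‖ ^ p - ∑ j, ‖c j‖ ^ p * ‖z j‖ ^ p| ≤
      C * ∑ j, ∑ l ∈ univ.erase j, ‖z j‖ ^ (p - κ) * ‖z l‖ ^ κ := by
  classical
  have hp : 0 < p := by linarith
  obtain ⟨B, hB⟩ : ∃ B : ℝ, B = 1 + ∑ j, ‖c j‖ := ⟨_, rfl⟩
  have hB1 : 1 ≤ B := by rw [hB]; have : 0 ≤ ∑ j, ‖c j‖ := sum_nonneg fun _ _ => norm_nonneg _; linarith
  have hcB : ∀ j, ‖c j‖ ≤ B := by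
    intro j
    have := single_le_sum (f := fun j => ‖c j‖) (fun _ _ => norm_nonneg _) (mem_univ j)
    rw [hB]; linarith
  obtain ⟨A, hA⟩ : ∃ A : ℝ, A = (p + 1) * (((m:ℝ) + 1) + 1) ^ (p + 1) * ((m:ℝ) + 1) + 1 := ⟨_, rfl⟩
  have hA0 : 0 ≤ A := by rw [hA]; positivity
  refine ⟨A * B ^ p, by positivity, fun z => ?_⟩
  obtain ⟨a, ha⟩ : ∃ a : Fin m → ℝ, ∀ j, a j = ‖c j‖ * ‖z j‖ := ⟨_, fun _ => rfl⟩
  have ha0 : ∀ j, 0 ≤ a j := fun j => by rw [ha]; positivity
  have hap : ∀ j, ‖c j‖ ^ p * ‖z j‖ ^ p = a j ^ p := fun j => by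
    rw [ha, Real.mul_rpow (norm_nonneg _) (norm_nonneg _)]
  simp_rw [hap]
  have hR0 : 0 ≤ ∑ j, ∑ l ∈ univ.erase j, ‖z j‖ ^ (p - κ) * ‖z l‖ ^ κ :=
    sum_nonneg fun _ _ => sum_nonneg fun _ _ => by positivity
  rcases Nat.eq_zero_or_pos m with hm | hm
  · subst hm
    simp [Real.zero_rpow hp.ne']
  have : Nonempty (Fin m) := ⟨⟨0, hm⟩⟩
  obtain ⟨i, -, hi⟩ := exists_max_image (univ : Finset (Fin m)) a univ_nonempty
  have hi' : ∀ j, a j ≤ a i := fun j => hi j (mem_univ j)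
  rcases (ha0 i).eq_or_lt with h0 | h0
  · have hz : ∀ j, a j = 0 := fun j => le_antisymm ((hi' j).trans h0.symm.le) (ha0 j)
    have hcz : ∀ j, c j * z j = 0 := by
      intro j
      have := hz j
      rw [ha, ← norm_mul, norm_eq_zero] at this
      exact this
    simp_rw [hz, hcz]
    rw [sum_const_zero, norm_zero, Real.zero_rpow hp.ne', sum_const_zero, sub_zero, abs_zero]
    positivity
  obtain ⟨r, hr⟩ : ∃ r, r = ∑ l ∈ univ.erase i, a l := ⟨_, rfl⟩
  have hr0 : 0 ≤ r := by rw [hr]; exact sum_nonneg fun l _ => ha0 l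
  have hcard : ((univ.erase i).card : ℝ) ≤ m := by
    have : (univ.erase i).card ≤ (univ : Finset (Fin m)).card := card_le_card (erase_subset _ _)
    rw [card_univ, Fintype.card_fin] at this
    exact_mod_cast this
  have hr1 : r ≤ ((m:ℝ) + 1) * a i := by
    calc r ≤ ∑ _l ∈ univ.erase i, a i := by rw [hr]; exact sum_le_sum fun l _ => hi' l
      _ = ((univ.erase i).card : ℝ) * a i := by rw [sum_const, nsmul_eq_mul]
      _ ≤ _ := mul_le_mul_of_nonneg_right (by linarith) (ha0 i)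
  have hsplit : ∑ j, c j * z j = c i * z i + ∑ l ∈ univ.erase i, c l * z l := (add_sum_erase _ _ (mem_univ i)).symm
  have hn : ‖∑ l ∈ univ.erase i, c l * z l‖ ≤ r := by
    rw [hr]
    refine (norm_sum_le _ _).trans (sum_le_sum fun l _ => ?_)
    rw [norm_mul, ha]
  have hx : |‖∑ j, c j * z j‖ - a i| ≤ r := by
    have h1 := abs_norm_sub_norm_le (∑ j, c j * z j) (c i * z i)
    rw [norm_mul, ← ha i] at h1
    refine h1.trans ?_
    rw [hsplit, add_sub_cancel_left]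
    exact hn
  have h1 := pow_close (p := p) (κ := κ) (M := (m:ℝ) + 1) hp hκ hκ1 hκp (by
    have : (0:ℝ) ≤ m := by positivity
    linarith) (norm_nonneg (∑ j, c j * z j)) h0 hr0 hx hr1
  obtain ⟨W, hW⟩ : ∃ W, W = ∑ l ∈ univ.erase i, a l ^ κ := ⟨_, rfl⟩
  have hW0 : 0 ≤ W := by rw [hW]; exact sum_nonneg fun l _ => Real.rpow_nonneg (ha0 l) _
  have hrκ : r ^ κ ≤ ((m:ℝ) + 1) * W := by
    have h2 : ∀ l ∈ univ.erase i, a l ≤ W ^ (1 / κ) := by
      intro l hl
      have h3 : a l ^ κ ≤ W := by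
        rw [hW]
        exact single_le_sum (f := fun l => a l ^ κ) (fun l _ => Real.rpow_nonneg (ha0 l) _) hl
      have h4 := Real.rpow_le_rpow (Real.rpow_nonneg (ha0 l) _) h3 (by positivity : 0 ≤ 1 / κ)
      rwa [← Real.rpow_mul (ha0 l), mul_one_div_cancel hκ.ne', Real.rpow_one] at h4
    have h3 : r ≤ ((m:ℝ) + 1) * W ^ (1 / κ) := by
      calc r ≤ ∑ _l ∈ univ.erase i, W ^ (1 / κ) := by rw [hr]; exact sum_le_sum h2
        _ = ((univ.erase i).card : ℝ) * W ^ (1 / κ) := by rw [sum_const, nsmul_eq_mul]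
        _ ≤ _ := mul_le_mul_of_nonneg_right (by linarith) (by positivity)
    have h4 := Real.rpow_le_rpow hr0 h3 hκ.le
    rw [Real.mul_rpow (by positivity) (by positivity), ← Real.rpow_mul hW0, one_div_mul_cancel hκ.ne', Real.rpow_one] at h4
    refine h4.trans (mul_le_mul_of_nonneg_right ?_ hW0)
    calc ((m:ℝ) + 1) ^ κ ≤ ((m:ℝ) + 1) ^ (1:ℝ) := Real.rpow_le_rpow_of_exponent_le (by
          have : (0:ℝ) ≤ m := by positivity
          linarith) hκ1
      _ = (m:ℝ) + 1 := Real.rpow_one _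
  have h2 : ∑ l ∈ univ.erase i, a l ^ p ≤ a i ^ (p - κ) * W := by
    rw [hW, mul_sum]
    refine sum_le_sum fun l _ => ?_
    rcases (ha0 l).eq_or_lt with hl | hl
    · rw [← hl, Real.zero_rpow hp.ne']
      positivity
    · have e : a l ^ p = a l ^ (p - κ) * a l ^ κ := by rw [← Real.rpow_add hl]; congr 1; ring
      rw [e]
      exact mul_le_mul_of_nonneg_right (Real.rpow_le_rpow hl.le (hi' l) (by linarith)) (by positivity)
  have h3 : |‖∑ j, c j * z j‖ ^ p - ∑ j, a j ^ p| ≤ A * (a i ^ (p - κ) * W) := by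
    rw [← add_sum_erase univ (fun j => a j ^ p) (mem_univ i)]
    have e : ‖∑ j, c j * z j‖ ^ p - (a i ^ p + ∑ l ∈ univ.erase i, a l ^ p) =
        (‖∑ j, c j * z j‖ ^ p - a i ^ p) - ∑ l ∈ univ.erase i, a l ^ p := by ring
    rw [e]
    refine (abs_sub _ _).trans ?_
    have h4 : 0 ≤ ∑ l ∈ univ.erase i, a l ^ p := sum_nonneg fun l _ => Real.rpow_nonneg (ha0 l) _
    rw [abs_of_nonneg h4]
    have h5 : (p + 1) * (((m:ℝ) + 1) + 1) ^ (p + 1) * (a i ^ (p - κ) * r ^ κ) ≤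
        (p + 1) * (((m:ℝ) + 1) + 1) ^ (p + 1) * (a i ^ (p - κ) * (((m:ℝ) + 1) * W)) := by gcongr
    calc |‖∑ j, c j * z j‖ ^ p - a i ^ p| + ∑ l ∈ univ.erase i, a l ^ p ≤
          (p + 1) * (((m:ℝ) + 1) + 1) ^ (p + 1) * (a i ^ (p - κ) * (((m:ℝ) + 1) * W)) + a i ^ (p - κ) * W :=
          add_le_add (h1.trans h5) h2
      _ = A * (a i ^ (p - κ) * W) := by rw [hA]; ring
  refine h3.trans ?_
  rw [mul_assoc]
  refine mul_le_mul_of_nonneg_left ?_ hA0
  have h4 : a i ^ (p - κ) * W ≤ B ^ p * ∑ l ∈ univ.erase i, ‖z i‖ ^ (p - κ) * ‖z l‖ ^ κ := by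
    rw [hW, mul_sum, mul_sum]
    refine sum_le_sum fun l _ => ?_
    rw [ha i, ha l, Real.mul_rpow (norm_nonneg _) (norm_nonneg _), Real.mul_rpow (norm_nonneg _) (norm_nonneg _)]
    have g1 : ‖c i‖ ^ (p - κ) ≤ B ^ (p - κ) := Real.rpow_le_rpow (norm_nonneg _) (hcB i) (by linarith)
    have g2 : ‖c l‖ ^ κ ≤ B ^ κ := Real.rpow_le_rpow (norm_nonneg _) (hcB l) hκ.le
    have g3 : B ^ (p - κ) * B ^ κ = B ^ p := by rw [← Real.rpow_add (by linarith)]; congr 1; ring
    calc ‖c i‖ ^ (p - κ) * ‖z i‖ ^ (p - κ) * (‖c l‖ ^ κ * ‖z l‖ ^ κ) =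
          (‖c i‖ ^ (p - κ) * ‖c l‖ ^ κ) * (‖z i‖ ^ (p - κ) * ‖z l‖ ^ κ) := by ring
      _ ≤ (B ^ (p - κ) * B ^ κ) * (‖z i‖ ^ (p - κ) * ‖z l‖ ^ κ) := by gcongr
      _ = _ := by rw [g3]
  refine h4.trans (mul_le_mul_of_nonneg_left ?_ (by positivity))
  exact single_le_sum (f := fun j => ∑ l ∈ univ.erase j, ‖z j‖ ^ (p - κ) * ‖z l‖ ^ κ)
    (fun _ _ => sum_nonneg fun _ _ => by positivity) (mem_univ i)

end Pool.Agent.Run7.h290.SH
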