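import Pool.Agent.Run7.h290.SH.A
import Pool.Agent.N748.MJ.KO

set_option autoImplicit false

/-! Linear combinations of shifts: the truncated moments. -/

namespace Pool.Agent.Run7.h290.SH

open Finset Filter MeasureTheory Topology Complex
open Pool.Agent.N748.MG Pool.Agent.N748.MJ Pool.Agent.N748.MJ.SM

/-- the size of zeta near the line one -/
noncomputable def Zo (δ u : ℝ) : ℝ := ‖riemannZeta (((1 + 2 * δ : ℝ) : ℂ) + (u : ℂ) * I)‖

theorem lim_gen (hJ : S_JM) (hP : S_POSV) (hL : S_LZB) {m : ℕ} {K V : ℝ} (hK0 : 0 ≤ K) (hKV : K < V)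
    {d : ℝ → ℝ} (hd : Ad d) {h : ℝ → Fin m → ℝ} (hh : ∀ᶠ T : ℝ in atTop, ∀ j, |h T j| ≤ T ^ ((1:ℝ) / 2)) :
    ∃ C : ℝ, 0 < C ∧ ∀ ε : ℝ, 0 < ε → ∀ᶠ T : ℝ in atTop, ∀ k : Fin m → ℝ, (∀ j, 0 ≤ k j) → ∑ j, k j ≤ K →
      ∃ a : ℝ, 0 < a ∧ a ≤ C ∧ aV (cc k) (cc k) (h T) = a ∧
        |Real.exp (-(Lr k (h T) (d T))) * (∫ t in Gs V (h T) (d T) T, G k (h T) (d T) t) - T * a| ≤ ε * T := by
  have hV0 : 0 < V := lt_of_le_of_lt hK0 hKV
  obtain ⟨R, hR⟩ : ∃ R, R = K + V + 1 := ⟨_, rfl⟩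
  have hR0 : 0 < R := by rw [hR]; linarith
  obtain ⟨c, C, hc, hC, hcC⟩ := hP m R hR0.le
  refine ⟨C, hC, fun ε hε => ?_⟩
  filter_upwards [base hJ hP hL hK0 hKV hR.symm.le hd hh (half_pos hε), eventually_gt_atTop 0] with T ⟨N, n1, n2, n3, n4, n5⟩ hT
  intro k hk hkK
  obtain ⟨hCu, hcl⟩ := hcC (h T)
  have hkS : ∀ j, k j ≤ K := fun j =>
    (Finset.single_le_sum (f := k) (fun i _ => hk i) (Finset.mem_univ j)).trans hkK
  have hkR : ∀ j, |k j| ≤ R := fun j => by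
    rw [abs_of_nonneg (hk j)]
    have := hkS j
    linarith
  obtain ⟨a, ha1, ha2⟩ := hcl k hkR
  have hn : ∀ j, ‖cc k j‖ ≤ R := by
    intro j
    unfold cc
    rw [Complex.norm_real, Real.norm_eq_abs]
    exact hkR j
  have ha0 : 0 < a := lt_of_lt_of_le hc ha1
  have ha3 : a ≤ C := by
    have h1 := hCu (cc k) (cc k) hn hn
    have h2 : aV (cc k) (cc k) (h T) = a := ha2
    rw [h2, Complex.norm_real, Real.norm_of_nonneg ha0.le] at h1
    exact h1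
  refine ⟨a, ha0, ha3, ha2, ?_⟩
  have h4 := real_form hT ha0.le ha2 (n4 (cc k) (fun _ => 0) hn (fun j => by simpa using hR0.le))
  have h5 := n5 k hk hkK (fun _ => 1) measurable_const (fun t => by simp)
  simp only [mul_one] at h5
  rw [integral_complex_ofReal, integral_complex_ofReal, ← Complex.ofReal_sub, Complex.norm_real, Real.norm_eq_abs] at h5
  obtain ⟨x, hx⟩ : ∃ x, x = ∫ t in Gs V (h T) (d T) T, G k (h T) (d T) t := ⟨_, rfl⟩
  obtain ⟨y, hy⟩ : ∃ y, y = ∫ t in N, G k (h T) (d T) t := ⟨_, rfl⟩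
  rw [← hx, ← hy] at h5
  rw [← hy] at h4
  rw [← hx]
  obtain ⟨l, hl⟩ : ∃ l, l = Lr k (h T) (d T) := ⟨_, rfl⟩
  rw [← hl] at h4 h5 ⊢
  have e1 : Real.exp (-l) * x - T * a = Real.exp (-l) * (x - y) + (Real.exp (-l) * y - T * a) := by ring
  have e2 : |Real.exp (-l) * (x - y)| ≤ ε / 2 * T := by
    rw [abs_mul, abs_of_pos (Real.exp_pos _)]
    calc Real.exp (-l) * |x - y| ≤ Real.exp (-l) * (ε / 2 * T * Real.exp l) :=
          mul_le_mul_of_nonneg_left h5 (Real.exp_pos _).le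
      _ = ε / 2 * T * (Real.exp (-l) * Real.exp l) := by ring
      _ = ε / 2 * T := by rw [← Real.exp_add]; simp
  rw [e1]
  refine (abs_add_le _ _).trans ?_
  linarith

lemma exp_LZ (hL : S_LZB) {δ : ℝ} (h0 : 0 < δ) (h1 : δ ≤ 1 / 16) (u : ℝ) : Real.exp ((LZ (1 + 2 * δ) u).re) = Zo δ u := by
  unfold Zo
  rw [← (hL δ h0 h1 u).2, Complex.norm_exp]

lemma Lr_one {m : ℕ} (i : Fin m) (κ : ℝ) (h : Fin m → ℝ) (δ : ℝ) :
    Lr (kv i κ) h δ = κ ^ 2 * (LZ (1 + 2 * δ) 0).re := by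
  unfold Lr kv
  simp only [ite_mul, zero_mul, mul_ite, mul_zero, sum_ite_eq', mem_univ, if_true, sub_self]
  ring

lemma Lr_two {m : ℕ} (i l : Fin m) (κ μ : ℝ) (h : Fin m → ℝ) (δ : ℝ) :
    Lr (kv i κ + kv l μ) h δ = (κ ^ 2 + μ ^ 2) * (LZ (1 + 2 * δ) 0).re + κ * μ * (LZ (1 + 2 * δ) (h i - h l)).re +
      κ * μ * (LZ (1 + 2 * δ) (h l - h i)).re := by
  unfold Lr kv
  simp only [Pi.add_apply, add_mul, mul_add, ite_mul, zero_mul, mul_ite, mul_zero, sum_add_distrib, sum_ite_eq', mem_univ,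
    if_true, sub_self]
  ring

lemma G_one {m : ℕ} (i : Fin m) (κ : ℝ) (h : Fin m → ℝ) (δ t : ℝ) : G (kv i κ) h δ t = mz δ (t + h i) ^ (2 * κ) := by
  unfold G kv
  rw [Finset.prod_eq_single i]
  · rw [if_pos rfl]
  · intro j _ hj
    rw [if_neg hj, mul_zero, Real.rpow_zero]
  · intro hc; exact absurd (mem_univ i) hc

lemma G_two {m : ℕ} {i l : Fin m} (hil : i ≠ l) (κ μ : ℝ) (h : Fin m → ℝ) (δ t : ℝ) :
    G (kv i κ + kv l μ) h δ t = mz δ (t + h i) ^ (2 * κ) * mz δ (t + h l) ^ (2 * μ) := by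
  unfold G kv
  rw [← Finset.mul_prod_erase univ _ (mem_univ i), ← Finset.mul_prod_erase (univ.erase i) _ (mem_erase.mpr ⟨hil.symm, mem_univ l⟩)]
  rw [Finset.prod_eq_one]
  · simp only [Pi.add_apply, if_neg hil, if_neg hil.symm, if_true, add_zero, zero_add, mul_one]
  · intro j hj
    rw [mem_erase, mem_erase] at hj
    simp only [Pi.add_apply]
    rw [if_neg hj.2.1, if_neg hj.1, add_zero, mul_zero, Real.rpow_zero]

lemma Z0_lim {d : ℝ → ℝ} (hd : Ad d) : Tendsto (fun T => 2 * d T * Zo (d T) 0) atTop (𝓝 1) := by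
  have h1 := KO.zeta_lim hd 0
  have e : (1 + ((0:ℝ) / 2) ^ 2) ^ (-(1 / 2 : ℝ)) = 1 := by norm_num
  rw [e] at h1
  refine h1.congr fun T => ?_
  unfold Zo
  rw [mul_zero]

section

variable (hJ : S_JM) (hP : S_POSV) (hL : S_LZB) {m : ℕ} {d : ℝ → ℝ} (hd : Ad d) {h : ℝ → Fin m → ℝ}
  (hh : ∀ᶠ T : ℝ in atTop, ∀ j, |h T j| ≤ T ^ ((1:ℝ) / 2))

include hJ hP hL hd hh

/-- one shift -/
theorem lim_one {κ V : ℝ} (hκ : 0 ≤ κ) (hV : κ < V) (i : Fin m) :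
    Tendsto (fun T => (2 * d T) ^ (κ ^ 2) * ((1 / T) * ∫ t in Gs V (h T) (d T) T, mz (d T) (t + h T i) ^ (2 * κ))) atTop
      (𝓝 (aC κ).re) := by
  obtain ⟨C, hC, hlim⟩ := lim_gen hJ hP hL hκ hV hd hh
  have hsum : ∑ j, kv i κ j ≤ κ := by simp [kv]
  have hk0 : ∀ j, 0 ≤ kv i κ j := by intro j; unfold kv; split_ifs <;> linarith
  have h1 : Tendsto (fun T => Real.exp (-(Lr (kv i κ) (h T) (d T))) *
      ((1 / T) * ∫ t in Gs V (h T) (d T) T, mz (d T) (t + h T i) ^ (2 * κ))) atTop (𝓝 (aC κ).re) := by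
    rw [Metric.tendsto_nhds]
    intro ε hε
    filter_upwards [hlim (ε / 2) (half_pos hε), eventually_gt_atTop 0] with T g1 hT
    obtain ⟨a, ha0, haC, ha, hb⟩ := g1 (kv i κ) hk0 hsum
    rw [aV_one] at ha
    have hre : (aC κ).re = a := by rw [ha, Complex.ofReal_re]
    simp_rw [G_one] at hb
    rw [hre, Real.dist_eq]
    have e1 : Real.exp (-(Lr (kv i κ) (h T) (d T))) * ((1 / T) * ∫ t in Gs V (h T) (d T) T, mz (d T) (t + h T i) ^ (2 * κ)) - a =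
        (1 / T) * (Real.exp (-(Lr (kv i κ) (h T) (d T))) * (∫ t in Gs V (h T) (d T) T, mz (d T) (t + h T i) ^ (2 * κ)) -
          T * a) := by
      field_simp
    rw [e1, abs_mul, abs_of_pos (by positivity : 0 < 1 / T)]
    calc 1 / T * |_| ≤ 1 / T * (ε / 2 * T) := mul_le_mul_of_nonneg_left hb (by positivity)
      _ = ε / 2 := by field_simp
      _ < ε := half_lt_self hε
  have h2 : Tendsto (fun T => (2 * d T * Zo (d T) 0) ^ (κ ^ 2)) atTop (𝓝 1) := by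
    have := (Z0_lim hd).rpow_const (p := κ ^ 2) (Or.inl one_ne_zero)
    rwa [Real.one_rpow] at this
  have h3 := h2.mul h1
  rw [one_mul] at h3
  refine h3.congr' ?_
  have g4 := (Ev.of_le (d := 1 / 16) (by norm_num)).app hd
  filter_upwards [g4, hd.pos] with T g4 g5
  have hz := exp_LZ hL g5 g4 0
  have h2δ : 0 < 2 * d T := by linarith
  have hZ0 : 0 ≤ Zo (d T) 0 := norm_nonneg _
  rw [Lr_one, Real.mul_rpow h2δ.le hZ0, ← hz, ← Real.exp_mul]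
  have e : Real.exp ((LZ (1 + 2 * d T) 0).re * κ ^ 2) * Real.exp (-(κ ^ 2 * (LZ (1 + 2 * d T) 0).re)) = 1 := by
    rw [← Real.exp_add]
    have : (LZ (1 + 2 * d T) 0).re * κ ^ 2 + -(κ ^ 2 * (LZ (1 + 2 * d T) 0).re) = 0 := by ring
    rw [this, Real.exp_zero]
  calc (2 * d T) ^ (κ ^ 2) * Real.exp ((LZ (1 + 2 * d T) 0).re * κ ^ 2) * (Real.exp (-(κ ^ 2 * (LZ (1 + 2 * d T) 0).re)) *
        ((1 / T) * ∫ t in Gs V (h T) (d T) T, mz (d T) (t + h T i) ^ (2 * κ)))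
      = (Real.exp ((LZ (1 + 2 * d T) 0).re * κ ^ 2) * Real.exp (-(κ ^ 2 * (LZ (1 + 2 * d T) 0).re))) *
        ((2 * d T) ^ (κ ^ 2) * ((1 / T) * ∫ t in Gs V (h T) (d T) T, mz (d T) (t + h T i) ^ (2 * κ))) := by ring
    _ = _ := by rw [e, one_mul]

/-- two shifts -/
theorem lim_two {κ μ V : ℝ} (hκ : 0 < κ) (hμ : 0 < μ) (hV : κ + μ < V) {i l : Fin m} (hil : i ≠ l)
    (h1 : Tendsto (fun T => d T * Zo (d T) (h T i - h T l)) atTop (𝓝 0))
    (h2 : Tendsto (fun T => d T * Zo (d T) (h T l - h T i)) atTop (𝓝 0)) :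
    Tendsto (fun T => (2 * d T) ^ ((κ + μ) ^ 2) * ((1 / T) * ∫ t in Gs V (h T) (d T) T,
      mz (d T) (t + h T i) ^ (2 * κ) * mz (d T) (t + h T l) ^ (2 * μ))) atTop (𝓝 0) := by
  obtain ⟨C, hC, hlim⟩ := lim_gen hJ hP hL (by positivity) hV hd hh
  have hsum : ∑ j, (kv i κ + kv l μ) j ≤ κ + μ := by simp [kv, sum_add_distrib]
  have hk0 : ∀ j, 0 ≤ (kv i κ + kv l μ) j := by
    intro j
    simp only [Pi.add_apply, kv]
    split_ifs <;> linarith
  have hz0 := (Z0_lim hd).rpow_const (p := κ ^ 2 + μ ^ 2) (Or.inl one_ne_zero)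
  rw [Real.one_rpow] at hz0
  have hκμ : 0 < κ * μ := mul_pos hκ hμ
  have hz1 := ((h1.const_mul 2).rpow_const (p := κ * μ) (Or.inr hκμ.le))
  have hz2 := ((h2.const_mul 2).rpow_const (p := κ * μ) (Or.inr hκμ.le))
  rw [mul_zero, Real.zero_rpow hκμ.ne'] at hz1 hz2
  have hz := ((hz0.mul hz1).mul hz2).mul_const (C + 1)
  rw [mul_zero, zero_mul] at hz
  have g4 := (Ev.of_le (d := 1 / 16) (by norm_num)).app hd
  refine squeeze_zero' ?_ ?_ hz
  · filter_upwards [hd.pos, eventually_gt_atTop 0] with T g5 hT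
    refine mul_nonneg (by positivity) (mul_nonneg (by positivity) (integral_nonneg fun t => ?_))
    exact mul_nonneg (Real.rpow_nonneg (norm_nonneg _) _) (Real.rpow_nonneg (norm_nonneg _) _)
  · filter_upwards [hlim 1 one_pos, eventually_gt_atTop 0, g4, hd.pos] with T g1 hT g4 g5
    obtain ⟨a, ha0, haC, -, hb⟩ := g1 _ hk0 hsum
    simp_rw [G_two hil] at hb
    obtain ⟨J, hJd⟩ : ∃ J, J = ∫ t in Gs V (h T) (d T) T, mz (d T) (t + h T i) ^ (2 * κ) * mz (d T) (t + h T l) ^ (2 * μ) :=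
      ⟨_, rfl⟩
    rw [← hJd] at hb ⊢
    have hb2 : Real.exp (-(Lr (kv i κ + kv l μ) (h T) (d T))) * J ≤ (C + 1) * T := by
      have := (abs_le.1 hb).2
      have h6 : T * a ≤ T * C := mul_le_mul_of_nonneg_left haC hT.le
      linarith
    have h2δ : 0 < 2 * d T := by linarith
    have e0 := exp_LZ hL g5 g4 0
    have e1 := exp_LZ hL g5 g4 (h T i - h T l)
    have e2 := exp_LZ hL g5 g4 (h T l - h T i)
    have hE : (2 * d T) ^ ((κ + μ) ^ 2) * Real.exp (Lr (kv i κ + kv l μ) (h T) (d T)) =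
        (2 * d T * Zo (d T) 0) ^ (κ ^ 2 + μ ^ 2) * (2 * (d T * Zo (d T) (h T i - h T l))) ^ (κ * μ) *
          (2 * (d T * Zo (d T) (h T l - h T i))) ^ (κ * μ) := by
      have hZn : ∀ u, 0 ≤ Zo (d T) u := fun u => norm_nonneg _
      rw [← mul_assoc 2 (d T), ← mul_assoc 2 (d T), Real.mul_rpow h2δ.le (hZn 0), Real.mul_rpow h2δ.le (hZn _),
        Real.mul_rpow h2δ.le (hZn _), ← e0, ← e1, ← e2, ← Real.exp_mul, ← Real.exp_mul, ← Real.exp_mul, Lr_two i l]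
      have e3 : (2 * d T) ^ ((κ + μ) ^ 2) = (2 * d T) ^ (κ ^ 2 + μ ^ 2) * (2 * d T) ^ (κ * μ) * (2 * d T) ^ (κ * μ) := by
        rw [← Real.rpow_add h2δ, ← Real.rpow_add h2δ]
        congr 1; ring
      have e4 : Real.exp ((κ ^ 2 + μ ^ 2) * (LZ (1 + 2 * d T) 0).re + κ * μ * (LZ (1 + 2 * d T) (h T i - h T l)).re +
          κ * μ * (LZ (1 + 2 * d T) (h T l - h T i)).re) = Real.exp ((LZ (1 + 2 * d T) 0).re * (κ ^ 2 + μ ^ 2)) *
          Real.exp ((LZ (1 + 2 * d T) (h T i - h T l)).re * (κ * μ)) * Real.exp ((LZ (1 + 2 * d T) (h T l - h T i)).re * (κ * μ)) := by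
        rw [← Real.exp_add, ← Real.exp_add]
        congr 1; ring
      rw [e3, e4]
      ring
    rw [← hE]
    have hpos : 0 ≤ (2 * d T) ^ ((κ + μ) ^ 2) * Real.exp (Lr (kv i κ + kv l μ) (h T) (d T)) := by positivity
    have hinv : Real.exp (Lr (kv i κ + kv l μ) (h T) (d T)) * Real.exp (-(Lr (kv i κ + kv l μ) (h T) (d T))) = 1 := by
      rw [← Real.exp_add]; simp
    calc (2 * d T) ^ ((κ + μ) ^ 2) * (1 / T * J)
        = (2 * d T) ^ ((κ + μ) ^ 2) * (1 / T * (Real.exp (Lr (kv i κ + kv l μ) (h T) (d T)) *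
          Real.exp (-(Lr (kv i κ + kv l μ) (h T) (d T))) * J)) := by rw [hinv, one_mul]
      _ = ((2 * d T) ^ ((κ + μ) ^ 2) * Real.exp (Lr (kv i κ + kv l μ) (h T) (d T))) *
          (1 / T * (Real.exp (-(Lr (kv i κ + kv l μ) (h T) (d T))) * J)) := by ring
      _ ≤ ((2 * d T) ^ ((κ + μ) ^ 2) * Real.exp (Lr (kv i κ + kv l μ) (h T) (d T))) * (C + 1) := by
          refine mul_le_mul_of_nonneg_left ?_ hpos
          calc 1 / T * _ ≤ 1 / T * ((C + 1) * T) := mul_le_mul_of_nonneg_left hb2 (by positivity)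
            _ = C + 1 := by field_simp

end

end Pool.Agent.Run7.h290.SH
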