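import Pool.Agent.Run7.h290.SH.B

set_option autoImplicit false

/-! Linear combinations of shifts: the truncated theorem, and admissible shifts. -/

namespace Pool.Agent.Run7.h290.SH

open Finset Filter MeasureTheory Topology Complex
open Pool.Agent.N748.MG Pool.Agent.N748.MJ Pool.Agent.N748.MJ.SM

/-- the shifted value -/
noncomputable def zj (δ t u : ℝ) : ℂ := riemannZeta (pw δ (t + u))

lemma zj_cont {δ : ℝ} (h0 : δ ≤ 1 / 16) (u : ℝ) : Continuous fun t : ℝ => zj δ t u := by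
  have : Continuous fun t : ℝ => riemannZeta (pw δ t) := by
    rw [continuous_iff_continuousAt]
    intro t
    have h1 : ContinuousAt riemannZeta (pw δ t) :=
      (differentiableAt_riemannZeta (TMA.pw_ne_one h0 t)).continuousAt
    have h2 : Continuous (pw δ) := by
      unfold pw
      fun_prop
    exact ContinuousAt.comp (f := fun t : ℝ => pw δ t) h1 h2.continuousAt
  exact this.comp (by fun_prop)

lemma zj_norm (δ t u : ℝ) : ‖zj δ t u‖ = mz δ (t + u) := rfl

section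

variable {m : ℕ} {d : ℝ → ℝ} {h : ℝ → Fin m → ℝ}

/-- the difference of the moment of the sum and the sum of the moments -/
noncomputable def dif (c : Fin m → ℂ) (p δ : ℝ) (h : Fin m → ℝ) (t : ℝ) : ℝ :=
  ‖∑ j, c j * zj δ t (h j)‖ ^ p - ∑ j, ‖c j‖ ^ p * ‖zj δ t (h j)‖ ^ p

lemma sumz_cont {δ : ℝ} (h0 : δ ≤ 1 / 16) (c : Fin m → ℂ) (h : Fin m → ℝ) {p : ℝ} (hp : 0 ≤ p) :
    Continuous fun t => ‖∑ j, c j * zj δ t (h j)‖ ^ p :=
  ((continuous_finsetSum _ fun j _ => continuous_const.mul (zj_cont h0 (h j))).norm).rpow_const fun _ => Or.inr hp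

lemma zp_cont {δ : ℝ} (h0 : δ ≤ 1 / 16) (u : ℝ) {p : ℝ} (hp : 0 ≤ p) :
    Continuous fun t => ‖zj δ t u‖ ^ p := ((zj_cont h0 u).norm).rpow_const fun _ => Or.inr hp

lemma dif_cont {δ : ℝ} (h0 : δ ≤ 1 / 16) (c : Fin m → ℂ) (h : Fin m → ℝ) {p : ℝ} (hp : 0 ≤ p) :
    Continuous fun t => dif c p δ h t := by
  unfold dif
  exact (sumz_cont h0 c h hp).sub (continuous_finsetSum _ fun j _ => continuous_const.mul (zp_cont h0 (h j) hp))

variable (hJ : S_JM) (hP : S_POSV) (hL : S_LZB) (hd : Ad d)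
  (hh : ∀ᶠ T : ℝ in atTop, ∀ j, |h T j| ≤ T ^ ((1:ℝ) / 2))
  (hs : ∀ i l : Fin m, i ≠ l → Tendsto (fun T => d T * Zo (d T) (h T i - h T l)) atTop (𝓝 0))

include hJ hP hL hd hh hs

/-- closeness in the mean -/
theorem close (c : Fin m → ℂ) {k V : ℝ} (hk : 0 < k) (hV : k < V) :
    Tendsto (fun T => (2 * d T) ^ (k ^ 2) * ((1 / T) * ∫ t in Gs V (h T) (d T) T, |dif c (2 * k) (d T) (h T) t|)) atTop
      (𝓝 0) := by
  classical
  obtain ⟨κ, hκd⟩ : ∃ κ, κ = min 1 k := ⟨_, rfl⟩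
  have hκ : 0 < κ := by rw [hκd]; exact lt_min one_pos hk
  have hκ1 : κ ≤ 1 := by rw [hκd]; exact min_le_left _ _
  have hκk : κ ≤ k := by rw [hκd]; exact min_le_right _ _
  obtain ⟨C, hC, hin⟩ := sum_pow c (p := 2 * k) hκ hκ1 (by linarith)
  have hlim : Tendsto (fun T => C * ∑ j, ∑ l ∈ univ.erase j, (2 * d T) ^ (((k - κ / 2) + κ / 2) ^ 2) * ((1 / T) *
      ∫ t in Gs V (h T) (d T) T, mz (d T) (t + h T j) ^ (2 * (k - κ / 2)) * mz (d T) (t + h T l) ^ (2 * (κ / 2)))) atTop (𝓝 0) := by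
    have h1 : Tendsto (fun T => C * ∑ j, ∑ l ∈ univ.erase j, (2 * d T) ^ (((k - κ / 2) + κ / 2) ^ 2) * ((1 / T) *
        ∫ t in Gs V (h T) (d T) T, mz (d T) (t + h T j) ^ (2 * (k - κ / 2)) * mz (d T) (t + h T l) ^ (2 * (κ / 2)))) atTop
        (𝓝 (C * ∑ j : Fin m, ∑ l ∈ univ.erase j, (0:ℝ))) := by
      refine Tendsto.const_mul _ (tendsto_finsetSum _ fun j _ => tendsto_finsetSum _ fun l hl => ?_)
      have hjl : j ≠ l := (ne_of_mem_erase hl).symm
      exact lim_two hJ hP hL hd hh (by linarith) (by linarith) (by linarith) hjl (hs j l hjl) (hs l j hjl.symm)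
    simpa using h1
  refine squeeze_zero' ?_ ?_ hlim
  · filter_upwards [hd.pos, eventually_gt_atTop 0] with T g5 hT
    exact mul_nonneg (by positivity) (mul_nonneg (by positivity) (integral_nonneg fun t => abs_nonneg _))
  · have g4 := (Ev.of_le (d := 1 / 16) (by norm_num)).app hd
    filter_upwards [hd.pos, eventually_gt_atTop 0, g4] with T g5 hT g4
    have hsub : Gs V (h T) (d T) T ⊆ Set.Icc 0 T := fun t ht => ht.1
    have hint : ∀ {f : ℝ → ℝ}, Continuous f → IntegrableOn f (Gs V (h T) (d T) T) := fun hf =>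
      (hf.integrableOn_Icc).mono_set hsub
    have hmc : ∀ (j : Fin m) {q : ℝ}, 0 ≤ q → Continuous fun t => mz (d T) (t + h T j) ^ q := fun j q hq =>
      ((TMA.cont g4).comp (by fun_prop : Continuous fun t : ℝ => t + h T j)).rpow_const fun _ => Or.inr hq
    have hpc : ∀ j l : Fin m, Continuous fun t => mz (d T) (t + h T j) ^ (2 * (k - κ / 2)) * mz (d T) (t + h T l) ^ (2 * (κ / 2)) :=
      fun j l => (hmc j (by linarith)).mul (hmc l (by linarith))
    have h1 : ∫ t in Gs V (h T) (d T) T, |dif c (2 * k) (d T) (h T) t| ≤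
        C * ∑ j, ∑ l ∈ univ.erase j, ∫ t in Gs V (h T) (d T) T,
          mz (d T) (t + h T j) ^ (2 * (k - κ / 2)) * mz (d T) (t + h T l) ^ (2 * (κ / 2)) := by
      have h2 : ∀ t, |dif c (2 * k) (d T) (h T) t| ≤ C * ∑ j, ∑ l ∈ univ.erase j,
          mz (d T) (t + h T j) ^ (2 * (k - κ / 2)) * mz (d T) (t + h T l) ^ (2 * (κ / 2)) := by
        intro t
        refine (hin fun j => zj (d T) t (h T j)).trans (le_of_eq ?_)
        refine congrArg _ (sum_congr rfl fun j _ => sum_congr rfl fun l _ => ?_)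
        rw [zj_norm, zj_norm]
        congr 2 <;> ring
      have h3 : ∫ t in Gs V (h T) (d T) T, |dif c (2 * k) (d T) (h T) t| ≤ ∫ t in Gs V (h T) (d T) T, C * ∑ j, ∑ l ∈ univ.erase j,
          mz (d T) (t + h T j) ^ (2 * (k - κ / 2)) * mz (d T) (t + h T l) ^ (2 * (κ / 2)) := by
        refine integral_mono (hint (dif_cont g4 c (h T) (by linarith)).abs) (hint ?_) h2
        exact continuous_const.mul (continuous_finsetSum _ fun j _ => continuous_finsetSum _ fun l _ => hpc j l)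
      refine h3.trans (le_of_eq ?_)
      rw [integral_const_mul, integral_finsetSum _ fun j _ => hint (continuous_finsetSum _ fun l _ => hpc j l)]
      refine congrArg _ (sum_congr rfl fun j _ => ?_)
      rw [integral_finsetSum _ fun l _ => hint (hpc j l)]
    have hk2 : (k - κ / 2 + κ / 2) ^ 2 = k ^ 2 := by ring
    rw [hk2]
    calc (2 * d T) ^ (k ^ 2) * ((1 / T) * ∫ t in Gs V (h T) (d T) T, |dif c (2 * k) (d T) (h T) t|)
        ≤ (2 * d T) ^ (k ^ 2) * ((1 / T) * (C * ∑ j, ∑ l ∈ univ.erase j, ∫ t in Gs V (h T) (d T) T,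
          mz (d T) (t + h T j) ^ (2 * (k - κ / 2)) * mz (d T) (t + h T l) ^ (2 * (κ / 2)))) := by gcongr
      _ = _ := by
          rw [mul_left_comm (1 / T) C, mul_left_comm _ C]
          simp only [mul_sum]

/-- the truncated moments of linear combinations -/
theorem lin_trunc (c : Fin m → ℂ) {k V : ℝ} (hk : 0 < k) (hV : k < V) :
    Tendsto (fun T => (2 * d T) ^ (k ^ 2) * ((1 / T) * ∫ t in Gs V (h T) (d T) T,
      ‖∑ j, c j * zj (d T) t (h T j)‖ ^ (2 * k))) atTop (𝓝 ((aC k).re * ∑ j, ‖c j‖ ^ (2 * k))) := by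
  have h1 := close hJ hP hL hd hh hs c hk hV
  have h2 : Tendsto (fun T => ∑ j, ‖c j‖ ^ (2 * k) * ((2 * d T) ^ (k ^ 2) * ((1 / T) * ∫ t in Gs V (h T) (d T) T,
      mz (d T) (t + h T j) ^ (2 * k)))) atTop (𝓝 (∑ j, ‖c j‖ ^ (2 * k) * (aC k).re)) :=
    tendsto_finsetSum _ fun j _ => (lim_one hJ hP hL hd hh hk.le hV j).const_mul _
  rw [← sum_mul, mul_comm (∑ j, ‖c j‖ ^ (2 * k))] at h2
  have g4 := (Ev.of_le (d := 1 / 16) (by norm_num)).app hd
  have h3 : Tendsto (fun T => (2 * d T) ^ (k ^ 2) * ((1 / T) * ∫ t in Gs V (h T) (d T) T, dif c (2 * k) (d T) (h T) t)) atTop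
      (𝓝 0) := by
    refine squeeze_zero_norm' ?_ h1
    filter_upwards [hd.pos, eventually_gt_atTop 0] with T g5 hT
    rw [norm_mul, norm_mul, Real.norm_of_nonneg (by positivity : 0 ≤ (2 * d T) ^ (k ^ 2)),
      Real.norm_of_nonneg (by positivity : 0 ≤ 1 / T)]
    refine mul_le_mul_of_nonneg_left (mul_le_mul_of_nonneg_left ?_ (by positivity)) (by positivity)
    exact norm_integral_le_integral_norm _
  have h4 := h3.add h2
  rw [zero_add] at h4
  refine h4.congr' ?_
  filter_upwards [hd.pos, eventually_gt_atTop 0, g4] with T g5 hT g4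
  have hsub : Gs V (h T) (d T) T ⊆ Set.Icc 0 T := fun t ht => ht.1
  have hint : ∀ {f : ℝ → ℝ}, Continuous f → IntegrableOn f (Gs V (h T) (d T) T) := fun hf =>
    (hf.integrableOn_Icc).mono_set hsub
  have hi1 := hint (sumz_cont g4 c (h T) (p := 2 * k) (by linarith))
  have hi2 : ∀ j : Fin m, IntegrableOn (fun t => ‖c j‖ ^ (2 * k) * ‖zj (d T) t (h T j)‖ ^ (2 * k)) (Gs V (h T) (d T) T) :=
    fun j => hint (continuous_const.mul (zp_cont g4 (h T j) (by linarith)))
  have e1 : ∫ t in Gs V (h T) (d T) T, dif c (2 * k) (d T) (h T) t =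
      (∫ t in Gs V (h T) (d T) T, ‖∑ j, c j * zj (d T) t (h T j)‖ ^ (2 * k)) -
        ∑ j, ‖c j‖ ^ (2 * k) * ∫ t in Gs V (h T) (d T) T, mz (d T) (t + h T j) ^ (2 * k) := by
    unfold dif
    rw [integral_sub hi1 (integrable_finsetSum _ fun j _ => hi2 j), integral_finsetSum _ fun j _ => hi2 j]
    congr 1
    refine sum_congr rfl fun j _ => ?_
    rw [integral_const_mul]
    rfl
  rw [e1]
  have e2 : ∑ j, ‖c j‖ ^ (2 * k) * ((2 * d T) ^ (k ^ 2) * (1 / T * ∫ t in Gs V (h T) (d T) T, mz (d T) (t + h T j) ^ (2 * k))) =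
      (2 * d T) ^ (k ^ 2) * ((1 / T) * ∑ j, ‖c j‖ ^ (2 * k) * ∫ t in Gs V (h T) (d T) T, mz (d T) (t + h T j) ^ (2 * k)) := by
    simp only [mul_sum]
    refine sum_congr rfl fun j _ => ?_
    ring
  rw [e2]
  ring

end

/-- bounded shifts far apart compared with the distance to the line are admissible -/
theorem adm_shift {d u : ℝ → ℝ} {B : ℝ} (hd : ∀ᶠ T in atTop, 0 < d T) (h0 : Tendsto d atTop (𝓝 0)) (hB : ∀ᶠ T in atTop, |u T| ≤ B)
    (hu : Tendsto (fun T => |u T| / d T) atTop atTop) : Tendsto (fun T => d T * Zo (d T) (u T)) atTop (𝓝 0) := by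
  classical
  -- the entire function (s - 1) ζ(s) is bounded on compact sets
  obtain ⟨F, hF⟩ : ∃ F : ℂ → ℂ, F = Function.update (fun s : ℂ => (s - 1) * riemannZeta s) 1 1 := ⟨_, rfl⟩
  have hFc : Continuous F := by
    rw [continuous_iff_continuousAt]
    intro s
    by_cases hs : s = 1
    · subst hs
      rw [hF, continuousAt_update_same]
      exact riemannZeta_residue_one
    · rw [hF, continuousAt_update_of_ne hs]
      exact (continuousAt_id.sub continuousAt_const).mul (differentiableAt_riemannZeta hs).continuousAt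
  have hK : IsCompact (Set.Icc (-1:ℝ) 1 ×ˢ Set.Icc (-B) B) := isCompact_Icc.prod isCompact_Icc
  have hc : Continuous fun q : ℝ × ℝ => F (((1 + 2 * q.1 : ℝ) : ℂ) + (q.2 : ℂ) * I) := hFc.comp (by fun_prop)
  obtain ⟨M, hM⟩ := hK.exists_bound_of_continuousOn hc.continuousOn
  have h1 : Tendsto (fun T => |M| * (d T / |u T|)) atTop (𝓝 0) := by
    have h2 : Tendsto (fun T => (|u T| / d T)⁻¹) atTop (𝓝 0) := tendsto_inv_atTop_zero.comp hu
    have h3 := h2.const_mul |M|
    rw [mul_zero] at h3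
    refine h3.congr fun T => ?_
    rw [inv_div]
  refine squeeze_zero' ?_ ?_ h1
  · filter_upwards [hd] with T h2
    exact mul_nonneg h2.le (norm_nonneg _)
  · filter_upwards [hd, h0.eventually_le_const (show (0:ℝ) < 1 by norm_num), hB, hu.eventually_gt_atTop 0] with T h2 h3 h4 h5
    have hu0 : 0 < |u T| := by
      rcases (abs_nonneg (u T)).eq_or_lt with h6 | h6
      · rw [← h6, zero_div] at h5; exact absurd h5 (lt_irrefl _)
      · exact h6
    obtain ⟨s, hs⟩ : ∃ s : ℂ, s = ((1 + 2 * d T : ℝ) : ℂ) + (u T : ℂ) * I := ⟨_, rfl⟩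
    have hs1 : s ≠ 1 := by
      intro h6
      have := congrArg Complex.im h6
      rw [hs] at this
      simp at this
      rw [this, abs_zero] at hu0
      exact lt_irrefl _ hu0
    have h6 : ‖F s‖ ≤ |M| := by
      rw [hs]
      exact (hM (d T, u T) ⟨⟨by linarith, h3⟩, abs_le.mp h4⟩).trans (le_abs_self M)
    have h7 : F s = (s - 1) * riemannZeta s := by rw [hF, Function.update_of_ne hs1]
    have h8 : |u T| ≤ ‖s - 1‖ := by
      have h9 := Complex.abs_im_le_norm (s - 1)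
      have h10 : (s - 1).im = u T := by rw [hs]; simp
      rwa [h10] at h9
    have h9 : |u T| * ‖riemannZeta s‖ ≤ |M| := by
      rw [h7, norm_mul] at h6
      exact (mul_le_mul_of_nonneg_right h8 (norm_nonneg _)).trans h6
    have h10 : Zo (d T) (u T) ≤ |M| / |u T| := by
      unfold Zo
      rw [← hs, le_div_iff₀ hu0, mul_comm]
      exact h9
    calc d T * Zo (d T) (u T) ≤ d T * (|M| / |u T|) := mul_le_mul_of_nonneg_left h10 h2.le
      _ = |M| * (d T / |u T|) := by ring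

end Pool.Agent.Run7.h290.SH
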