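import Pool.Agent.Run7.h290.SH.C
import Pool.Agent.N748.MJ.Fin
import Pool.Agent.R313.FN.F

set_option autoImplicit false

/-! Linear combinations of shifts: orders at most four, whole interval. -/

namespace Pool.Agent.Run7.h290.SH

open Finset Filter MeasureTheory Topology Complex
open Pool.Agent.N748.MG Pool.Agent.N748.MJ Pool.Agent.N748.MJ.SM
open Pool.Agent.Y753.SHR (za)
open Pool.Agent.H306R2 (aF aF_pos)

lemma aC_aF (k : ℝ) : (aC k).re = aF k := aC_re k

lemma Ad_L {d : ℝ → ℝ} (hd : Ad d) : Tendsto (fun T => d T * Real.log T) atTop atTop := by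
  refine tendsto_atTop_mono' _ ?_ hd.tL
  filter_upwards [hd.pos, hd.t0.eventually_le_const (show (0:ℝ) < 1 / 16 by norm_num), eventually_ge_atTop 1] with T h1 h2 h3
  have h4 := log_inv_ge h1 h2
  have h5 : 1 ≤ Real.log (1 / d T) ^ 2 := one_le_pow₀ h4
  have h6 : 0 ≤ d T * Real.log T := mul_nonneg h1.le (Real.log_nonneg h3)
  exact div_le_self h6 h5

lemma za_mz (δ t : ℝ) : za δ 0 t = mz δ t := by
  unfold za mz pw
  rw [zero_mul, add_zero]

/-- bounded shifts: upper bound of the moment over the whole interval -/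
theorem full_up {d : ℝ → ℝ} (hd : Ad d) {k : ℝ} (hk : 0 < k) (hk2 : k ≤ 2) {B : ℝ} (hB0 : 0 ≤ B) :
    ∃ U : ℝ → ℝ, Tendsto U atTop (𝓝 (aC k).re) ∧ ∀ᶠ T : ℝ in atTop, ∀ u : ℝ, |u| ≤ B →
      (2 * d T) ^ (k ^ 2) * ((1 / T) * ∫ t in Set.Icc 0 T, mz (d T) (t + u) ^ (2 * k)) ≤ U T := by
  -- the small heights
  have hK : IsCompact (Set.Icc (0:ℝ) (1 / 16) ×ˢ Set.Icc (-B) 0) := isCompact_Icc.prod isCompact_Icc
  have hc : ContinuousOn (fun q : ℝ × ℝ => mz q.1 q.2) (Set.Icc (0:ℝ) (1 / 16) ×ˢ Set.Icc (-B) 0) := by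
    refine ContinuousOn.norm ?_
    intro q hq
    have h1 : ContinuousAt riemannZeta (pw q.1 q.2) :=
      (differentiableAt_riemannZeta (TMA.pw_ne_one hq.1.2 q.2)).continuousAt
    have h2 : Continuous fun q : ℝ × ℝ => pw q.1 q.2 := by
      unfold pw
      fun_prop
    exact (ContinuousAt.comp (f := fun q : ℝ × ℝ => pw q.1 q.2) h1 h2.continuousAt).continuousWithinAt
  obtain ⟨M, hM⟩ := hK.exists_bound_of_continuousOn hc
  obtain ⟨M0, hM0⟩ : ∃ M0, M0 = B * |M| ^ (2 * k) := ⟨_, rfl⟩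
  have hM00 : 0 ≤ M0 := by rw [hM0]; positivity
  -- the large heights
  have hx : Tendsto (fun x : ℝ => x - B) atTop atTop := tendsto_atTop_add_const_right _ _ tendsto_id
  have h1 : Tendsto (fun x => d (x - B)) atTop (𝓝 0) := hd.t0.comp hx
  have h2 : Tendsto (fun x => d (x - B) * Real.log x) atTop atTop := by
    refine tendsto_atTop_mono' _ ?_ ((Ad_L hd).comp hx)
    filter_upwards [hx.eventually hd.pos, hx.eventually_gt_atTop 0] with x g1 g2
    refine mul_le_mul_of_nonneg_left (Real.log_le_log g2 (by linarith)) g1.le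
  have h3 := Pool.Agent.R313.FN.mass_full h1 h2 (β := 2 * k) (by linarith) (by linarith) 0
  have e2 : 2 * k / 2 = k := by ring
  rw [e2] at h3
  have hx2 : Tendsto (fun T : ℝ => T + B) atTop atTop := tendsto_atTop_add_const_right _ _ tendsto_id
  have h4 := h3.comp hx2
  simp only [Function.comp_def, add_sub_cancel_right] at h4
  have h5 : Tendsto (fun T : ℝ => (T + B) / T) atTop (𝓝 1) := by
    have h6 : Tendsto (fun T : ℝ => 1 + B / T) atTop (𝓝 (1 + 0)) :=
      tendsto_const_nhds.add (tendsto_const_nhds.div_atTop tendsto_id)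
    rw [add_zero] at h6
    refine h6.congr' ?_
    filter_upwards [eventually_gt_atTop 0] with T hT
    field_simp
  have h7 := h5.mul h4
  rw [one_mul] at h7
  have h8 : Tendsto (fun T : ℝ => M0 / T) atTop (𝓝 0) := tendsto_const_nhds.div_atTop tendsto_id
  have h9 := h8.add h7
  rw [zero_add, ← aC_aF] at h9
  refine ⟨_, h9, ?_⟩
  filter_upwards [eventually_gt_atTop 0, hd.pos, hd.t0.eventually_le_const (show (0:ℝ) < 1 / 16 by norm_num)] with T hT g1 g2 u hu
  have hf : Continuous fun t => mz (d T) t ^ (2 * k) := (TMA.cont g2).rpow_const fun _ => Or.inr (by linarith)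
  have hf0 : ∀ t, 0 ≤ mz (d T) t ^ (2 * k) := fun t => Real.rpow_nonneg (norm_nonneg _) _
  obtain ⟨u1, u2⟩ := abs_le.mp hu
  have i1 : ∫ t in Set.Icc 0 T, mz (d T) (t + u) ^ (2 * k) ≤ M0 + ∫ t in Set.Icc 0 (T + B), mz (d T) t ^ (2 * k) := by
    have i0 : ∫ t in (0:ℝ)..T, mz (d T) (t + u) ^ (2 * k) = ∫ t in (0 + u)..(T + u), mz (d T) t ^ (2 * k) :=
      intervalIntegral.integral_comp_add_right (fun t => mz (d T) t ^ (2 * k)) u
    rw [integral_Icc_eq_integral_Ioc, ← intervalIntegral.integral_of_le hT.le, i0, zero_add]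
    have i2 : ∫ t in u..(T + u), mz (d T) t ^ (2 * k) ≤ ∫ t in (-B)..(T + B), mz (d T) t ^ (2 * k) :=
      intervalIntegral.integral_mono_interval u1 (by linarith) (by linarith) (Eventually.of_forall hf0) (hf.intervalIntegrable _ _)
    have i3 : ∫ t in (-B)..(T + B), mz (d T) t ^ (2 * k) = (∫ t in (-B)..0, mz (d T) t ^ (2 * k)) +
        ∫ t in (0:ℝ)..(T + B), mz (d T) t ^ (2 * k) :=
      (intervalIntegral.integral_add_adjacent_intervals (hf.intervalIntegrable _ _) (hf.intervalIntegrable _ _)).symm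
    have i4 : ∫ t in (-B)..0, mz (d T) t ^ (2 * k) ≤ M0 := by
      have i5 : ∫ t in (-B)..0, mz (d T) t ^ (2 * k) ≤ ∫ _t in (-B)..0, |M| ^ (2 * k) := by
        refine intervalIntegral.integral_mono_on (by linarith) (hf.intervalIntegrable _ _) intervalIntegrable_const fun t ht => ?_
        refine Real.rpow_le_rpow (norm_nonneg _) ?_ (by linarith)
        have h0 : |mz (d T) t| ≤ M := hM (d T, t) ⟨⟨g1.le, g2⟩, ht⟩
        exact ((le_abs_self _).trans h0).trans (le_abs_self M)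
      refine i5.trans (le_of_eq ?_)
      rw [intervalIntegral.integral_const, hM0]
      simp
    have i6 : ∫ t in (0:ℝ)..(T + B), mz (d T) t ^ (2 * k) = ∫ t in Set.Icc 0 (T + B), mz (d T) t ^ (2 * k) := by
      rw [integral_Icc_eq_integral_Ioc, intervalIntegral.integral_of_le (by linarith)]
    rw [i3, i6] at i2
    linarith
  have hp0 : 0 < (2 * d T) ^ (k ^ 2) := by positivity
  have hp1 : (2 * d T) ^ (k ^ 2) ≤ 1 := Real.rpow_le_one (by positivity) (by linarith) (by positivity)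
  simp_rw [za_mz]
  calc (2 * d T) ^ (k ^ 2) * ((1 / T) * ∫ t in Set.Icc 0 T, mz (d T) (t + u) ^ (2 * k))
      ≤ (2 * d T) ^ (k ^ 2) * ((1 / T) * (M0 + ∫ t in Set.Icc 0 (T + B), mz (d T) t ^ (2 * k))) := by gcongr
    _ = (2 * d T) ^ (k ^ 2) * (M0 / T) + (2 * d T) ^ (k ^ 2) * ((1 / T) * ∫ t in Set.Icc 0 (T + B), mz (d T) t ^ (2 * k)) := by
        ring
    _ ≤ 1 * (M0 / T) + (2 * d T) ^ (k ^ 2) * ((1 / T) * ∫ t in Set.Icc 0 (T + B), mz (d T) t ^ (2 * k)) := by gcongr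
    _ = _ := by
        have hTB : T + B ≠ 0 := by linarith
        field_simp

lemma sum_rpow_le {m : ℕ} (c z : Fin m → ℂ) {p : ℝ} (hp : 0 < p) :
    ‖∑ j, c j * z j‖ ^ p ≤ ((m:ℝ) * (1 + ∑ j, ‖c j‖)) ^ p * ∑ j, ‖z j‖ ^ p := by
  rcases Nat.eq_zero_or_pos m with hm | hm
  · subst hm
    simp [Real.zero_rpow hp.ne']
  have : Nonempty (Fin m) := ⟨⟨0, hm⟩⟩
  obtain ⟨i, -, hi⟩ := exists_max_image (univ : Finset (Fin m)) (fun j => ‖z j‖) univ_nonempty
  have h1 : ‖∑ j, c j * z j‖ ≤ (m:ℝ) * (1 + ∑ j, ‖c j‖) * ‖z i‖ := by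
    calc ‖∑ j, c j * z j‖ ≤ ∑ j, ‖c j * z j‖ := norm_sum_le _ _
      _ ≤ ∑ _j : Fin m, (1 + ∑ j, ‖c j‖) * ‖z i‖ := by
          refine sum_le_sum fun j _ => ?_
          rw [norm_mul]
          refine mul_le_mul ?_ (hi j (mem_univ j)) (norm_nonneg _) ?_
          · have := single_le_sum (f := fun j => ‖c j‖) (fun _ _ => norm_nonneg _) (mem_univ j)
            linarith
          · have : 0 ≤ ∑ j, ‖c j‖ := sum_nonneg fun _ _ => norm_nonneg _
            linarith
      _ = _ := by rw [sum_const, card_univ, Fintype.card_fin, nsmul_eq_mul]; ring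
  have h0 : 0 ≤ (m:ℝ) * (1 + ∑ j, ‖c j‖) := by
    have : 0 ≤ ∑ j, ‖c j‖ := sum_nonneg fun _ _ => norm_nonneg _
    positivity
  calc ‖∑ j, c j * z j‖ ^ p ≤ ((m:ℝ) * (1 + ∑ j, ‖c j‖) * ‖z i‖) ^ p := Real.rpow_le_rpow (norm_nonneg _) h1 hp.le
    _ = ((m:ℝ) * (1 + ∑ j, ‖c j‖)) ^ p * ‖z i‖ ^ p := Real.mul_rpow h0 (norm_nonneg _)
    _ ≤ _ := by
        refine mul_le_mul_of_nonneg_left ?_ (by positivity)
        exact single_le_sum (f := fun j => ‖z j‖ ^ p) (fun _ _ => by positivity) (mem_univ i)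

section

variable {m : ℕ} {d : ℝ → ℝ} {h : ℝ → Fin m → ℝ} (hd : Ad d)

include hd

/-- the bad set carries nothing -/
theorem bad_zero {B : ℝ} (hB0 : 0 ≤ B) (hB : ∀ᶠ T : ℝ in atTop, ∀ j, |h T j| ≤ B) {k V : ℝ} (hk : 0 < k) (hk2 : k ≤ 2) (hV : k < V)
    (i : Fin m) :
    Tendsto (fun T => (2 * d T) ^ (k ^ 2) * ((1 / T) * ∫ t in Set.Icc 0 T \ Gs V (h T) (d T) T, mz (d T) (t + h T i) ^ (2 * k)))
      atTop (𝓝 0) := by
  have hh : ∀ᶠ T : ℝ in atTop, ∀ j, |h T j| ≤ T ^ ((1:ℝ) / 2) := by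
    have h1 : ∀ᶠ T : ℝ in atTop, B ≤ T ^ ((1:ℝ) / 2) := (tendsto_rpow_atTop (by norm_num)).eventually_ge_atTop B
    filter_upwards [hB, h1] with T g1 g2 j
    exact (g1 j).trans g2
  obtain ⟨U, hU, hUb⟩ := full_up hd hk hk2 hB0
  have h1 := lim_one jmF posF LZB.main hd hh hk.le hV i
  have h2 := hU.sub h1
  rw [sub_self] at h2
  refine squeeze_zero' ?_ ?_ h2
  · filter_upwards [hd.pos, eventually_gt_atTop 0] with T g5 hT
    exact mul_nonneg (by positivity) (mul_nonneg (by positivity) (integral_nonneg fun t => Real.rpow_nonneg (norm_nonneg _) _))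
  · filter_upwards [hUb, hB, hd.pos, eventually_gt_atTop 0, hd.t0.eventually_le_const (show (0:ℝ) < 1 / 16 by norm_num)]
      with T g1 g2 g3 hT g4
    have g5 := g1 (h T i) (g2 i)
    have hf : Continuous fun t => mz (d T) (t + h T i) ^ (2 * k) :=
      ((TMA.cont g4).comp (by fun_prop : Continuous fun t : ℝ => t + h T i)).rpow_const fun _ => Or.inr (by linarith)
    have hsub : Gs V (h T) (d T) T ⊆ Set.Icc 0 T := fun t ht => ht.1
    have e1 := setIntegral_sdiff (f := fun t => mz (d T) (t + h T i) ^ (2 * k)) (μ := volume)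
      (Gs_meas V (h T) g4 T) hf.integrableOn_Icc hsub
    rw [e1, mul_sub, mul_sub]
    linarith

end

end Pool.Agent.Run7.h290.SH
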