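import Pool.Agent.Run7.h290.SH.C

set_option autoImplicit false

/-! The phases of shifted values: Fourier coefficients and equidistribution. -/

namespace Pool.Agent.Run7.h290.SH

open Finset Filter MeasureTheory Topology Complex
open Pool.Agent.N748.MG Pool.Agent.N748.MJ Pool.Agent.N748.MJ.SM

/-- the arguments, as a point of the torus -/
noncomputable def Th {m : ℕ} (δ : ℝ) (h : Fin m → ℝ) (t : ℝ) : UnitAddTorus (Fin m) :=
  fun j => ((Complex.arg (zj δ t (h j)) / (2 * Real.pi) : ℝ) : AddCircle (1:ℝ))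

/-- the uniform measure on the torus -/
noncomputable def tor (m : ℕ) : Measure (UnitAddTorus (Fin m)) := Measure.pi fun _ : Fin m => (AddCircle.haarAddCircle : Measure (AddCircle (1:ℝ)))

instance (m : ℕ) : IsProbabilityMeasure (tor m) := by
  unfold tor
  infer_instance

lemma Th_meas {m : ℕ} {δ : ℝ} (h0 : δ ≤ 1 / 16) (h : Fin m → ℝ) : Measurable (Th δ h) := by
  refine measurable_pi_iff.mpr fun j => ?_
  have h1 : Measurable fun t : ℝ => Complex.arg (zj δ t (h j)) / (2 * Real.pi) :=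
    (Complex.measurable_arg.comp (zj_cont h0 (h j)).measurable).div_const _
  exact (AddCircle.measurable_mk' (a := (1:ℝ))).comp h1

lemma fourier_arg (n : ℤ) (z : ℂ) (hz : z ≠ 0) :
    (fourier n (((Complex.arg z / (2 * Real.pi) : ℝ) : AddCircle (1:ℝ))) : ℂ) = (z / (‖z‖ : ℝ)) ^ n := by
  rw [fourier_coe_apply]
  have hn : ((‖z‖ : ℝ) : ℂ) ≠ 0 := by exact_mod_cast norm_ne_zero_iff.mpr hz
  have h1 : z / (‖z‖ : ℝ) = Complex.exp (Complex.arg z * I) := by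
    rw [div_eq_iff hn, mul_comm]
    exact (Complex.norm_mul_exp_arg_mul_I z).symm
  rw [h1, ← Complex.exp_int_mul]
  congr 1
  have hpi : (Real.pi : ℂ) ≠ 0 := by exact_mod_cast Real.pi_ne_zero
  push_cast
  field_simp

/-- the product of the moduli and the phases -/
lemma ZZ_Th {m : ℕ} (k : Fin m → ℝ) (n : Fin m → ℤ) {δ t : ℝ} {h : Fin m → ℝ} (hz : ∀ j, riemannZeta (pw δ (t + h j)) ≠ 0) :
    ∏ j, ZZ (riemannZeta (pw δ (t + h j))) (cc k j) (n j) = ((G k h δ t : ℝ) : ℂ) * UnitAddTorus.mFourier n (Th δ h t) := by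
  have e1 : UnitAddTorus.mFourier n (Th δ h t) = ∏ j, fourier (n j) (Th δ h t j) := rfl
  unfold G
  rw [e1, Complex.ofReal_prod, ← Finset.prod_mul_distrib]
  refine Finset.prod_congr rfl fun j _ => ?_
  unfold ZZ cc mz Th zj
  rw [fourier_arg _ _ (hz j), Complex.ofReal_cpow (norm_nonneg _)]
  push_cast
  rfl

lemma integral_mFourier {m : ℕ} (n : Fin m → ℤ) (hn : n ≠ 0) : ∫ x, UnitAddTorus.mFourier n x ∂(tor m) = 0 := by
  have e1 : ∀ x : UnitAddTorus (Fin m), UnitAddTorus.mFourier n x = ∏ j, fourier (n j) (x j) := fun _ => rfl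
  simp_rw [e1]
  unfold tor
  rw [integral_fintype_prod_eq_prod (fun j (x : AddCircle (1:ℝ)) => (fourier (n j) x : ℂ))]
  obtain ⟨j, hj⟩ : ∃ j, n j ≠ 0 := by
    by_contra hcon
    push Not at hcon
    exact hn (funext hcon)
  refine Finset.prod_eq_zero (mem_univ j) ?_
  exact integral_eq_zero_of_add_right_eq_neg (μ := AddCircle.haarAddCircle) (fourier_add_half_inv_index hj one_pos)

/-- the quadratic form -/
noncomputable def Qf {m : ℕ} (n : Fin m → ℤ) (h : Fin m → ℝ) (δ : ℝ) : ℝ :=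
  ∑ j, ∑ l, (n j : ℝ) * n l * Real.log (Zo δ (h j - h l))

lemma Zo_neg (δ u : ℝ) : Zo δ (-u) = Zo δ u := by
  unfold Zo
  have e : (((1 + 2 * δ : ℝ) : ℂ) + ((-u : ℝ) : ℂ) * I) = (starRingEnd ℂ) (((1 + 2 * δ : ℝ) : ℂ) + (u : ℂ) * I) := by
    rw [map_add, map_mul, Complex.conj_ofReal, Complex.conj_ofReal, Complex.conj_I]
    push_cast
    ring
  rw [e, riemannZeta_conj, RCLike.norm_conj]

lemma LM_phase (hL : S_LZB) {m : ℕ} (k : Fin m → ℝ) (n : Fin m → ℤ) (h : Fin m → ℝ) {δ : ℝ} (h0 : 0 < δ) (h1 : δ ≤ 1 / 16) :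
    (LM (sp (cc k) n) (sm (cc k) n) h δ).re = Lr k h δ - Qf n h δ / 4 := by
  have hre : ∀ u, (LZ (1 + 2 * δ) u).re = Real.log (Zo δ u) := by
    intro u
    rw [← exp_LZ hL h0 h1 u, Real.log_exp]
  obtain ⟨L, hLd⟩ : ∃ L : Fin m → Fin m → ℝ, ∀ j l, L j l = Real.log (Zo δ (h j - h l)) := ⟨_, fun _ _ => rfl⟩
  have hsym : ∀ j l, L j l = L l j := by
    intro j l
    rw [hLd, hLd, ← Zo_neg, neg_sub]
  have e1 : (LM (sp (cc k) n) (sm (cc k) n) h δ).re = ∑ j, ∑ l, (k j + (n j : ℝ) / 2) * (k l - (n l : ℝ) / 2) * L j l := by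
    unfold LM sp sm cc
    rw [Complex.re_sum]
    refine Finset.sum_congr rfl fun j _ => ?_
    rw [Complex.re_sum]
    refine Finset.sum_congr rfl fun l _ => ?_
    rw [hLd, ← hre]
    have e2 : ((k j : ℂ) + (n j : ℂ) / 2) * ((k l : ℂ) - (n l : ℂ) / 2) = (((k j + (n j : ℝ) / 2) * (k l - (n l : ℝ) / 2) : ℝ) : ℂ) := by
      push_cast
      ring
    rw [e2, Complex.re_ofReal_mul]
  have e3 : Lr k h δ = ∑ j, ∑ l, k j * k l * L j l := by
    unfold Lr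
    simp_rw [hre, hLd]
  have e4 : Qf n h δ = ∑ j, ∑ l, (n j : ℝ) * n l * L j l := by
    unfold Qf
    simp_rw [hLd]
  have e5 : ∑ j, ∑ l, ((n j : ℝ) * k l - k j * n l) * L j l = 0 := by
    have h2 : ∑ j, ∑ l, ((n j : ℝ) * k l - k j * n l) * L j l = ∑ j, ∑ l, ((n l : ℝ) * k j - k l * n j) * L l j := by
      rw [Finset.sum_comm]
    have h3 : ∑ j, ∑ l, ((n l : ℝ) * k j - k l * n j) * L l j = -∑ j, ∑ l, ((n j : ℝ) * k l - k j * n l) * L j l := by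
      rw [← Finset.sum_neg_distrib]
      refine Finset.sum_congr rfl fun j _ => ?_
      rw [← Finset.sum_neg_distrib]
      refine Finset.sum_congr rfl fun l _ => ?_
      rw [hsym l j]
      ring
    rw [h3] at h2
    linarith
  rw [e1, e3, e4]
  have e6 : ∑ j, ∑ l, (k j + (n j : ℝ) / 2) * (k l - (n l : ℝ) / 2) * L j l =
      (∑ j, ∑ l, k j * k l * L j l) - (∑ j, ∑ l, (n j : ℝ) * n l * L j l) / 4 +
        (∑ j, ∑ l, ((n j : ℝ) * k l - k j * n l) * L j l) / 2 := by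
    simp only [Finset.sum_div, ← Finset.sum_add_distrib, ← Finset.sum_sub_distrib]
    refine Finset.sum_congr rfl fun j _ => Finset.sum_congr rfl fun l _ => ?_
    ring
  rw [e6, e5]
  ring

/-- the good sets -/
def Good {m : ℕ} (R ε0 T δ : ℝ) (h : Fin m → ℝ) (N : Set ℝ) : Prop :=
  MeasurableSet N ∧ N ⊆ Set.Icc 0 T ∧ (∀ t ∈ N, ∀ j, riemannZeta (pw δ (t + h j)) ≠ 0) ∧ JMp R ε0 T δ h N

lemma Good.mono {m : ℕ} {R R' ε0 ε1 T δ : ℝ} {h : Fin m → ℝ} {N : Set ℝ} (hT : 0 ≤ T) (hG : Good R ε0 T δ h N) (hR : R' ≤ R)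
    (hε : ε0 ≤ ε1) : Good R' ε1 T δ h N :=
  ⟨hG.1, hG.2.1, hG.2.2.1, fun b n hb hn => (hG.2.2.2 b n (fun j => (hb j).trans hR) (fun j => (hn j).trans hR)).trans
    (mul_le_mul_of_nonneg_right hε hT)⟩

/-- the mean of `f` over the phases -/
def Pr {m : ℕ} (k : Fin m → ℝ) (ε0 : ℝ) (d : ℝ → ℝ) (h : ℝ → Fin m → ℝ) (f : C(UnitAddTorus (Fin m), ℂ)) : Prop :=
  ∀ ε : ℝ, 0 < ε → ∃ R0 : ℝ, ∀ᶠ T : ℝ in atTop, ∀ N : Set ℝ, Good R0 ε0 T (d T) (h T) N →
    ‖(∫ t in N, ((G k (h T) (d T) t : ℝ) : ℂ) * f (Th (d T) (h T) t)) -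
      (∫ x, f x ∂(tor m)) * ((∫ t in N, G k (h T) (d T) t : ℝ) : ℂ)‖ ≤ ε * ∫ t in N, G k (h T) (d T) t

lemma f_int {m : ℕ} (f : C(UnitAddTorus (Fin m), ℂ)) : Integrable (fun x => f x) (tor m) :=
  (integrable_const ‖f‖).mono' f.continuous.aestronglyMeasurable (Eventually.of_forall fun x => f.norm_coe_le_norm x)

section

variable {m : ℕ} {k : Fin m → ℝ} (hk : ∀ j, 0 ≤ k j) {d : ℝ → ℝ} (hd : Ad d) {h : ℝ → Fin m → ℝ}

include hk in
lemma G_int {δ : ℝ} (h0 : δ ≤ 1 / 16) {H : Fin m → ℝ} {T : ℝ} {N : Set ℝ} (hN : N ⊆ Set.Icc 0 T) :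
    IntegrableOn (fun t => G k H δ t) N := ((G_cont h0 hk).integrableOn_Icc).mono_set hN

include hk in
lemma Gf_int {δ : ℝ} (h0 : δ ≤ 1 / 16) {H : Fin m → ℝ} {T : ℝ} {N : Set ℝ} (hN : N ⊆ Set.Icc 0 T)
    (f : C(UnitAddTorus (Fin m), ℂ)) : IntegrableOn (fun t => ((G k H δ t : ℝ) : ℂ) * f (Th δ H t)) N := by
  have h1 : IntegrableOn (fun t => ((G k H δ t : ℝ) : ℂ)) N := (G_int hk h0 hN).ofReal
  exact Integrable.mul_bdd (c := ‖f‖) h1 ((f.continuous.measurable.comp (Th_meas h0 H)).aestronglyMeasurable)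
    (Eventually.of_forall fun t => f.norm_coe_le_norm _)

include hk hd in
lemma Pr_add {ε0 : ℝ} {f g : C(UnitAddTorus (Fin m), ℂ)} (hf : Pr k ε0 d h f) (hg : Pr k ε0 d h g) : Pr k ε0 d h (f + g) := by
  intro ε hε
  obtain ⟨R1, h1⟩ := hf (ε / 2) (half_pos hε)
  obtain ⟨R2, h2⟩ := hg (ε / 2) (half_pos hε)
  refine ⟨max R1 R2, ?_⟩
  filter_upwards [h1, h2, eventually_ge_atTop 0, (Ev.of_le (d := 1 / 16) (by norm_num)).app hd] with T h1 h2 hT g4 N hN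
  have a1 := h1 N (hN.mono hT (le_max_left _ _) le_rfl)
  have a2 := h2 N (hN.mono hT (le_max_right _ _) le_rfl)
  have i1 := Gf_int hk g4 (H := h T) hN.2.1 f
  have i2 := Gf_int hk g4 (H := h T) hN.2.1 g
  have e1 : ∫ t in N, ((G k (h T) (d T) t : ℝ) : ℂ) * (f + g) (Th (d T) (h T) t) =
      (∫ t in N, ((G k (h T) (d T) t : ℝ) : ℂ) * f (Th (d T) (h T) t)) + ∫ t in N, ((G k (h T) (d T) t : ℝ) : ℂ) * g (Th (d T) (h T) t) := by
    rw [← integral_add i1 i2]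
    refine integral_congr_ae (Eventually.of_forall fun t => ?_)
    simp only [ContinuousMap.add_apply]
    ring
  have e2 : ∫ x, (f + g) x ∂(tor m) = (∫ x, f x ∂(tor m)) + ∫ x, g x ∂(tor m) := by
    rw [← integral_add (f_int f) (f_int g)]
    rfl
  rw [e1, e2]
  have e3 : ∀ a b c e M : ℂ, a + b - (c + e) * M = (a - c * M) + (b - e * M) := by intros; ring
  rw [e3]
  refine (norm_add_le _ _).trans ?_
  linarith

end

end Pool.Agent.Run7.h290.SH
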