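import Pool.Agent.Run7.h290.SH.E

set_option autoImplicit false

/-! The phases of shifted values: equidistribution for all continuous functions. -/

namespace Pool.Agent.Run7.h290.SH

open Finset Filter MeasureTheory Topology Complex
open Pool.Agent.N748.MG Pool.Agent.N748.MJ Pool.Agent.N748.MJ.SM

section

variable {m : ℕ} {k : Fin m → ℝ} (hk : ∀ j, 0 ≤ k j) {d : ℝ → ℝ} (hd : Ad d) {h : ℝ → Fin m → ℝ}

lemma M_nn {δ : ℝ} {H : Fin m → ℝ} {N : Set ℝ} : 0 ≤ ∫ t in N, G k H δ t := integral_nonneg fun _ => G_nn _ _ _ _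

lemma Pr_smul {ε0 : ℝ} {f : C(UnitAddTorus (Fin m), ℂ)} (a : ℂ) (hf : Pr k ε0 d h f) : Pr k ε0 d h (a • f) := by
  intro ε hε
  have ha : 0 < 1 + ‖a‖ := by positivity
  obtain ⟨R, h1⟩ := hf (ε / (1 + ‖a‖)) (by positivity)
  refine ⟨R, ?_⟩
  filter_upwards [h1] with T h1 N hN
  have a1 := h1 N hN
  have e1 : ∫ t in N, ((G k (h T) (d T) t : ℝ) : ℂ) * (a • f) (Th (d T) (h T) t) =
      a * ∫ t in N, ((G k (h T) (d T) t : ℝ) : ℂ) * f (Th (d T) (h T) t) := by
    rw [← integral_const_mul]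
    refine integral_congr_ae (Eventually.of_forall fun t => ?_)
    simp only [ContinuousMap.smul_apply, smul_eq_mul]
    ring
  have e2 : ∫ x, (a • f) x ∂(tor m) = a * ∫ x, f x ∂(tor m) := by
    rw [← integral_const_mul]
    rfl
  rw [e1, e2, mul_assoc, ← mul_sub, norm_mul]
  have hM : 0 ≤ ∫ t in N, G k (h T) (d T) t := M_nn
  calc ‖a‖ * ‖(∫ t in N, ((G k (h T) (d T) t : ℝ) : ℂ) * f (Th (d T) (h T) t)) -
        (∫ x, f x ∂(tor m)) * ((∫ t in N, G k (h T) (d T) t : ℝ) : ℂ)‖ ≤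
      ‖a‖ * (ε / (1 + ‖a‖) * ∫ t in N, G k (h T) (d T) t) := mul_le_mul_of_nonneg_left a1 (norm_nonneg _)
    _ = (‖a‖ / (1 + ‖a‖)) * (ε * ∫ t in N, G k (h T) (d T) t) := by ring
    _ ≤ 1 * (ε * ∫ t in N, G k (h T) (d T) t) := by
        refine mul_le_mul_of_nonneg_right ?_ (by positivity)
        rw [div_le_one ha]
        linarith
    _ = _ := one_mul _

lemma Pr_one {ε0 : ℝ} : Pr k ε0 d h (UnitAddTorus.mFourier (0 : Fin m → ℤ)) := by
  intro ε hε
  refine ⟨0, Eventually.of_forall fun T N hN => ?_⟩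
  have e0 : ∀ x : UnitAddTorus (Fin m), UnitAddTorus.mFourier (0 : Fin m → ℤ) x = 1 := by
    intro x
    rw [UnitAddTorus.mFourier_zero]
    rfl
  simp_rw [e0, mul_one]
  rw [integral_complex_ofReal]
  have e1 : ∫ _x : UnitAddTorus (Fin m), (1:ℂ) ∂(tor m) = 1 := by
    rw [integral_const]
    simp
  rw [e1, one_mul, sub_self, norm_zero]
  have : 0 ≤ ∫ t in N, G k (h T) (d T) t := M_nn
  positivity

include hk hd in
lemma Pr_char (hP : S_POSV) (hL : S_LZB) {Rk c ε0 : ℝ} (hRk : ∀ j, k j ≤ Rk) (hc : 0 < c)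
    (hcl : ∀ H : Fin m → ℝ, ∃ a : ℝ, c ≤ a ∧ aV (cc k) (cc k) H = a) (hε1 : ε0 ≤ c / 2) (hε2 : ε0 ≤ 1)
    {n : Fin m → ℤ} (hn : n ≠ 0) (hQ : Tendsto (fun T => Qf n (h T) (d T)) atTop atTop) :
    Pr k ε0 d h (UnitAddTorus.mFourier n) := by
  intro ε hε
  obtain ⟨j0, hj0⟩ : ∃ j, n j ≠ 0 := by
    by_contra hcon
    push Not at hcon
    exact hn (funext hcon)
  have hRk0 : 0 ≤ Rk := (hk j0).trans (hRk j0)
  obtain ⟨R0, hR0d⟩ : ∃ R0, R0 = Rk + ∑ j, |((n j : ℤ) : ℝ)| := ⟨_, rfl⟩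
  have hs0 : 0 ≤ ∑ j, |((n j : ℤ) : ℝ)| := sum_nonneg fun _ _ => abs_nonneg _
  have hR0 : 0 ≤ R0 := by rw [hR0d]; linarith
  have hRn : ∀ j, |((n j : ℤ) : ℝ)| ≤ R0 := by
    intro j
    have := single_le_sum (f := fun j => |((n j : ℤ) : ℝ)|) (fun _ _ => abs_nonneg _) (mem_univ j)
    rw [hR0d]
    linarith
  have hb : ∀ j, ‖cc k j‖ ≤ R0 := by
    intro j
    unfold cc
    rw [Complex.norm_real, Real.norm_of_nonneg (hk j), hR0d]
    have := hRk j
    linarith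
  obtain ⟨c', C', hc', hC', hcC⟩ := hP m (2 * R0) (by positivity)
  refine ⟨R0, ?_⟩
  have hev : ∀ᶠ T in atTop, Real.exp (-(Qf n (h T) (d T) / 4)) * (C' + 1) ≤ ε * (c / 2) := by
    have h1 : Tendsto (fun T => Real.exp (-(Qf n (h T) (d T) / 4)) * (C' + 1)) atTop (𝓝 (0 * (C' + 1))) := by
      refine Tendsto.mul_const _ (Real.tendsto_exp_neg_atTop_nhds_zero.comp ?_)
      exact hQ.atTop_div_const (by norm_num)
    rw [zero_mul] at h1
    exact h1.eventually_le_const (by positivity)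
  filter_upwards [hev, hd.pos, eventually_gt_atTop 0, (Ev.of_le (d := 1 / 16) (by norm_num)).app hd] with T g1 g5 hT g4 N hN
  obtain ⟨hN1, hN2, hN3, hN4⟩ := hN
  obtain ⟨a, ha1, ha2⟩ := hcl (h T)
  obtain ⟨M, hM⟩ : ∃ M, M = ∫ t in N, G k (h T) (d T) t := ⟨_, rfl⟩
  obtain ⟨r, hr⟩ : ∃ r, r = Lr k (h T) (d T) := ⟨_, rfl⟩
  have l1 := real_form hT (hc.le.trans ha1) ha2 (hN4 (cc k) (fun _ => 0) hb (fun j => by simpa using hR0))
  rw [← hM, ← hr] at l1
  have l2 : c / 2 * T ≤ Real.exp (-r) * M := by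
    have h2 := (abs_le.1 l1).1
    have h3 : T * c ≤ T * a := mul_le_mul_of_nonneg_left ha1 hT.le
    have h4 : ε0 * T ≤ c / 2 * T := mul_le_mul_of_nonneg_right hε1 hT.le
    linarith
  obtain ⟨J, hJ⟩ : ∃ J, J = ∫ t in N, ∏ j, ZZ (riemannZeta (pw (d T) (t + h T j))) (cc k j) (n j) := ⟨_, rfl⟩
  have u1 := hN4 (cc k) n hb hRn
  rw [← hJ] at u1
  have hn2 : ∀ j, ‖((n j : ℤ) : ℂ) / 2‖ ≤ R0 := by
    intro j
    rw [norm_div, Complex.norm_intCast]
    have := hRn j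
    simp only [Complex.norm_ofNat]
    linarith [abs_nonneg ((n j : ℤ) : ℝ)]
  have u2 : ‖aV (sp (cc k) n) (sm (cc k) n) (h T)‖ ≤ C' := by
    refine (hcC (h T)).1 _ _ (fun j => ?_) (fun j => ?_)
    · unfold sp
      refine (norm_add_le _ _).trans ?_
      linarith [hb j, hn2 j]
    · unfold sm
      refine (norm_sub_le _ _).trans ?_
      linarith [hb j, hn2 j]
  have u3 : ‖Complex.exp (-(LM (sp (cc k) n) (sm (cc k) n) (h T) (d T))) * J‖ ≤ (C' + 1) * T := by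
    have h2 : Complex.exp (-(LM (sp (cc k) n) (sm (cc k) n) (h T) (d T))) * J =
        (Complex.exp (-(LM (sp (cc k) n) (sm (cc k) n) (h T) (d T))) * J - T * aV (sp (cc k) n) (sm (cc k) n) (h T)) +
          T * aV (sp (cc k) n) (sm (cc k) n) (h T) := by ring
    rw [h2]
    refine (norm_add_le _ _).trans ?_
    rw [norm_mul (T : ℂ), Complex.norm_real, Real.norm_of_nonneg hT.le]
    have h3 : T * ‖aV (sp (cc k) n) (sm (cc k) n) (h T)‖ ≤ T * C' := mul_le_mul_of_nonneg_left u2 hT.le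
    have h4 : ε0 * T ≤ 1 * T := mul_le_mul_of_nonneg_right hε2 hT.le
    linarith
  rw [norm_mul, Complex.norm_exp, Complex.neg_re, LM_phase hL k n (h T) g5 g4, ← hr] at u3
  have u4 : ‖J‖ ≤ ε * M := by
    have h2 : Real.exp (-(r - Qf n (h T) (d T) / 4)) = Real.exp (-r) * Real.exp (Qf n (h T) (d T) / 4) := by
      rw [← Real.exp_add]
      congr 1
      ring
    rw [h2] at u3
    have h3 : Real.exp (Qf n (h T) (d T) / 4) * Real.exp (-(Qf n (h T) (d T) / 4)) = 1 := by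
      rw [← Real.exp_add]
      simp
    have h5 : Real.exp (-r) * ‖J‖ ≤ Real.exp (-(Qf n (h T) (d T) / 4)) * (C' + 1) * T := by
      calc Real.exp (-r) * ‖J‖ = Real.exp (-(Qf n (h T) (d T) / 4)) *
            (Real.exp (-r) * Real.exp (Qf n (h T) (d T) / 4) * ‖J‖) := by
            have : Real.exp (-(Qf n (h T) (d T) / 4)) * (Real.exp (-r) * Real.exp (Qf n (h T) (d T) / 4) * ‖J‖) =
              (Real.exp (Qf n (h T) (d T) / 4) * Real.exp (-(Qf n (h T) (d T) / 4))) * (Real.exp (-r) * ‖J‖) := by ring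
            rw [this, h3, one_mul]
        _ ≤ Real.exp (-(Qf n (h T) (d T) / 4)) * ((C' + 1) * T) := mul_le_mul_of_nonneg_left u3 (Real.exp_pos _).le
        _ = _ := by ring
    have h6 : Real.exp (-r) * ‖J‖ ≤ Real.exp (-r) * (ε * M) := by
      calc Real.exp (-r) * ‖J‖ ≤ ε * (c / 2) * T := h5.trans (mul_le_mul_of_nonneg_right g1 hT.le)
        _ = ε * (c / 2 * T) := by ring
        _ ≤ ε * (Real.exp (-r) * M) := mul_le_mul_of_nonneg_left l2 hε.le
        _ = _ := by ring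
    exact le_of_mul_le_mul_left h6 (Real.exp_pos _)
  have e1 : ∫ t in N, ((G k (h T) (d T) t : ℝ) : ℂ) * UnitAddTorus.mFourier n (Th (d T) (h T) t) = J := by
    rw [hJ]
    refine setIntegral_congr_fun hN1 fun t ht => ?_
    exact (ZZ_Th k n (hN3 t ht)).symm
  rw [e1, integral_mFourier n hn, zero_mul, sub_zero, ← hM]
  exact u4

include hk hd in
theorem Pr_closure {ε0 : ℝ} {f : C(UnitAddTorus (Fin m), ℂ)}
    (hf : ∀ ε : ℝ, 0 < ε → ∃ g : C(UnitAddTorus (Fin m), ℂ), Pr k ε0 d h g ∧ ‖f - g‖ < ε) : Pr k ε0 d h f := by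
  intro ε hε
  obtain ⟨g, hg, hfg⟩ := hf (ε / 3) (by positivity)
  obtain ⟨R, h1⟩ := hg (ε / 3) (by positivity)
  refine ⟨R, ?_⟩
  filter_upwards [h1, (Ev.of_le (d := 1 / 16) (by norm_num)).app hd] with T h1 g4 N hN
  have a1 := h1 N hN
  have hM : 0 ≤ ∫ t in N, G k (h T) (d T) t := M_nn
  have i1 := Gf_int hk g4 (H := h T) hN.2.1 f
  have i2 := Gf_int hk g4 (H := h T) hN.2.1 g
  have i3 := G_int hk g4 (H := h T) hN.2.1
  have e1 : (∫ t in N, ((G k (h T) (d T) t : ℝ) : ℂ) * f (Th (d T) (h T) t)) -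
      (∫ t in N, ((G k (h T) (d T) t : ℝ) : ℂ) * g (Th (d T) (h T) t)) =
      ∫ t in N, ((G k (h T) (d T) t : ℝ) : ℂ) * (f - g) (Th (d T) (h T) t) := by
    rw [← integral_sub i1 i2]
    refine integral_congr_ae (Eventually.of_forall fun t => ?_)
    simp only [ContinuousMap.sub_apply]
    ring
  have b1 : ‖(∫ t in N, ((G k (h T) (d T) t : ℝ) : ℂ) * f (Th (d T) (h T) t)) -
      (∫ t in N, ((G k (h T) (d T) t : ℝ) : ℂ) * g (Th (d T) (h T) t))‖ ≤ ε / 3 * ∫ t in N, G k (h T) (d T) t := by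
    rw [e1, ← integral_const_mul]
    refine norm_integral_le_of_norm_le (i3.const_mul _) (Eventually.of_forall fun t => ?_)
    rw [norm_mul, Complex.norm_real, Real.norm_of_nonneg (G_nn _ _ _ _), mul_comm]
    exact mul_le_mul_of_nonneg_right (((f - g).norm_coe_le_norm _).trans hfg.le) (G_nn _ _ _ _)
  have e2 : (∫ x, f x ∂(tor m)) - ∫ x, g x ∂(tor m) = ∫ x, (f - g) x ∂(tor m) := by
    rw [← integral_sub (f_int f) (f_int g)]
    rfl
  have b2 : ‖(∫ x, f x ∂(tor m)) - ∫ x, g x ∂(tor m)‖ ≤ ε / 3 := by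
    rw [e2]
    refine (norm_integral_le_of_norm_le_const (μ := tor m) (C := ‖f - g‖)
      (Eventually.of_forall fun x => (f - g).norm_coe_le_norm _)).trans ?_
    simp
    exact hfg.le
  have e3 : (∫ t in N, ((G k (h T) (d T) t : ℝ) : ℂ) * f (Th (d T) (h T) t)) -
      (∫ x, f x ∂(tor m)) * ((∫ t in N, G k (h T) (d T) t : ℝ) : ℂ) =
      ((∫ t in N, ((G k (h T) (d T) t : ℝ) : ℂ) * f (Th (d T) (h T) t)) -
      (∫ t in N, ((G k (h T) (d T) t : ℝ) : ℂ) * g (Th (d T) (h T) t))) +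
      ((∫ t in N, ((G k (h T) (d T) t : ℝ) : ℂ) * g (Th (d T) (h T) t)) -
      (∫ x, g x ∂(tor m)) * ((∫ t in N, G k (h T) (d T) t : ℝ) : ℂ)) -
      ((∫ x, f x ∂(tor m)) - ∫ x, g x ∂(tor m)) * ((∫ t in N, G k (h T) (d T) t : ℝ) : ℂ) := by ring
  rw [e3]
  refine (norm_sub_le _ _).trans ?_
  have b3 : ‖((∫ x, f x ∂(tor m)) - ∫ x, g x ∂(tor m)) * ((∫ t in N, G k (h T) (d T) t : ℝ) : ℂ)‖ ≤
      ε / 3 * ∫ t in N, G k (h T) (d T) t := by
    rw [norm_mul, Complex.norm_real, Real.norm_of_nonneg hM]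
    exact mul_le_mul_of_nonneg_right b2 hM
  have b4 := norm_add_le ((∫ t in N, ((G k (h T) (d T) t : ℝ) : ℂ) * f (Th (d T) (h T) t)) -
      (∫ t in N, ((G k (h T) (d T) t : ℝ) : ℂ) * g (Th (d T) (h T) t)))
      ((∫ t in N, ((G k (h T) (d T) t : ℝ) : ℂ) * g (Th (d T) (h T) t)) -
      (∫ x, g x ∂(tor m)) * ((∫ t in N, G k (h T) (d T) t : ℝ) : ℂ))
  linarith

lemma Pr_zero {ε0 : ℝ} : Pr k ε0 d h (0 : C(UnitAddTorus (Fin m), ℂ)) := by
  intro ε hε
  refine ⟨0, Eventually.of_forall fun T N hN => ?_⟩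
  have : 0 ≤ ∫ t in N, G k (h T) (d T) t := M_nn
  simp
  positivity

include hk hd in
theorem Pr_all (hP : S_POSV) (hL : S_LZB) {Rk c ε0 : ℝ} (hRk : ∀ j, k j ≤ Rk) (hc : 0 < c)
    (hcl : ∀ H : Fin m → ℝ, ∃ a : ℝ, c ≤ a ∧ aV (cc k) (cc k) H = a) (hε1 : ε0 ≤ c / 2) (hε2 : ε0 ≤ 1)
    (hQ : ∀ n : Fin m → ℤ, n ≠ 0 → Tendsto (fun T => Qf n (h T) (d T)) atTop atTop) (f : C(UnitAddTorus (Fin m), ℂ)) :
    Pr k ε0 d h f := by
  have hspan : ∀ g ∈ Submodule.span ℂ (Set.range (UnitAddTorus.mFourier (d := Fin m))), Pr k ε0 d h g := by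
    intro g hg
    induction hg using Submodule.span_induction with
    | mem x hx =>
      obtain ⟨n, rfl⟩ := hx
      by_cases hn : n = 0
      · subst hn
        exact Pr_one
      · exact Pr_char hk hd hP hL hRk hc hcl hε1 hε2 hn (hQ n hn)
    | zero => exact Pr_zero
    | add x y _ _ hx hy => exact Pr_add hk hd hx hy
    | smul a x _ hx => exact Pr_smul a hx
  refine Pr_closure hk hd fun ε hε => ?_
  have hdense : f ∈ closure ((Submodule.span ℂ (Set.range (UnitAddTorus.mFourier (d := Fin m))) :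
      Submodule ℂ C(UnitAddTorus (Fin m), ℂ)) : Set C(UnitAddTorus (Fin m), ℂ)) := by
    rw [← Submodule.topologicalClosure_coe, UnitAddTorus.span_mFourier_closure_eq_top]
    exact Set.mem_univ _
  obtain ⟨g, hg, hfg⟩ := Metric.mem_closure_iff.mp hdense ε hε
  rw [dist_eq_norm] at hfg
  exact ⟨g, hspan g hg, hfg⟩

/-- a coordinate -/
def ev (j : Fin m) : C(UnitAddTorus (Fin m), UnitAddCircle) := ⟨fun x => x j, continuous_apply j⟩

lemma Qf_single (j : Fin m) (n : ℤ) (H : Fin m → ℝ) (δ : ℝ) : Qf (Pi.single j n) H δ = (n:ℝ) ^ 2 * Real.log (Zo δ 0) := by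
  unfold Qf
  rw [Finset.sum_eq_single j, Finset.sum_eq_single j]
  · rw [Pi.single_eq_same, sub_self]
    ring
  · intro i _ hi
    rw [Pi.single_eq_of_ne hi]
    simp
  · intro hc
    exact absurd (mem_univ j) hc
  · intro i _ hi
    rw [Pi.single_eq_of_ne hi]
    simp
  · intro hc
    exact absurd (mem_univ j) hc

include hk hd in
theorem Pr_coord (hP : S_POSV) (hL : S_LZB) {Rk c ε0 : ℝ} (hRk : ∀ j, k j ≤ Rk) (hc : 0 < c)
    (hcl : ∀ H : Fin m → ℝ, ∃ a : ℝ, c ≤ a ∧ aV (cc k) (cc k) H = a) (hε1 : ε0 ≤ c / 2) (hε2 : ε0 ≤ 1)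
    (hZ : Tendsto (fun T => Real.log (Zo (d T) 0)) atTop atTop) (j : Fin m) (g : C(UnitAddCircle, ℂ)) :
    Pr k ε0 d h (g.comp (ev j)) := by
  have hspan : ∀ g ∈ Submodule.span ℂ (Set.range (fourier (T := (1:ℝ)))), Pr k ε0 d h (ContinuousMap.comp g (ev j)) := by
    intro g hg
    induction hg using Submodule.span_induction with
    | mem x hx =>
      obtain ⟨n, rfl⟩ := hx
      have e1 : (fourier n).comp (ev j) = UnitAddTorus.mFourier (Pi.single j n) := by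
        ext x
        have e2 : UnitAddTorus.mFourier (Pi.single j n) x = ∏ i, fourier ((Pi.single j n : Fin m → ℤ) i) (x i) := rfl
        rw [e2, Finset.prod_eq_single j]
        · rw [Pi.single_eq_same]
          rfl
        · intro i _ hi
          rw [Pi.single_eq_of_ne hi, fourier_zero]
        · intro hc
          exact absurd (mem_univ j) hc
      rw [e1]
      by_cases hn : n = 0
      · subst hn
        rw [Pi.single_zero]
        exact Pr_one
      · refine Pr_char hk hd hP hL hRk hc hcl hε1 hε2 ?_ ?_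
        · intro hcon
          exact hn (by have := congrFun hcon j; rwa [Pi.single_eq_same] at this)
        · simp_rw [Qf_single]
          have : (0:ℝ) < (n:ℝ) ^ 2 := by positivity
          exact hZ.const_mul_atTop this
    | zero =>
      have : (0 : C(UnitAddCircle, ℂ)).comp (ev j) = 0 := rfl
      rw [this]
      exact Pr_zero
    | add x y _ _ hx hy =>
      have : (x + y).comp (ev j) = x.comp (ev j) + y.comp (ev j) := rfl
      rw [this]
      exact Pr_add hk hd hx hy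
    | smul a x _ hx =>
      have : (a • x).comp (ev j) = a • x.comp (ev j) := rfl
      rw [this]
      exact Pr_smul a hx
  refine Pr_closure hk hd fun ε hε => ?_
  have hdense : g ∈ closure ((Submodule.span ℂ (Set.range (fourier (T := (1:ℝ)))) :
      Submodule ℂ C(UnitAddCircle, ℂ)) : Set C(UnitAddCircle, ℂ)) := by
    rw [← Submodule.topologicalClosure_coe, span_fourier_closure_eq_top]
    exact Set.mem_univ _
  obtain ⟨g', hg', hgg⟩ := Metric.mem_closure_iff.mp hdense ε hε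
  rw [dist_eq_norm] at hgg
  refine ⟨g'.comp (ev j), hspan g' hg', lt_of_le_of_lt ?_ hgg⟩
  rw [ContinuousMap.norm_le _ (norm_nonneg _)]
  intro x
  exact (g - g').norm_coe_le_norm (x j)

end

end Pool.Agent.Run7.h290.SH
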