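import Pool.Agent.Run7.h290.SH.F

set_option autoImplicit false

/-! The phases of shifted values over the points where the shifted values are not too large. -/

namespace Pool.Agent.Run7.h290.SH

open Finset Filter MeasureTheory Topology Complex
open Pool.Agent.N748.MG Pool.Agent.N748.MJ Pool.Agent.N748.MJ.SM

lemma quot_bound {A A' I : ℂ} {M M' x y F ε : ℝ} (hM' : 0 < M') (hF : 0 ≤ F) (hx0 : 0 ≤ x) (hI : ‖I‖ ≤ F)
    (h1 : ‖A - A'‖ ≤ (1 + F) * (x * M')) (h2 : |M - M'| ≤ x * M') (h3 : ‖A' - I * M'‖ ≤ y * M') (hx : x ≤ 1 / 2)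
    (hxe : (1 + F) * x ≤ ε / 8) (hye : y ≤ ε / 4) : 0 < M ∧ ‖A / (M : ℂ) - I‖ ≤ ε := by
  have hM : M' / 2 ≤ M := by
    have h4 := (abs_le.1 h2).1
    have h5 : x * M' ≤ 1 / 2 * M' := mul_le_mul_of_nonneg_right hx hM'.le
    linarith
  have hM0 : 0 < M := by linarith
  refine ⟨hM0, ?_⟩
  have hMc : (M : ℂ) ≠ 0 := by exact_mod_cast hM0.ne'
  have e1 : A / (M : ℂ) - I = ((A - A') + (A' - I * M') + I * ((M' : ℂ) - M)) / M := by
    field_simp
    ring
  rw [e1, norm_div, Complex.norm_real, Real.norm_of_nonneg hM0.le, div_le_iff₀ hM0]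
  have e2 : ‖I * ((M' : ℂ) - M)‖ ≤ F * (x * M') := by
    rw [norm_mul, ← Complex.ofReal_sub, Complex.norm_real, Real.norm_eq_abs, abs_sub_comm]
    exact mul_le_mul hI h2 (abs_nonneg _) hF
  refine (norm_add_le _ _).trans ?_
  have e3 := norm_add_le (A - A') (A' - I * M')
  have e4 : (1 + F) * (x * M') ≤ ε / 8 * M' := by
    rw [← mul_assoc]
    exact mul_le_mul_of_nonneg_right hxe hM'.le
  have e5 : F * (x * M') ≤ (1 + F) * (x * M') := by
    have : 0 ≤ x * M' := by positivity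
    nlinarith
  have e6 : y * M' ≤ ε / 4 * M' := mul_le_mul_of_nonneg_right hye hM'.le
  have hε : 0 ≤ ε := by
    have : 0 ≤ (1 + F) * x := by positivity
    linarith
  have e7 : ε * (M' / 2) ≤ ε * M := mul_le_mul_of_nonneg_left hM hε
  linarith

section

variable {m : ℕ} {k : Fin m → ℝ} {d : ℝ → ℝ} {h : ℝ → Fin m → ℝ} {V : ℝ} (hJ : S_JM) (hP : S_POSV) (hL : S_LZB)
  (hd : Ad d) (hh : ∀ᶠ T : ℝ in atTop, ∀ j, |h T j| ≤ T ^ ((1:ℝ) / 2))
  (hQ : ∀ n : Fin m → ℤ, n ≠ 0 → Tendsto (fun T => Qf n (h T) (d T)) atTop atTop)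

include hJ hP hL hd hh

theorem phases_gen (hk : ∀ j, 0 ≤ k j) (hV : ∑ j, k j < V) (f : C(UnitAddTorus (Fin m), ℂ))
    (hf : ∀ c ε0 : ℝ, 0 < c → (∀ H : Fin m → ℝ, ∃ a : ℝ, c ≤ a ∧ aV (cc k) (cc k) H = a) → ε0 ≤ c / 2 → ε0 ≤ 1 →
      Pr k ε0 d h f) :
    (∀ᶠ T : ℝ in atTop, 0 < ∫ t in Gs V (h T) (d T) T, G k (h T) (d T) t) ∧
    Tendsto (fun T => (∫ t in Gs V (h T) (d T) T, ((G k (h T) (d T) t : ℝ) : ℂ) * f (Th (d T) (h T) t)) /
      ((∫ t in Gs V (h T) (d T) T, G k (h T) (d T) t : ℝ) : ℂ)) atTop (𝓝 (∫ x, f x ∂(tor m))) := by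
  obtain ⟨K, hKd⟩ : ∃ K, K = ∑ j, k j := ⟨_, rfl⟩
  have hK0 : 0 ≤ K := by rw [hKd]; exact sum_nonneg fun j _ => hk j
  have hkK : ∀ j, k j ≤ K := by
    intro j
    rw [hKd]
    exact single_le_sum (f := k) (fun i _ => hk i) (mem_univ j)
  rw [← hKd] at hV
  have hV0 : 0 < V := lt_of_le_of_lt hK0 hV
  obtain ⟨c, C, hc, hC, hcC⟩ := hP m K hK0
  have hcl : ∀ H : Fin m → ℝ, ∃ a : ℝ, c ≤ a ∧ aV (cc k) (cc k) H = a := fun H =>
    (hcC H).2 k (fun j => by rw [abs_of_nonneg (hk j)]; exact hkK j)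
  obtain ⟨ε0, hε0d⟩ : ∃ ε0, ε0 = min 1 (c / 2) := ⟨_, rfl⟩
  have hε0p : 0 < ε0 := by rw [hε0d]; exact lt_min one_pos (by positivity)
  have hε01 : ε0 ≤ 1 := by rw [hε0d]; exact min_le_left _ _
  have hε02 : ε0 ≤ c / 2 := by rw [hε0d]; exact min_le_right _ _
  have hpr := hf c ε0 hc hcl hε02 hε01
  have key : ∀ ε : ℝ, 0 < ε → ∀ᶠ T : ℝ in atTop, 0 < (∫ t in Gs V (h T) (d T) T, G k (h T) (d T) t) ∧
      ‖(∫ t in Gs V (h T) (d T) T, ((G k (h T) (d T) t : ℝ) : ℂ) * f (Th (d T) (h T) t)) /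
      ((∫ t in Gs V (h T) (d T) T, G k (h T) (d T) t : ℝ) : ℂ) - ∫ x, f x ∂(tor m)‖ ≤ ε := by
    intro ε hε
    obtain ⟨R0, hR0⟩ := hpr (ε / 4) (by positivity)
    obtain ⟨x, hxd⟩ : ∃ x, x = min (1 / 2) (ε / (8 * (1 + ‖f‖))) := ⟨_, rfl⟩
    have hF0 : 0 < 8 * (1 + ‖f‖) := by positivity
    have hx0 : 0 < x := by rw [hxd]; exact lt_min (by norm_num) (by positivity)
    have hx1 : x ≤ 1 / 2 := by rw [hxd]; exact min_le_left _ _
    have hx2 : (1 + ‖f‖) * x ≤ ε / 8 := by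
      have h1 : x ≤ ε / (8 * (1 + ‖f‖)) := by rw [hxd]; exact min_le_right _ _
      rw [le_div_iff₀ hF0] at h1
      linarith
    obtain ⟨e2, he2d⟩ : ∃ e2, e2 = min ε0 (x * (c / 2)) := ⟨_, rfl⟩
    have he20 : 0 < e2 := by rw [he2d]; exact lt_min hε0p (by positivity)
    have he21 : e2 ≤ ε0 := by rw [he2d]; exact min_le_left _ _
    have he22 : e2 ≤ x * (c / 2) := by rw [he2d]; exact min_le_right _ _
    obtain ⟨R, hRd⟩ : ∃ R, R = max (K + V + 1) R0 := ⟨_, rfl⟩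
    have hR1 : K + V + 1 ≤ R := by rw [hRd]; exact le_max_left _ _
    have hR2 : R0 ≤ R := by rw [hRd]; exact le_max_right _ _
    have hR0' : 0 ≤ R := by linarith
    have hbase := base hJ hP hL hK0 hV hR1 hd hh he20
    filter_upwards [hbase, hR0, hd.pos, eventually_gt_atTop 0, (Ev.of_le (d := 1 / 16) (by norm_num)).app hd]
      with T g1 g2 g5 hT g4
    obtain ⟨N, n1, n2, n3, n4, n5⟩ := g1
    have hGood : Good R (e2) T (d T) (h T) N := ⟨n1, n2, n3, n4⟩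
    have a3 := g2 N (hGood.mono hT.le hR2 he21)
    obtain ⟨a, ha1, ha2⟩ := hcl (h T)
    obtain ⟨r, hr⟩ : ∃ r, r = Lr k (h T) (d T) := ⟨_, rfl⟩
    obtain ⟨M', hM'⟩ : ∃ M', M' = ∫ t in N, G k (h T) (d T) t := ⟨_, rfl⟩
    obtain ⟨M, hM⟩ : ∃ M, M = ∫ t in Gs V (h T) (d T) T, G k (h T) (d T) t := ⟨_, rfl⟩
    have hb : ∀ j, ‖cc k j‖ ≤ R := by
      intro j
      unfold cc
      rw [Complex.norm_real, Real.norm_of_nonneg (hk j)]
      linarith [hkK j]
    have l1 := real_form hT (hc.le.trans ha1) ha2 (n4 (cc k) (fun _ => 0) hb (fun j => by simpa using hR0'))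
    rw [← hM', ← hr] at l1
    have l2 : c / 2 * T ≤ Real.exp (-r) * M' := by
      have h2 := (abs_le.1 l1).1
      have h3 : T * c ≤ T * a := mul_le_mul_of_nonneg_left ha1 hT.le
      have h4 : e2 * T ≤ c / 2 * T := mul_le_mul_of_nonneg_right (he21.trans hε02) hT.le
      linarith
    have hinv : Real.exp r * Real.exp (-r) = 1 := by rw [← Real.exp_add]; simp
    have l3 : c / 2 * T * Real.exp r ≤ M' := by
      calc c / 2 * T * Real.exp r ≤ Real.exp (-r) * M' * Real.exp r :=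
            mul_le_mul_of_nonneg_right l2 (Real.exp_pos _).le
        _ = (Real.exp r * Real.exp (-r)) * M' := by ring
        _ = M' := by rw [hinv, one_mul]
    have hM'0 : 0 < M' := lt_of_lt_of_le (by positivity) l3
    have l4 : e2 * T * Real.exp r ≤ x * M' := by
      calc e2 * T * Real.exp r ≤ x * (c / 2) * T * Real.exp r := by gcongr
        _ = x * (c / 2 * T * Real.exp r) := by ring
        _ ≤ x * M' := mul_le_mul_of_nonneg_left l3 hx0.le
    have hsumk : ∑ j, k j ≤ K := hKd.symm.le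
    -- the unweighted comparison
    have b1 := n5 k hk hsumk (fun _ => 1) measurable_const (fun _ => by simp)
    simp only [mul_one] at b1
    rw [integral_complex_ofReal, integral_complex_ofReal, ← hM, ← hM', ← hr, ← Complex.ofReal_sub, Complex.norm_real,
      Real.norm_eq_abs] at b1
    -- the weighted comparison
    have hF1 : (0:ℝ) < 1 + ‖f‖ := by positivity
    have hF1c : ((1 + ‖f‖ : ℝ) : ℂ) ≠ 0 := by exact_mod_cast hF1.ne'
    have b2 := n5 k hk hsumk (fun t => f (Th (d T) (h T) t) / ((1 + ‖f‖ : ℝ) : ℂ))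
      ((f.continuous.measurable.comp (Th_meas g4 (h T))).div_const _) (fun t => by
        rw [norm_div, Complex.norm_real, Real.norm_of_nonneg hF1.le, div_le_one hF1]
        have := f.norm_coe_le_norm (Th (d T) (h T) t)
        linarith)
    have e1 : ∀ S : Set ℝ, ∫ t in S, ((G k (h T) (d T) t : ℝ) : ℂ) * (f (Th (d T) (h T) t) / ((1 + ‖f‖ : ℝ) : ℂ)) =
        (∫ t in S, ((G k (h T) (d T) t : ℝ) : ℂ) * f (Th (d T) (h T) t)) / ((1 + ‖f‖ : ℝ) : ℂ) := by
      intro S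
      rw [← integral_div]
      refine integral_congr_ae (Eventually.of_forall fun t => ?_)
      simp only
      ring
    rw [e1, e1, ← sub_div, norm_div, Complex.norm_real, Real.norm_of_nonneg hF1.le, div_le_iff₀ hF1, ← hr] at b2
    rw [← hM']  at a3
    have hI : ‖∫ x, f x ∂(tor m)‖ ≤ ‖f‖ := by
      refine (norm_integral_le_of_norm_le_const (μ := tor m) (C := ‖f‖)
        (Eventually.of_forall fun x => f.norm_coe_le_norm _)).trans ?_
      simp
    rw [← hM]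
    refine quot_bound hM'0 (norm_nonneg f) hx0.le hI ?_ (b1.trans l4) a3 hx1 hx2 le_rfl
    refine b2.trans ?_
    rw [mul_comm]
    exact mul_le_mul_of_nonneg_left l4 hF1.le
  refine ⟨(key 1 one_pos).mono fun T hT => hT.1, ?_⟩
  rw [Metric.tendsto_nhds]
  intro ε hε
  filter_upwards [key (ε / 2) (half_pos hε)] with T hT
  rw [dist_eq_norm]
  exact lt_of_le_of_lt hT.2 (half_lt_self hε)

include hQ in
theorem phases (hk : ∀ j, 0 ≤ k j) (hV : ∑ j, k j < V) (f : C(UnitAddTorus (Fin m), ℂ)) :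
    (∀ᶠ T : ℝ in atTop, 0 < ∫ t in Gs V (h T) (d T) T, G k (h T) (d T) t) ∧
    Tendsto (fun T => (∫ t in Gs V (h T) (d T) T, ((G k (h T) (d T) t : ℝ) : ℂ) * f (Th (d T) (h T) t)) /
      ((∫ t in Gs V (h T) (d T) T, G k (h T) (d T) t : ℝ) : ℂ)) atTop (𝓝 (∫ x, f x ∂(tor m))) :=
  phases_gen hJ hP hL hd hh hk hV f fun _ _ hc hcl h1 h2 =>
    Pr_all hk hd hP hL (fun j => single_le_sum (f := k) (fun i _ => hk i) (mem_univ j)) hc hcl h1 h2 hQ f

end

lemma aC_zero : aC ((0:ℝ) : ℂ) = 1 := by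
  unfold aC
  have h0 : ∀ p : Nat.Primes, ((1 - 1 / (p : ℂ)) ^ (((0:ℝ) : ℂ) ^ 2) * ∑' m : ℕ, lC ((0:ℝ) : ℂ) m ^ 2 * (1 / (p : ℂ)) ^ m) = 1 := by
    intro p
    have h1 : ∀ m : ℕ, m ≠ 0 → lC ((0:ℝ) : ℂ) m ^ 2 * (1 / (p : ℂ)) ^ m = 0 := by
      intro m hm
      have : lC ((0:ℝ) : ℂ) m = 0 := by
        unfold lC
        refine Finset.prod_eq_zero (Finset.mem_range.mpr (Nat.pos_of_ne_zero hm)) ?_
        simp
      rw [this]
      simp
    rw [tsum_eq_single 0 h1]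
    simp [lC]
  simp_rw [h0]
  exact tprod_one

section

variable {m : ℕ} {d : ℝ → ℝ} {h : ℝ → Fin m → ℝ} (hJ : S_JM) (hP : S_POSV) (hL : S_LZB)
  (hd : Ad d) (hh : ∀ᶠ T : ℝ in atTop, ∀ j, |h T j| ≤ T ^ ((1:ℝ) / 2))

include hJ hP hL hd hh

lemma Gs_vol {V : ℝ} (hV : 0 < V) : Tendsto (fun T => (1 / T) * (volume (Gs V (h T) (d T) T)).toReal) atTop (𝓝 1) := by
  rcases Nat.eq_zero_or_pos m with hm | hm
  · subst hm
    refine tendsto_const_nhds.congr' ?_
    filter_upwards [eventually_gt_atTop 0] with T hT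
    have : Gs V (h T) (d T) T = Set.Icc 0 T := by
      ext t
      simp [Gs]
    rw [this, Real.volume_Icc, sub_zero, ENNReal.toReal_ofReal hT.le]
    field_simp
  · have h1 := lim_one hJ hP hL hd hh le_rfl hV ⟨0, hm⟩
    rw [aC_zero, Complex.one_re] at h1
    refine h1.congr fun T => ?_
    simp [Measure.real]

theorem phases0 (hQ : ∀ n : Fin m → ℤ, n ≠ 0 → Tendsto (fun T => Qf n (h T) (d T)) atTop atTop)
    (f : C(UnitAddTorus (Fin m), ℂ)) :
    Tendsto (fun T : ℝ => (1 / (T : ℂ)) * ∫ t in Set.Icc 0 T, f (Th (d T) (h T) t)) atTop (𝓝 (∫ x, f x ∂(tor m))) := by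
  have h1 := (phases hJ hP hL hd hh hQ (k := fun _ => 0) (V := 1) (fun _ => le_rfl) (by simp) f).2
  have h2 := Gs_vol hJ hP hL hd hh one_pos
  have h3 : Tendsto (fun T => (((1 / T) * (volume (Gs 1 (h T) (d T) T)).toReal : ℝ) : ℂ)) atTop (𝓝 ((1:ℝ) : ℂ)) :=
    (Complex.continuous_ofReal.tendsto _).comp h2
  have h4 := h3.mul h1
  rw [Complex.ofReal_one, one_mul] at h4
  have h5 : Tendsto (fun T : ℝ => (1 / (T : ℂ)) * ∫ t in Set.Icc 0 T \ Gs 1 (h T) (d T) T, f (Th (d T) (h T) t)) atTop (𝓝 0) := by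
    have h6 : Tendsto (fun T => ‖f‖ * (1 - (1 / T) * (volume (Gs 1 (h T) (d T) T)).toReal)) atTop (𝓝 (‖f‖ * (1 - 1))) :=
      (tendsto_const_nhds.sub h2).const_mul _
    rw [sub_self, mul_zero] at h6
    refine squeeze_zero_norm' ?_ h6
    filter_upwards [eventually_gt_atTop 0, (Ev.of_le (d := 1 / 16) (by norm_num)).app hd] with T hT g4
    have hsub : Gs 1 (h T) (d T) T ⊆ Set.Icc 0 T := fun t ht => ht.1
    have hfin : volume (Set.Icc (0:ℝ) T) < ⊤ := by
      rw [Real.volume_Icc]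
      exact ENNReal.ofReal_lt_top
    have hv : (volume (Set.Icc 0 T \ Gs 1 (h T) (d T) T)).toReal = T - (volume (Gs 1 (h T) (d T) T)).toReal := by
      rw [measure_sdiff hsub (Gs_meas 1 (h T) g4 T).nullMeasurableSet ((measure_mono hsub).trans_lt hfin).ne,
        ENNReal.toReal_sub_of_le (measure_mono hsub) hfin.ne, Real.volume_Icc, sub_zero, ENNReal.toReal_ofReal hT.le]
    have h7 := norm_setIntegral_le_of_norm_le_const (μ := volume) (s := Set.Icc 0 T \ Gs 1 (h T) (d T) T)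
      (f := fun t => f (Th (d T) (h T) t)) (C := ‖f‖) ((measure_mono Set.sdiff_subset).trans_lt hfin)
      fun t _ => f.norm_coe_le_norm _
    rw [Measure.real, hv] at h7
    rw [norm_mul, norm_div, norm_one, Complex.norm_real, Real.norm_of_nonneg hT.le]
    calc 1 / T * ‖∫ t in Set.Icc 0 T \ Gs 1 (h T) (d T) T, f (Th (d T) (h T) t)‖ ≤
        1 / T * (‖f‖ * (T - (volume (Gs 1 (h T) (d T) T)).toReal)) := mul_le_mul_of_nonneg_left h7 (by positivity)
      _ = _ := by field_simp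
  have h6 := h4.add h5
  rw [add_zero] at h6
  refine h6.congr' ?_
  filter_upwards [eventually_gt_atTop 0, (Ev.of_le (d := 1 / 16) (by norm_num)).app hd,
    (phases hJ hP hL hd hh hQ (k := fun _ => 0) (V := 1) (fun _ => le_rfl) (by simp) f).1] with T hT g4 hpos
  have hsub : Gs 1 (h T) (d T) T ⊆ Set.Icc 0 T := fun t ht => ht.1
  have hG1 : ∀ t, G (fun _ : Fin m => (0:ℝ)) (h T) (d T) t = 1 := by
    intro t
    unfold G
    simp
  simp_rw [hG1] at hpos ⊢
  rw [setIntegral_const, smul_eq_mul, mul_one, Measure.real] at hpos ⊢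
  simp only [Complex.ofReal_one, one_mul]
  have hTc : (T : ℂ) ≠ 0 := by exact_mod_cast hT.ne'
  have hvc : (((volume (Gs 1 (h T) (d T) T)).toReal : ℝ) : ℂ) ≠ 0 := by exact_mod_cast hpos.ne'
  have hint : IntegrableOn (fun t => f (Th (d T) (h T) t)) (Set.Icc 0 T) := by
    have hfin : volume (Set.Icc (0:ℝ) T) < ⊤ := by
      rw [Real.volume_Icc]
      exact ENNReal.ofReal_lt_top
    exact Measure.integrableOn_of_bounded (M := ‖f‖) hfin.ne
      (f.continuous.measurable.comp (Th_meas g4 (h T))).aestronglyMeasurable (Eventually.of_forall fun t => f.norm_coe_le_norm _)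
  have e1 := setIntegral_sdiff (f := fun t => f (Th (d T) (h T) t)) (μ := volume) (Gs_meas 1 (h T) g4 T) hint hsub
  rw [e1]
  push_cast
  field_simp
  ring

end

end Pool.Agent.Run7.h290.SH
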