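import Pool.Agent.Run7.h290.SH.D

set_option autoImplicit false

/-! Linear combinations of shifts: the whole interval, orders at most four. -/

namespace Pool.Agent.Run7.h290.SH

open Finset Filter MeasureTheory Topology Complex
open Pool.Agent.N748.MG Pool.Agent.N748.MJ Pool.Agent.N748.MJ.SM

section

variable {m : ℕ} {d : ℝ → ℝ} {h : ℝ → Fin m → ℝ} (hd : Ad d)

include hd

theorem full_of_trunc {B : ℝ} (hB0 : 0 ≤ B) (hB : ∀ᶠ T : ℝ in atTop, ∀ j, |h T j| ≤ B) {k V : ℝ} (hk : 0 < k) (hk2 : k ≤ 2)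
    (hV : k < V) {C : ℝ} (hC : 0 ≤ C) {g : ℝ → ℝ → ℝ} (hg : ∀ᶠ T : ℝ in atTop, Continuous (g T))
    (hgb : ∀ᶠ T : ℝ in atTop, ∀ t, |g T t| ≤ C * ∑ j, mz (d T) (t + h T j) ^ (2 * k)) {L : ℝ}
    (hL : Tendsto (fun T => (2 * d T) ^ (k ^ 2) * ((1 / T) * ∫ t in Gs V (h T) (d T) T, g T t)) atTop (𝓝 L)) :
    Tendsto (fun T => (2 * d T) ^ (k ^ 2) * ((1 / T) * ∫ t in Set.Icc 0 T, g T t)) atTop (𝓝 L) := by
  have h1 : Tendsto (fun T => C * ∑ i, ((2 * d T) ^ (k ^ 2) * ((1 / T) *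
      ∫ t in Set.Icc 0 T \ Gs V (h T) (d T) T, mz (d T) (t + h T i) ^ (2 * k)))) atTop (𝓝 (C * ∑ _i : Fin m, (0:ℝ))) :=
    Tendsto.const_mul _ (tendsto_finsetSum _ fun i _ => bad_zero hd hB0 hB hk hk2 hV i)
  rw [sum_const_zero, mul_zero] at h1
  have h2 : Tendsto (fun T => (2 * d T) ^ (k ^ 2) * ((1 / T) * ∫ t in Set.Icc 0 T \ Gs V (h T) (d T) T, g T t)) atTop (𝓝 0) := by
    refine squeeze_zero_norm' ?_ h1
    filter_upwards [hg, hgb, hd.pos, eventually_gt_atTop 0, hd.t0.eventually_le_const (show (0:ℝ) < 1 / 16 by norm_num)]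
      with T g1 g2 g3 hT g4
    have hsub : Set.Icc 0 T \ Gs V (h T) (d T) T ⊆ Set.Icc 0 T := Set.sdiff_subset
    have hmc : ∀ (j : Fin m), Continuous fun t => mz (d T) (t + h T j) ^ (2 * k) := fun j =>
      ((TMA.cont g4).comp (by fun_prop : Continuous fun t : ℝ => t + h T j)).rpow_const fun _ => Or.inr (by linarith)
    have hint : ∀ {f : ℝ → ℝ}, Continuous f → IntegrableOn f (Set.Icc 0 T \ Gs V (h T) (d T) T) := fun hf =>
      (hf.integrableOn_Icc).mono_set hsub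
    rw [norm_mul, norm_mul, Real.norm_of_nonneg (by positivity : 0 ≤ (2 * d T) ^ (k ^ 2)),
      Real.norm_of_nonneg (by positivity : 0 ≤ 1 / T)]
    have i1 : ‖∫ t in Set.Icc 0 T \ Gs V (h T) (d T) T, g T t‖ ≤
        C * ∑ i, ∫ t in Set.Icc 0 T \ Gs V (h T) (d T) T, mz (d T) (t + h T i) ^ (2 * k) := by
      rw [← integral_finsetSum _ fun i _ => hint (hmc i), ← integral_const_mul]
      exact norm_integral_le_of_norm_le ((integrable_finsetSum _ fun i _ => hint (hmc i)).const_mul _)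
        (Eventually.of_forall fun t => g2 t)
    calc (2 * d T) ^ (k ^ 2) * (1 / T * ‖∫ t in Set.Icc 0 T \ Gs V (h T) (d T) T, g T t‖) ≤
        (2 * d T) ^ (k ^ 2) * (1 / T * (C * ∑ i, ∫ t in Set.Icc 0 T \ Gs V (h T) (d T) T, mz (d T) (t + h T i) ^ (2 * k))) := by
          gcongr
      _ = _ := by
          simp only [mul_sum]
          refine sum_congr rfl fun i _ => ?_
          ring
  have h3 := hL.add h2
  rw [add_zero] at h3
  refine h3.congr' ?_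
  filter_upwards [hg, hd.t0.eventually_le_const (show (0:ℝ) < 1 / 16 by norm_num)] with T g1 g4
  have hsub : Gs V (h T) (d T) T ⊆ Set.Icc 0 T := fun t ht => ht.1
  have e1 := setIntegral_sdiff (f := g T) (μ := volume) (Gs_meas V (h T) g4 T) g1.integrableOn_Icc hsub
  rw [e1]
  ring

theorem lin_full (hs : ∀ i l : Fin m, i ≠ l → Tendsto (fun T => d T * Zo (d T) (h T i - h T l)) atTop (𝓝 0))
    {B : ℝ} (hB0 : 0 ≤ B) (hB : ∀ᶠ T : ℝ in atTop, ∀ j, |h T j| ≤ B) (c : Fin m → ℂ) {k : ℝ} (hk : 0 < k) (hk2 : k ≤ 2) :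
    Tendsto (fun T => (2 * d T) ^ (k ^ 2) * ((1 / T) * ∫ t in Set.Icc 0 T, |dif c (2 * k) (d T) (h T) t|)) atTop (𝓝 0) ∧
    Tendsto (fun T => (2 * d T) ^ (k ^ 2) * ((1 / T) * ∫ t in Set.Icc 0 T, ‖∑ j, c j * zj (d T) t (h T j)‖ ^ (2 * k)))
      atTop (𝓝 ((aC k).re * ∑ j, ‖c j‖ ^ (2 * k))) := by
  have hh : ∀ᶠ T : ℝ in atTop, ∀ j, |h T j| ≤ T ^ ((1:ℝ) / 2) := by
    have h1 : ∀ᶠ T : ℝ in atTop, B ≤ T ^ ((1:ℝ) / 2) := (tendsto_rpow_atTop (by norm_num)).eventually_ge_atTop B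
    filter_upwards [hB, h1] with T g1 g2 j
    exact (g1 j).trans g2
  have hV : k < k + 1 := by linarith
  have h1 := close jmF posF LZB.main hd hh hs c hk hV
  have h2 := lin_trunc jmF posF LZB.main hd hh hs c hk hV
  have hbig : ∀ (δ t : ℝ) (H : Fin m → ℝ), ‖∑ j, c j * zj δ t (H j)‖ ^ (2 * k) ≤
      ((m:ℝ) * (1 + ∑ j, ‖c j‖)) ^ (2 * k) * ∑ j, mz δ (t + H j) ^ (2 * k) := fun δ t H =>
    sum_rpow_le c (fun j => zj δ t (H j)) (p := 2 * k) (by linarith)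
  have hS : 0 ≤ ∑ j, ‖c j‖ := sum_nonneg fun _ _ => norm_nonneg _
  have hC1 : 0 ≤ ((m:ℝ) * (1 + ∑ j, ‖c j‖)) ^ (2 * k) := by positivity
  have hC2 : 0 ≤ ∑ j, ‖c j‖ ^ (2 * k) := sum_nonneg fun _ _ => by positivity
  have hmz : ∀ (δ t : ℝ), 0 ≤ mz δ t ^ (2 * k) := fun δ t => Real.rpow_nonneg (norm_nonneg _) _
  have hg4 : ∀ᶠ T : ℝ in atTop, d T ≤ 1 / 16 := hd.t0.eventually_le_const (by norm_num)
  constructor
  · refine full_of_trunc hd hB0 hB hk hk2 hV (add_nonneg hC1 hC2) ?_ ?_ h1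
    · filter_upwards [hg4] with T g4
      exact (dif_cont g4 c (h T) (by linarith)).abs
    · refine Eventually.of_forall fun T t => ?_
      rw [abs_abs]
      unfold dif
      refine (abs_sub _ _).trans ?_
      rw [abs_of_nonneg (by positivity), abs_of_nonneg (sum_nonneg fun j _ => by positivity), add_mul]
      refine add_le_add (hbig _ _ _) ?_
      rw [sum_mul]
      refine sum_le_sum fun j _ => ?_
      refine mul_le_mul_of_nonneg_left ?_ (by positivity)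
      exact single_le_sum (f := fun j => mz (d T) (t + h T j) ^ (2 * k)) (fun _ _ => hmz _ _) (mem_univ j)
  · refine full_of_trunc hd hB0 hB hk hk2 hV hC1 ?_ ?_ h2
    · filter_upwards [hg4] with T g4
      exact sumz_cont g4 c (h T) (by linarith)
    · refine Eventually.of_forall fun T t => ?_
      rw [abs_of_nonneg (by positivity)]
      exact hbig _ _ _

end

end Pool.Agent.Run7.h290.SH
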