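import Pool.Agent.Run7.h290.SH.H
import Pool.Agent.Run7.h290.SH.C

set_option autoImplicit false

/-! Homogeneous functions of shifted values. -/

namespace Pool.Agent.Run7.h290.SH

open Finset Filter MeasureTheory Topology Complex
open Pool.Agent.N748.MG Pool.Agent.N748.MJ Pool.Agent.N748.MJ.SM

lemma tor_coord {m : ℕ} (j : Fin m) (g : C(UnitAddCircle, ℂ)) :
    ∫ x, g (x j) ∂(tor m) = ∫ y, g y ∂(AddCircle.haarAddCircle : Measure UnitAddCircle) := by
  have hmp : MeasurePreserving (fun x : UnitAddTorus (Fin m) => x j) (tor m) AddCircle.haarAddCircle :=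
    measurePreserving_eval (fun _ : Fin m => (AddCircle.haarAddCircle : Measure UnitAddCircle)) j
  rw [← hmp.map_eq, integral_map hmp.measurable.aemeasurable g.continuous.aestronglyMeasurable]

lemma haar_int (g : C(UnitAddCircle, ℂ)) :
    ∫ y, g y ∂(AddCircle.haarAddCircle : Measure UnitAddCircle) = ∫ θ in (0:ℝ)..1, g (θ : UnitAddCircle) := by
  have h1 := AddCircle.intervalIntegral_preimage (1:ℝ) 0 (fun y => g y)
  rw [zero_add] at h1
  rw [h1, AddCircle.volume_eq_smul_haarAddCircle]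
  simp

lemma Zlog {d : ℝ → ℝ} (hd : Ad d) : Tendsto (fun T => Real.log (Zo (d T) 0)) atTop atTop := by
  refine Real.tendsto_log_atTop.comp ?_
  have h1 := Z0_lim hd
  have h2 : Tendsto (fun T => 2 * d T) atTop (𝓝[>] 0) :=
    tendsto_nhdsWithin_iff.mpr ⟨by simpa using hd.t0.const_mul 2, hd.pos.mono fun T hT => by simpa using hT⟩
  have h3 : Tendsto (fun T => (2 * d T)⁻¹) atTop atTop := tendsto_inv_nhdsGT_zero.comp h2
  have h4 := h3.atTop_mul_pos one_pos h1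
  refine h4.congr' ?_
  filter_upwards [hd.pos] with T hT
  field_simp

section

variable {m : ℕ} {d : ℝ → ℝ} {h : ℝ → Fin m → ℝ} (hJ : S_JM) (hP : S_POSV) (hL : S_LZB)
  (hd : Ad d) (hh : ∀ᶠ T : ℝ in atTop, ∀ j, |h T j| ≤ T ^ ((1:ℝ) / 2))

include hJ hP hL hd hh

theorem phase_coord {κ V : ℝ} (hκ : 0 ≤ κ) (hV : κ < V) (j : Fin m) (g : C(UnitAddCircle, ℂ)) :
    Tendsto (fun T => (((2 * d T) ^ (κ ^ 2) * (1 / T) : ℝ) : ℂ) *
      ∫ t in Gs V (h T) (d T) T, ((mz (d T) (t + h T j) ^ (2 * κ) : ℝ) : ℂ) * g (Th (d T) (h T) t j)) atTop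
      (𝓝 (((aC κ).re : ℂ) * ∫ θ in (0:ℝ)..1, g (θ : UnitAddCircle))) := by
  have hsum : ∑ i, kv j κ i = κ := by simp [kv]
  have hk0 : ∀ i, 0 ≤ kv j κ i := by intro i; unfold kv; split_ifs <;> linarith
  have hkκ : ∀ i, kv j κ i ≤ κ := by intro i; unfold kv; split_ifs <;> linarith
  have h1 := phases_gen hJ hP hL hd hh hk0 (V := V) (by rw [hsum]; exact hV) (g.comp (ev j)) fun c ε0 hc hcl h1 h2 =>
    Pr_coord hk0 hd hP hL hkκ hc hcl h1 h2 (Zlog hd) j g
  have h2 := lim_one hJ hP hL hd hh hκ hV j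
  have h3 : Tendsto (fun T => (((2 * d T) ^ (κ ^ 2) * ((1 / T) * ∫ t in Gs V (h T) (d T) T,
      mz (d T) (t + h T j) ^ (2 * κ)) : ℝ) : ℂ)) atTop (𝓝 ((aC κ).re : ℂ)) := (Complex.continuous_ofReal.tendsto _).comp h2
  have h4 := h3.mul h1.2
  have e1 : ∫ x, (g.comp (ev j)) x ∂(tor m) = ∫ θ in (0:ℝ)..1, g (θ : UnitAddCircle) := by
    rw [← haar_int, ← tor_coord j g]
    rfl
  rw [e1] at h4
  refine h4.congr' ?_
  filter_upwards [h1.1] with T hT
  simp_rw [G_one] at hT ⊢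
  have hne : (((∫ t in Gs V (h T) (d T) T, mz (d T) (t + h T j) ^ (2 * κ) : ℝ)) : ℂ) ≠ 0 := by exact_mod_cast hT.ne'
  have e2 : ∀ t, (g.comp (ev j)) (Th (d T) (h T) t) = g (Th (d T) (h T) t j) := fun t => rfl
  simp_rw [e2]
  push_cast
  field_simp

end

end Pool.Agent.Run7.h290.SH
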