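import Mathlib

set_option autoImplicit false

/-! Continuous homogeneous functions on `ℂ^m`. -/

namespace Pool.Agent.Run7.h290.SH

open Finset Filter Topology Complex

/-- homogeneous of degree `p` -/
def Hom {m : ℕ} (p : ℝ) (Φ : (Fin m → ℂ) → ℝ) : Prop := ∀ r : ℝ, 0 < r → ∀ z : Fin m → ℂ, Φ (fun j => (r : ℂ) * z j) = r ^ p * Φ z

/-- the product terms -/
noncomputable def Pt {m : ℕ} (k : ℝ) (z : Fin m → ℂ) : ℝ := ∑ j, ∑ l ∈ univ.erase j, ‖z j‖ ^ k * ‖z l‖ ^ k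

section

variable {m : ℕ} {k : ℝ} (hk : 0 < k) {Φ : (Fin m → ℂ) → ℝ}

include hk

lemma Hom.zero (hH : Hom (2 * k) Φ) : Φ 0 = 0 := by
  have h1 := hH 2 (by norm_num) 0
  have e1 : (fun j : Fin m => ((2:ℝ) : ℂ) * (0 : Fin m → ℂ) j) = 0 := by
    ext j
    simp
  rw [e1] at h1
  have h2 : (1:ℝ) < 2 ^ (2 * k) := Real.one_lt_rpow (by norm_num) (by linarith)
  have h3 : ((2:ℝ) ^ (2 * k) - 1) * Φ 0 = 0 := by linarith
  rcases mul_eq_zero.mp h3 with h4 | h4
  · linarith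
  · exact h4

lemma norm_pow_le (z : Fin m → ℂ) : ‖z‖ ^ (2 * k) ≤ ∑ j, ‖z j‖ ^ (2 * k) := by
  have h0 : 0 ≤ ∑ j, ‖z j‖ ^ (2 * k) := sum_nonneg fun j _ => by positivity
  have hp : 0 < 2 * k := by linarith
  have h1 : ‖z‖ ≤ (∑ j, ‖z j‖ ^ (2 * k)) ^ (1 / (2 * k)) := by
    rw [pi_norm_le_iff_of_nonneg (by positivity)]
    intro j
    have h2 : ‖z j‖ ^ (2 * k) ≤ ∑ j, ‖z j‖ ^ (2 * k) :=
      single_le_sum (f := fun j => ‖z j‖ ^ (2 * k)) (fun _ _ => by positivity) (mem_univ j)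
    calc ‖z j‖ = (‖z j‖ ^ (2 * k)) ^ (1 / (2 * k)) := by
          rw [← Real.rpow_mul (norm_nonneg _), mul_one_div_cancel hp.ne', Real.rpow_one]
      _ ≤ _ := Real.rpow_le_rpow (by positivity) h2 (by positivity)
  calc ‖z‖ ^ (2 * k) ≤ ((∑ j, ‖z j‖ ^ (2 * k)) ^ (1 / (2 * k))) ^ (2 * k) := Real.rpow_le_rpow (norm_nonneg _) h1 hp.le
    _ = ∑ j, ‖z j‖ ^ (2 * k) := by
        rw [← Real.rpow_mul h0, one_div_mul_cancel hp.ne', Real.rpow_one]

omit hk in
/-- scaling to the unit sphere -/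
lemma scale {z : Fin m → ℂ} (hz : z ≠ 0) : ∃ u : Fin m → ℂ, ‖u‖ = 1 ∧ z = fun j => ((‖z‖ : ℝ) : ℂ) * u j := by
  have h0 : ‖z‖ ≠ 0 := norm_ne_zero_iff.mpr hz
  refine ⟨((‖z‖⁻¹ : ℝ)) • z, ?_, ?_⟩
  · rw [norm_smul, norm_inv, norm_norm, inv_mul_cancel₀ h0]
  · ext j
    rw [Pi.smul_apply, Complex.real_smul, ← mul_assoc, ← Complex.ofReal_mul, mul_inv_cancel₀ h0, Complex.ofReal_one, one_mul]

lemma Hom.bound (hc : Continuous Φ) (hH : Hom (2 * k) Φ) : ∃ C : ℝ, 0 ≤ C ∧ ∀ z, |Φ z| ≤ C * ∑ j, ‖z j‖ ^ (2 * k) := by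
  obtain ⟨M, hM⟩ := (isCompact_sphere (0 : Fin m → ℂ) 1).exists_bound_of_continuousOn hc.continuousOn
  refine ⟨|M|, abs_nonneg _, fun z => ?_⟩
  have hs : 0 ≤ ∑ j, ‖z j‖ ^ (2 * k) := sum_nonneg fun j _ => by positivity
  by_cases hz : z = 0
  · rw [hz, hH.zero hk, abs_zero, ← hz]
    positivity
  · obtain ⟨u, hu, hzu⟩ := scale hz
    have h1 := hM u (by simpa using hu)
    rw [Real.norm_eq_abs] at h1
    have h2 : Φ z = ‖z‖ ^ (2 * k) * Φ u := by
      conv_lhs => rw [hzu]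
      exact hH ‖z‖ (norm_pos_iff.mpr hz) u
    rw [h2, abs_mul, abs_of_nonneg (by positivity), mul_comm]
    exact mul_le_mul (h1.trans (le_abs_self _)) (norm_pow_le hk z) (by positivity) (abs_nonneg _)

/-- the part away from the axes -/
noncomputable def off (Φ : (Fin m → ℂ) → ℝ) (z : Fin m → ℂ) : ℝ := Φ z - ∑ j, Φ (Pi.single j (z j))

omit hk in
lemma off_cont (hc : Continuous Φ) : Continuous (off Φ) := by
  unfold off
  refine hc.sub (continuous_finsetSum _ fun j _ => hc.comp ((continuous_single j).comp (continuous_apply j)))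

omit hk in
lemma off_hom (hH : Hom (2 * k) Φ) : Hom (2 * k) (off Φ) := by
  intro r hr z
  unfold off
  rw [hH r hr z, mul_sub, mul_sum]
  congr 1
  refine sum_congr rfl fun j _ => ?_
  rw [← hH r hr]
  congr 1
  ext i
  by_cases hi : i = j
  · subst hi
    simp
  · simp [Pi.single_eq_of_ne hi]

lemma Pt_cont : Continuous (Pt (m := m) k) := by
  unfold Pt
  have h1 : ∀ j : Fin m, Continuous fun z : Fin m → ℂ => ‖z j‖ ^ k := fun j =>
    (continuous_apply j).norm.rpow_const fun _ => Or.inr hk.le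
  exact continuous_finsetSum _ fun j _ => continuous_finsetSum _ fun l _ => (h1 j).mul (h1 l)

omit hk in
lemma Pt_nn (z : Fin m → ℂ) : 0 ≤ Pt k z := sum_nonneg fun j _ => sum_nonneg fun l _ => by positivity

omit hk in
lemma Pt_hom : Hom (2 * k) (Pt (m := m) k) := by
  intro r hr z
  unfold Pt
  rw [mul_sum]
  refine sum_congr rfl fun j _ => ?_
  rw [mul_sum]
  refine sum_congr rfl fun l _ => ?_
  rw [norm_mul, norm_mul, Complex.norm_real, Real.norm_of_nonneg hr.le, Real.mul_rpow hr.le (norm_nonneg _),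
    Real.mul_rpow hr.le (norm_nonneg _)]
  have : r ^ (2 * k) = r ^ k * r ^ k := by
    rw [← Real.rpow_add hr]
    ring_nf
  rw [this]
  ring

lemma off_zero (hH : Hom (2 * k) Φ) {z : Fin m → ℂ} (hz : z ≠ 0) (hP : Pt k z = 0) : off Φ z = 0 := by
  obtain ⟨j, hj⟩ : ∃ j, z j ≠ 0 := by
    by_contra hcon
    push Not at hcon
    exact hz (funext hcon)
  have hl : ∀ l, l ≠ j → z l = 0 := by
    intro l hl
    by_contra hne
    have h1 : 0 < ‖z j‖ ^ k * ‖z l‖ ^ k :=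
      mul_pos (Real.rpow_pos_of_pos (norm_pos_iff.mpr hj) _) (Real.rpow_pos_of_pos (norm_pos_iff.mpr hne) _)
    have h2 : ‖z j‖ ^ k * ‖z l‖ ^ k ≤ ∑ l ∈ univ.erase j, ‖z j‖ ^ k * ‖z l‖ ^ k :=
      single_le_sum (f := fun l => ‖z j‖ ^ k * ‖z l‖ ^ k) (fun _ _ => by positivity) (mem_erase.mpr ⟨hl, mem_univ l⟩)
    have h3 : ∑ l ∈ univ.erase j, ‖z j‖ ^ k * ‖z l‖ ^ k ≤ Pt k z :=
      single_le_sum (f := fun j => ∑ l ∈ univ.erase j, ‖z j‖ ^ k * ‖z l‖ ^ k)
        (fun _ _ => sum_nonneg fun _ _ => by positivity) (mem_univ j)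
    linarith
  have hzs : z = Pi.single j (z j) := by
    ext i
    by_cases hi : i = j
    · subst hi
      simp
    · rw [hl i hi, Pi.single_eq_of_ne hi]
  unfold off
  rw [Finset.sum_eq_single j]
  · rw [← hzs, sub_self]
  · intro l _ hlj
    rw [hl l hlj, Pi.single_zero, hH.zero hk]
  · intro hc
    exact absurd (mem_univ j) hc

theorem Hom.split (hc : Continuous Φ) (hH : Hom (2 * k) Φ) {η : ℝ} (hη : 0 < η) :
    ∃ C : ℝ, 0 ≤ C ∧ ∀ z, |off Φ z| ≤ η * ∑ j, ‖z j‖ ^ (2 * k) + C * Pt k z := by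
  have hS := isCompact_sphere (0 : Fin m → ℂ) 1
  have hoc := off_cont hc
  have hoh := off_hom hH
  obtain ⟨M, hM⟩ := hS.exists_bound_of_continuousOn hoc.continuousOn
  have hK : IsCompact (Metric.sphere (0 : Fin m → ℂ) 1 ∩ {z | η ≤ |off Φ z|}) :=
    hS.inter_right (isClosed_le continuous_const hoc.abs)
  obtain ⟨p0, hp0, hp⟩ : ∃ p0 : ℝ, 0 < p0 ∧ ∀ z ∈ Metric.sphere (0 : Fin m → ℂ) 1 ∩ {z | η ≤ |off Φ z|}, p0 ≤ Pt k z := by
    rcases (Metric.sphere (0 : Fin m → ℂ) 1 ∩ {z | η ≤ |off Φ z|}).eq_empty_or_nonempty with he | hne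
    · exact ⟨1, one_pos, fun z hz => by rw [he] at hz; exact absurd hz (Set.notMem_empty z)⟩
    · obtain ⟨z0, hz0, hmin⟩ := hK.exists_isMinOn hne (Pt_cont (m := m) hk).continuousOn
      refine ⟨Pt k z0, ?_, fun z hz => hmin hz⟩
      refine lt_of_le_of_ne (Pt_nn z0) fun hcon => ?_
      have hz1 : z0 ≠ 0 := by
        intro hcon
        have := hz0.1
        rw [hcon] at this
        simp at this
      have := off_zero hk hH hz1 hcon.symm
      have h3 : η ≤ |off Φ z0| := hz0.2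
      rw [this, abs_zero] at h3
      linarith
  refine ⟨|M| / p0, by positivity, fun z => ?_⟩
  have hs : 0 ≤ ∑ j, ‖z j‖ ^ (2 * k) := sum_nonneg fun j _ => by positivity
  by_cases hz : z = 0
  · have : off Φ z = 0 := by
      rw [hz]
      exact hoh.zero hk
    rw [this, abs_zero]
    have := Pt_nn (k := k) z
    positivity
  · obtain ⟨u, hu, hzu⟩ := scale hz
    have hzp := norm_pos_iff.mpr hz
    have h2 : off Φ z = ‖z‖ ^ (2 * k) * off Φ u := by
      conv_lhs => rw [hzu]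
      exact hoh ‖z‖ hzp u
    have h3 : Pt k z = ‖z‖ ^ (2 * k) * Pt k u := by
      conv_lhs => rw [hzu]
      exact Pt_hom ‖z‖ hzp u
    have hus : u ∈ Metric.sphere (0 : Fin m → ℂ) 1 := by simpa using hu
    have h4 : |off Φ u| ≤ η + |M| / p0 * Pt k u := by
      by_cases hcase : η ≤ |off Φ u|
      · have h5 := hp u ⟨hus, hcase⟩
        have h6 := hM u hus
        rw [Real.norm_eq_abs] at h6
        have h7 : |M| ≤ |M| / p0 * Pt k u := by
          rw [div_mul_eq_mul_div, le_div_iff₀ hp0]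
          exact mul_le_mul_of_nonneg_left h5 (abs_nonneg _)
        linarith [le_abs_self M]
      · push Not at hcase
        have := Pt_nn (k := k) u
        have : 0 ≤ |M| / p0 * Pt k u := by positivity
        linarith
    rw [h2, h3, abs_mul, abs_of_nonneg (by positivity : 0 ≤ ‖z‖ ^ (2 * k))]
    have h5 := norm_pow_le hk z
    have h6 : ‖z‖ ^ (2 * k) * |off Φ u| ≤ ‖z‖ ^ (2 * k) * (η + |M| / p0 * Pt k u) := mul_le_mul_of_nonneg_left h4 (by positivity)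
    have h7 : ‖z‖ ^ (2 * k) * η ≤ (∑ j, ‖z j‖ ^ (2 * k)) * η := mul_le_mul_of_nonneg_right h5 hη.le
    linarith

end

end Pool.Agent.Run7.h290.SH
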