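import Pool.Agent.Run7.h290.SH.J
import Pool.Agent.Run7.h290.SH.K

set_option autoImplicit false

/-! Homogeneous functions of shifted values: the truncated theorem. -/

namespace Pool.Agent.Run7.h290.SH

open Finset Filter MeasureTheory Topology Complex
open Pool.Agent.N748.MG Pool.Agent.N748.MJ Pool.Agent.N748.MJ.SM

/-- the vector of the shifted values -/
noncomputable def vec {m : ℕ} (δ : ℝ) (H : Fin m → ℝ) (t : ℝ) : Fin m → ℂ := fun j => zj δ t (H j)

lemma vec_cont {m : ℕ} {δ : ℝ} (h0 : δ ≤ 1 / 16) (H : Fin m → ℝ) : Continuous fun t => vec δ H t :=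
  continuous_pi fun j => zj_cont h0 (H j)

/-- the function on the circle belonging to an axis -/
noncomputable def ax {m : ℕ} {Φ : (Fin m → ℂ) → ℝ} (hc : Continuous Φ) (j : Fin m) : C(UnitAddCircle, ℂ) :=
  ⟨fun x => ((Φ (Pi.single j (fourier 1 x : ℂ)) : ℝ) : ℂ), Complex.continuous_ofReal.comp (hc.comp
    ((continuous_single j).comp (fourier 1).continuous))⟩

/-- the mean over an axis -/
noncomputable def axm {m : ℕ} (Φ : (Fin m → ℂ) → ℝ) (j : Fin m) : ℝ :=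
  ∫ θ in (0:ℝ)..1, Φ (Pi.single j (Complex.exp (2 * Real.pi * I * θ)))

lemma ax_int {m : ℕ} {Φ : (Fin m → ℂ) → ℝ} (hc : Continuous Φ) (j : Fin m) :
    ∫ θ in (0:ℝ)..1, ax hc j (θ : UnitAddCircle) = (axm Φ j : ℂ) := by
  unfold axm
  rw [← intervalIntegral.integral_ofReal]
  refine intervalIntegral.integral_congr fun θ _ => ?_
  change ((Φ (Pi.single j (fourier 1 (θ : UnitAddCircle) : ℂ)) : ℝ) : ℂ) = _
  rw [fourier_coe_apply]
  have : (2 * (Real.pi : ℂ) * I * ((1:ℤ) : ℂ) * (θ : ℂ) / ((1:ℝ) : ℂ)) = 2 * Real.pi * I * θ := by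
    push_cast
    ring
  rw [this]

lemma ax_point {m : ℕ} {Φ : (Fin m → ℂ) → ℝ} (hc : Continuous Φ) {k : ℝ} (hk : 0 < k) (hH : Hom (2 * k) Φ) (j : Fin m)
    (δ t : ℝ) (H : Fin m → ℝ) :
    ((mz δ (t + H j) ^ (2 * k) : ℝ) : ℂ) * ax hc j (Th δ H t j) = ((Φ (Pi.single j (vec δ H t j)) : ℝ) : ℂ) := by
  have e0 : mz δ (t + H j) = ‖zj δ t (H j)‖ := rfl
  rw [e0]
  unfold vec
  by_cases hz : zj δ t (H j) = 0
  · rw [hz, norm_zero, Real.zero_rpow (by linarith), Pi.single_zero, hH.zero hk]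
    simp
  · have hzp : 0 < ‖zj δ t (H j)‖ := norm_pos_iff.mpr hz
    have hzc : ((‖zj δ t (H j)‖ : ℝ) : ℂ) ≠ 0 := by exact_mod_cast hzp.ne'
    have e1 : ax hc j (Th δ H t j) = ((Φ (Pi.single j (zj δ t (H j) / (‖zj δ t (H j)‖ : ℝ))) : ℝ) : ℂ) := by
      change ((Φ (Pi.single j (fourier 1 (Th δ H t j) : ℂ)) : ℝ) : ℂ) = _
      unfold Th
      rw [fourier_arg 1 _ hz, zpow_one]
    rw [e1, ← Complex.ofReal_mul, ← hH _ hzp]
    congr 2
    ext i
    by_cases hi : i = j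
    · subst hi
      simp only [Pi.single_eq_same]
      field_simp
    · simp [Pi.single_eq_of_ne hi]

section

variable {m : ℕ} {d : ℝ → ℝ} {h : ℝ → Fin m → ℝ} (hJ : S_JM) (hP : S_POSV) (hL : S_LZB)
  (hd : Ad d) (hh : ∀ᶠ T : ℝ in atTop, ∀ j, |h T j| ≤ T ^ ((1:ℝ) / 2))

include hJ hP hL hd hh

theorem axis_trunc {Φ : (Fin m → ℂ) → ℝ} (hc : Continuous Φ) {k V : ℝ} (hk : 0 < k) (hV : k < V) (hH : Hom (2 * k) Φ) (j : Fin m) :
    Tendsto (fun T => (2 * d T) ^ (k ^ 2) * ((1 / T) * ∫ t in Gs V (h T) (d T) T, Φ (Pi.single j (vec (d T) (h T) t j)))) atTop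
      (𝓝 ((aC k).re * axm Φ j)) := by
  have h1 := phase_coord hJ hP hL hd hh hk.le hV j (ax hc j)
  rw [ax_int hc j, ← Complex.ofReal_mul] at h1
  have h2 := (Complex.continuous_re.tendsto _).comp h1
  rw [Complex.ofReal_re] at h2
  refine h2.congr fun T => ?_
  simp only [Function.comp_def]
  simp_rw [ax_point hc hk hH j]
  rw [integral_complex_ofReal, ← Complex.ofReal_mul, Complex.ofReal_re]
  ring

theorem off_trunc (hs : ∀ i l : Fin m, i ≠ l → Tendsto (fun T => d T * Zo (d T) (h T i - h T l)) atTop (𝓝 0))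
    {Φ : (Fin m → ℂ) → ℝ} (hc : Continuous Φ) {k V : ℝ} (hk : 0 < k) (hV : k < V) (hH : Hom (2 * k) Φ) :
    Tendsto (fun T => (2 * d T) ^ (k ^ 2) * ((1 / T) * ∫ t in Gs V (h T) (d T) T, off Φ (vec (d T) (h T) t))) atTop (𝓝 0) := by
  have hA : Tendsto (fun T => ∑ j, ((2 * d T) ^ (k ^ 2) * ((1 / T) * ∫ t in Gs V (h T) (d T) T,
      mz (d T) (t + h T j) ^ (2 * k)))) atTop (𝓝 (∑ _j : Fin m, (aC k).re)) :=
    tendsto_finsetSum _ fun j _ => lim_one hJ hP hL hd hh hk.le hV j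
  obtain ⟨A, hAd⟩ : ∃ A, A = ∑ _j : Fin m, (aC k).re := ⟨_, rfl⟩
  rw [← hAd] at hA
  have hA1 : ∀ᶠ T in atTop, ∑ j, ((2 * d T) ^ (k ^ 2) * ((1 / T) * ∫ t in Gs V (h T) (d T) T,
      mz (d T) (t + h T j) ^ (2 * k))) ≤ |A| + 1 :=
    hA.eventually_le_const (lt_of_le_of_lt (le_abs_self A) (lt_add_one _))
  have hB : Tendsto (fun T => ∑ j, ∑ l ∈ univ.erase j, ((2 * d T) ^ ((k / 2 + k / 2) ^ 2) * ((1 / T) * ∫ t in Gs V (h T) (d T) T,
      mz (d T) (t + h T j) ^ (2 * (k / 2)) * mz (d T) (t + h T l) ^ (2 * (k / 2))))) atTop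
      (𝓝 (∑ j : Fin m, ∑ l ∈ univ.erase j, (0:ℝ))) := by
    refine tendsto_finsetSum _ fun j _ => tendsto_finsetSum _ fun l hl => ?_
    have hjl : j ≠ l := (ne_of_mem_erase hl).symm
    exact lim_two hJ hP hL hd hh (by linarith) (by linarith) (by linarith) hjl (hs j l hjl) (hs l j hjl.symm)
  simp only [sum_const_zero] at hB
  rw [Metric.tendsto_nhds]
  intro ε hε
  obtain ⟨C, hC0, hC⟩ := Hom.split hk hc hH (η := ε / (4 * (|A| + 1))) (by positivity)
  have hB1 : ∀ᶠ T in atTop, ∑ j, ∑ l ∈ univ.erase j, ((2 * d T) ^ ((k / 2 + k / 2) ^ 2) * ((1 / T) * ∫ t in Gs V (h T) (d T) T,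
      mz (d T) (t + h T j) ^ (2 * (k / 2)) * mz (d T) (t + h T l) ^ (2 * (k / 2)))) ≤ ε / (4 * (C + 1)) :=
    hB.eventually_le_const (by positivity)
  filter_upwards [hA1, hB1, hd.pos, eventually_gt_atTop 0, (Ev.of_le (d := 1 / 16) (by norm_num)).app hd] with T hA1 hB1 g5 hT g4
  have hsub : Gs V (h T) (d T) T ⊆ Set.Icc 0 T := fun t ht => ht.1
  have hint : ∀ {f : ℝ → ℝ}, Continuous f → IntegrableOn f (Gs V (h T) (d T) T) := fun hf =>
    (hf.integrableOn_Icc).mono_set hsub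
  have hmc : ∀ (j : Fin m) {q : ℝ}, 0 ≤ q → Continuous fun t => mz (d T) (t + h T j) ^ q := fun j q hq =>
    ((TMA.cont g4).comp (by fun_prop : Continuous fun t : ℝ => t + h T j)).rpow_const fun _ => Or.inr hq
  have hpc : ∀ j l : Fin m, Continuous fun t => mz (d T) (t + h T j) ^ (2 * (k / 2)) * mz (d T) (t + h T l) ^ (2 * (k / 2)) :=
    fun j l => (hmc j (by linarith)).mul (hmc l (by linarith))
  rw [dist_eq_norm, sub_zero, norm_mul, norm_mul, Real.norm_of_nonneg (by positivity : 0 ≤ (2 * d T) ^ (k ^ 2)),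
    Real.norm_of_nonneg (by positivity : 0 ≤ 1 / T)]
  have e1 : k / 2 + k / 2 = k := by ring
  rw [e1] at hB1
  have i1 : ‖∫ t in Gs V (h T) (d T) T, off Φ (vec (d T) (h T) t)‖ ≤
      ε / (4 * (|A| + 1)) * (∑ j, ∫ t in Gs V (h T) (d T) T, mz (d T) (t + h T j) ^ (2 * k)) +
      C * ∑ j, ∑ l ∈ univ.erase j, ∫ t in Gs V (h T) (d T) T,
        mz (d T) (t + h T j) ^ (2 * (k / 2)) * mz (d T) (t + h T l) ^ (2 * (k / 2)) := by
    have i2 : ∑ j, ∑ l ∈ univ.erase j, ∫ t in Gs V (h T) (d T) T,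
        mz (d T) (t + h T j) ^ (2 * (k / 2)) * mz (d T) (t + h T l) ^ (2 * (k / 2)) =
        ∫ t in Gs V (h T) (d T) T, Pt k (vec (d T) (h T) t) := by
      have e2 : ∀ t, Pt k (vec (d T) (h T) t) = ∑ j, ∑ l ∈ univ.erase j,
          mz (d T) (t + h T j) ^ (2 * (k / 2)) * mz (d T) (t + h T l) ^ (2 * (k / 2)) := by
        intro t
        unfold Pt vec
        refine sum_congr rfl fun j _ => sum_congr rfl fun l _ => ?_
        rw [zj_norm, zj_norm]
        congr 2 <;> ring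
      simp_rw [e2]
      rw [integral_finsetSum _ fun j _ => hint (continuous_finsetSum _ fun l _ => hpc j l)]
      refine sum_congr rfl fun j _ => ?_
      rw [integral_finsetSum _ fun l _ => hint (hpc j l)]
    have k1 : IntegrableOn (fun t => ε / (4 * (|A| + 1)) * ∑ i, mz (d T) (t + h T i) ^ (2 * k)) (Gs V (h T) (d T) T) :=
      (hint (continuous_finsetSum _ fun j _ => hmc j (by linarith))).const_mul _
    have k2 : IntegrableOn (fun t => C * Pt k (vec (d T) (h T) t)) (Gs V (h T) (d T) T) :=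
      (hint ((Pt_cont hk).comp (vec_cont g4 (h T)))).const_mul _
    rw [i2, ← integral_finsetSum _ fun j _ => hint (hmc j (by linarith)), ← integral_const_mul, ← integral_const_mul,
      ← integral_add k1 k2]
    exact norm_integral_le_of_norm_le (k1.add k2) (Eventually.of_forall fun t => hC (vec (d T) (h T) t))
  have i3 : (2 * d T) ^ (k ^ 2) * (1 / T * ‖∫ t in Gs V (h T) (d T) T, off Φ (vec (d T) (h T) t)‖) ≤
      ε / (4 * (|A| + 1)) * (∑ j, ((2 * d T) ^ (k ^ 2) * ((1 / T) * ∫ t in Gs V (h T) (d T) T,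
        mz (d T) (t + h T j) ^ (2 * k)))) +
      C * ∑ j, ∑ l ∈ univ.erase j, ((2 * d T) ^ (k ^ 2) * ((1 / T) * ∫ t in Gs V (h T) (d T) T,
        mz (d T) (t + h T j) ^ (2 * (k / 2)) * mz (d T) (t + h T l) ^ (2 * (k / 2)))) := by
    calc (2 * d T) ^ (k ^ 2) * (1 / T * ‖∫ t in Gs V (h T) (d T) T, off Φ (vec (d T) (h T) t)‖) ≤
        (2 * d T) ^ (k ^ 2) * (1 / T * (ε / (4 * (|A| + 1)) * (∑ j, ∫ t in Gs V (h T) (d T) T, mz (d T) (t + h T j) ^ (2 * k)) +
      C * ∑ j, ∑ l ∈ univ.erase j, ∫ t in Gs V (h T) (d T) T,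
        mz (d T) (t + h T j) ^ (2 * (k / 2)) * mz (d T) (t + h T l) ^ (2 * (k / 2)))) := by gcongr
      _ = _ := by
          simp only [mul_add, mul_sum]
          congr 1
          · refine sum_congr rfl fun j _ => ?_
            ring
          · refine sum_congr rfl fun j _ => sum_congr rfl fun l _ => ?_
            ring
  refine lt_of_le_of_lt i3 ?_
  have hA0 : 0 < |A| + 1 := by positivity
  have j1 : ε / (4 * (|A| + 1)) * (∑ j, ((2 * d T) ^ (k ^ 2) * ((1 / T) * ∫ t in Gs V (h T) (d T) T,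
        mz (d T) (t + h T j) ^ (2 * k)))) ≤ ε / (4 * (|A| + 1)) * (|A| + 1) := mul_le_mul_of_nonneg_left hA1 (by positivity)
  have j2 : C * ∑ j, ∑ l ∈ univ.erase j, ((2 * d T) ^ (k ^ 2) * ((1 / T) * ∫ t in Gs V (h T) (d T) T,
        mz (d T) (t + h T j) ^ (2 * (k / 2)) * mz (d T) (t + h T l) ^ (2 * (k / 2)))) ≤ C * (ε / (4 * (C + 1))) :=
    mul_le_mul_of_nonneg_left hB1 hC0
  have j3 : ε / (4 * (|A| + 1)) * (|A| + 1) = ε / 4 := by field_simp
  have j4 : C * (ε / (4 * (C + 1))) ≤ ε / 4 := by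
    rw [mul_div_assoc', div_le_div_iff₀ (by positivity) (by norm_num)]
    nlinarith
  linarith

/-- the truncated theorem -/
theorem hom_trunc (hs : ∀ i l : Fin m, i ≠ l → Tendsto (fun T => d T * Zo (d T) (h T i - h T l)) atTop (𝓝 0))
    {Φ : (Fin m → ℂ) → ℝ} (hc : Continuous Φ) {k V : ℝ} (hk : 0 < k) (hV : k < V) (hH : Hom (2 * k) Φ) :
    Tendsto (fun T => (2 * d T) ^ (k ^ 2) * ((1 / T) * ∫ t in Gs V (h T) (d T) T, Φ (vec (d T) (h T) t))) atTop
      (𝓝 ((aC k).re * ∑ j, axm Φ j)) := by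
  have h1 := off_trunc hJ hP hL hd hh hs hc hk hV hH
  have h2 : Tendsto (fun T => ∑ j, ((2 * d T) ^ (k ^ 2) * ((1 / T) * ∫ t in Gs V (h T) (d T) T,
      Φ (Pi.single j (vec (d T) (h T) t j))))) atTop (𝓝 (∑ j, (aC k).re * axm Φ j)) :=
    tendsto_finsetSum _ fun j _ => axis_trunc hJ hP hL hd hh hc hk hV hH j
  have h3 := h1.add h2
  rw [zero_add, ← mul_sum] at h3
  refine h3.congr' ?_
  filter_upwards [(Ev.of_le (d := 1 / 16) (by norm_num)).app hd] with T g4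
  have hsub : Gs V (h T) (d T) T ⊆ Set.Icc 0 T := fun t ht => ht.1
  have hint : ∀ {f : ℝ → ℝ}, Continuous f → IntegrableOn f (Gs V (h T) (d T) T) := fun hf =>
    (hf.integrableOn_Icc).mono_set hsub
  have hvc := vec_cont g4 (h T)
  have i1 : IntegrableOn (fun t => Φ (vec (d T) (h T) t)) (Gs V (h T) (d T) T) := hint (hc.comp hvc)
  have i2 : ∀ j : Fin m, IntegrableOn (fun t => Φ (Pi.single j (vec (d T) (h T) t j))) (Gs V (h T) (d T) T) := fun j =>
    hint (hc.comp ((continuous_single j).comp ((continuous_apply j).comp hvc)))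
  have e1 : ∫ t in Gs V (h T) (d T) T, off Φ (vec (d T) (h T) t) = (∫ t in Gs V (h T) (d T) T, Φ (vec (d T) (h T) t)) -
      ∑ j, ∫ t in Gs V (h T) (d T) T, Φ (Pi.single j (vec (d T) (h T) t j)) := by
    rw [← integral_finsetSum _ fun j _ => i2 j, ← integral_sub i1 (integrable_finsetSum _ fun j _ => i2 j)]
    rfl
  rw [e1, ← mul_sum, ← mul_sum]
  ring

end

end Pool.Agent.Run7.h290.SH
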