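import Pool.Agent.Run7.h290.SH.L
import Pool.Agent.Run7.h290.SH.I

set_option autoImplicit false

/-! Homogeneous functions of shifted values: the whole interval. -/

namespace Pool.Agent.Run7.h290.SH

open Finset Filter MeasureTheory Topology Complex
open Pool.Agent.N748.MG Pool.Agent.N748.MJ Pool.Agent.N748.MJ.SM

theorem hom_full {m : ℕ} {d : ℝ → ℝ} {h : ℝ → Fin m → ℝ} (hd : Ad d)
    (hs : ∀ i l : Fin m, i ≠ l → Tendsto (fun T => d T * Zo (d T) (h T i - h T l)) atTop (𝓝 0))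
    {B : ℝ} (hB0 : 0 ≤ B) (hB : ∀ᶠ T : ℝ in atTop, ∀ j, |h T j| ≤ B)
    {Φ : (Fin m → ℂ) → ℝ} (hc : Continuous Φ) {k : ℝ} (hk : 0 < k) (hk2 : k ≤ 2) (hH : Hom (2 * k) Φ) :
    Tendsto (fun T => (2 * d T) ^ (k ^ 2) * ((1 / T) * ∫ t in Set.Icc 0 T, Φ (vec (d T) (h T) t))) atTop
      (𝓝 ((aC k).re * ∑ j, axm Φ j)) := by
  have hh : ∀ᶠ T : ℝ in atTop, ∀ j, |h T j| ≤ T ^ ((1:ℝ) / 2) := by
    have h1 : ∀ᶠ T : ℝ in atTop, B ≤ T ^ ((1:ℝ) / 2) := (tendsto_rpow_atTop (by norm_num)).eventually_ge_atTop B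
    filter_upwards [hB, h1] with T g1 g2 j
    exact (g1 j).trans g2
  have hV : k < k + 1 := by linarith
  have h1 := hom_trunc jmF posF LZB.main hd hh hs hc hk hV hH
  obtain ⟨C, hC, hCb⟩ := Hom.bound hk hc hH
  refine full_of_trunc (g := fun T t => Φ (vec (d T) (h T) t)) hd hB0 hB hk hk2 hV hC ?_ ?_ h1
  · filter_upwards [hd.t0.eventually_le_const (show (0:ℝ) < 1 / 16 by norm_num)] with T g4
    exact hc.comp (vec_cont g4 (h T))
  · exact Eventually.of_forall fun T t => hCb (vec (d T) (h T) t)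

end Pool.Agent.Run7.h290.SH
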