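import Pool.Agent.Run7.h290.SH.E
import Pool.Agent.N748.MJ.LZB

set_option autoImplicit false

/-! The quadratic form of the phases: positivity, and growth for bounded shifts which are far apart compared with `δ`. -/

namespace Pool.Agent.Run7.h290.SH

open Finset Filter MeasureTheory Topology Complex
open Pool.Agent.N748.MG Pool.Agent.N748.MJ Pool.Agent.N748.MJ.SM

lemma pos_form {m : ℕ} (c : Fin m → ℝ) (z : Fin m → ℂ) (hz : ∀ j, ‖z j‖ = 1) {x : ℝ} (h0 : 0 ≤ x) (h1 : x < 1) :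
    0 ≤ ∑ j, ∑ l, c j * c l * (-Complex.log (1 - (x : ℂ) * z j * (starRingEnd ℂ) (z l))).re := by
  have hs : HasSum (fun k : ℕ => ∑ j, ∑ l, c j * c l * (((x : ℂ) * z j * (starRingEnd ℂ) (z l)) ^ k / k : ℂ).re)
      (∑ j, ∑ l, c j * c l * (-Complex.log (1 - (x : ℂ) * z j * (starRingEnd ℂ) (z l))).re) := by
    refine hasSum_sum fun j _ => hasSum_sum fun l _ => ?_
    refine HasSum.mul_left _ ?_
    have h2 : ‖(x : ℂ) * z j * (starRingEnd ℂ) (z l)‖ < 1 := by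
      rw [norm_mul, norm_mul, RCLike.norm_conj, hz, hz, mul_one, mul_one, Complex.norm_real, Real.norm_of_nonneg h0]
      exact h1
    exact Complex.hasSum_re (Complex.hasSum_taylorSeries_neg_log h2)
  refine HasSum.nonneg (fun k => ?_) hs
  have e1 : (((x ^ k / k : ℝ) : ℂ) * ((∑ j, (c j : ℂ) * z j ^ k) * (starRingEnd ℂ) (∑ l, (c l : ℂ) * z l ^ k))) =
      ∑ j, ∑ l, ((c j * c l : ℝ) : ℂ) * (((x : ℂ) * z j * (starRingEnd ℂ) (z l)) ^ k / k) := by
    rw [map_sum, sum_mul_sum, mul_sum]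
    refine sum_congr rfl fun j _ => ?_
    rw [mul_sum]
    refine sum_congr rfl fun l _ => ?_
    rw [map_mul, map_pow, conj_ofReal]
    push_cast
    ring
  have e2 := congrArg Complex.re e1
  rw [mul_conj, ← ofReal_mul, ofReal_re, re_sum] at e2
  have e3 : ∑ j, ∑ l, c j * c l * (((x : ℂ) * z j * (starRingEnd ℂ) (z l)) ^ k / k : ℂ).re =
      x ^ k / k * Complex.normSq (∑ j, (c j : ℂ) * z j ^ k) := by
    rw [e2]
    refine sum_congr rfl fun j _ => ?_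
    rw [re_sum]
    refine sum_congr rfl fun l _ => ?_
    rw [re_ofReal_mul]
  rw [e3]
  have := Complex.normSq_nonneg (∑ j, (c j : ℂ) * z j ^ k)
  positivity

lemma LZ_re (hL : S_LZB) {δ : ℝ} (h0 : 0 < δ) (h1 : δ ≤ 1 / 16) (u : ℝ) : (LZ (1 + 2 * δ) u).re = Real.log (Zo δ u) := by
  rw [← exp_LZ hL h0 h1 u, Real.log_exp]

lemma LZ_hasSum {δ : ℝ} (h0 : 0 < δ) (u : ℝ) :
    HasSum (fun p : Nat.Primes => (-Complex.log (1 - ((p : ℕ) : ℂ) ^ (-(((1 + 2 * δ : ℝ) : ℂ) + u * I)))).re) (LZ (1 + 2 * δ) u).re := by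
  refine Complex.hasSum_re ?_
  refine Summable.hasSum ?_
  have hs : 1 < ((((1 + 2 * δ : ℝ) : ℂ) + u * I)).re := by
    simp
    exact h0
  have h2 : Summable fun p : Nat.Primes => ((p : ℕ) : ℂ) ^ (-(((1 + 2 * δ : ℝ) : ℂ) + u * I)) := by
    refine Summable.of_norm ?_
    have e1 : ∀ p : Nat.Primes, ‖((p : ℕ) : ℂ) ^ (-(((1 + 2 * δ : ℝ) : ℂ) + u * I))‖ = ((p : ℕ) : ℝ) ^ (-(1 + 2 * δ)) := by
      intro p
      rw [Complex.norm_natCast_cpow_of_pos p.2.pos]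
      congr 1
      simp
    simp_rw [e1]
    exact Nat.Primes.summable_rpow.mpr (by linarith)
  exact h2.clog_one_sub.neg

/-- positivity of the quadratic form -/
theorem Qf_nn (hL : S_LZB) {m : ℕ} (n : Fin m → ℤ) (H : Fin m → ℝ) {δ : ℝ} (h0 : 0 < δ) (h1 : δ ≤ 1 / 16) : 0 ≤ Qf n H δ := by
  unfold Qf
  simp_rw [← LZ_re hL h0 h1]
  have hs : HasSum (fun p : Nat.Primes => ∑ j, ∑ l, (n j : ℝ) * n l *
      (-Complex.log (1 - ((p : ℕ) : ℂ) ^ (-(((1 + 2 * δ : ℝ) : ℂ) + (H j - H l : ℝ) * I)))).re)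
      (∑ j, ∑ l, (n j : ℝ) * n l * (LZ (1 + 2 * δ) (H j - H l)).re) :=
    hasSum_sum fun j _ => hasSum_sum fun l _ => (LZ_hasSum h0 (H j - H l)).mul_left _
  refine HasSum.nonneg (fun p => ?_) hs
  have hp0 : ((p : ℕ) : ℂ) ≠ 0 := by exact_mod_cast p.2.ne_zero
  obtain ⟨z, hzd⟩ : ∃ z : Fin m → ℂ, ∀ j, z j = Complex.exp (((-(H j * Real.log (p : ℕ)) : ℝ) : ℂ) * I) := ⟨_, fun _ => rfl⟩
  have hz : ∀ j, ‖z j‖ = 1 := fun j => by rw [hzd, Complex.norm_exp_ofReal_mul_I]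
  have hx1 : ((p : ℕ) : ℝ) ^ (-(1 + 2 * δ)) < 1 :=
    Real.rpow_lt_one_of_one_lt_of_neg (by exact_mod_cast p.2.one_lt) (by linarith)
  have h3 := pos_form (fun j => (n j : ℝ)) z hz (x := ((p : ℕ) : ℝ) ^ (-(1 + 2 * δ))) (by positivity) hx1
  refine h3.trans (le_of_eq ?_)
  refine sum_congr rfl fun j _ => sum_congr rfl fun l _ => ?_
  congr 4
  rw [hzd, hzd, ← Complex.exp_conj, Complex.cpow_def_of_ne_zero hp0, Complex.ofReal_cpow (Nat.cast_nonneg _),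
    Complex.ofReal_natCast, Complex.cpow_def_of_ne_zero hp0, ← Complex.exp_add, ← Complex.exp_add]
  congr 1
  rw [map_mul, Complex.conj_ofReal, Complex.conj_I, ← Complex.natCast_log]
  push_cast
  ring

/-- the logarithm of `|ζ(1 + 2a + iu)|` -/
lemma Zo_log {B : ℝ} : ∃ C : ℝ, 0 ≤ C ∧ ∀ a u : ℝ, 0 < a → a ≤ 1 / 16 → |u| ≤ B →
    |Real.log (Zo a u) + Real.log ‖((2 * a : ℝ) : ℂ) + (u : ℂ) * I‖| ≤ C := by
  classical
  obtain ⟨F, hF⟩ : ∃ F : ℂ → ℂ, F = Function.update (fun s : ℂ => (s - 1) * riemannZeta s) 1 1 := ⟨_, rfl⟩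
  have hFc : Continuous F := by
    rw [continuous_iff_continuousAt]
    intro s
    by_cases hs : s = 1
    · subst hs
      rw [hF, continuousAt_update_same]
      exact riemannZeta_residue_one
    · rw [hF, continuousAt_update_of_ne hs]
      exact (continuousAt_id.sub continuousAt_const).mul (differentiableAt_riemannZeta hs).continuousAt
  have hF0 : ∀ s : ℂ, 1 ≤ s.re → F s ≠ 0 := by
    intro s hs
    by_cases h1 : s = 1
    · rw [h1, hF, Function.update_self]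
      exact one_ne_zero
    · rw [hF, Function.update_of_ne h1]
      exact mul_ne_zero (sub_ne_zero.mpr h1) (riemannZeta_ne_zero_of_one_le_re hs)
  have hK : IsCompact (Set.Icc (0:ℝ) (1 / 16) ×ˢ Set.Icc (-B) B) := isCompact_Icc.prod isCompact_Icc
  have hc : ContinuousOn (fun q : ℝ × ℝ => Real.log ‖F (((1 + 2 * q.1 : ℝ) : ℂ) + (q.2 : ℂ) * I)‖)
      (Set.Icc (0:ℝ) (1 / 16) ×ˢ Set.Icc (-B) B) := by
    refine ContinuousOn.log ?_ ?_
    · exact (hFc.comp (by fun_prop : Continuous fun q : ℝ × ℝ => ((1 + 2 * q.1 : ℝ) : ℂ) + (q.2 : ℂ) * I)).norm.continuousOn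
    · intro q hq
      rw [norm_ne_zero_iff]
      refine hF0 _ ?_
      have := hq.1.1
      simp
      exact this
  obtain ⟨M, hM⟩ := hK.exists_bound_of_continuousOn hc
  refine ⟨|M|, abs_nonneg _, fun a u ha ha1 hu => ?_⟩
  have h1 := hM (a, u) ⟨⟨ha.le, ha1⟩, abs_le.mp hu⟩
  simp only [Real.norm_eq_abs] at h1
  obtain ⟨s, hs⟩ : ∃ s : ℂ, s = ((1 + 2 * a : ℝ) : ℂ) + (u : ℂ) * I := ⟨_, rfl⟩
  have hsre : s.re = 1 + 2 * a := by rw [hs]; simp
  have hs1 : s ≠ 1 := by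
    intro h6
    rw [h6] at hsre
    simp at hsre
    linarith
  have h7 : F s = (s - 1) * riemannZeta s := by rw [hF, Function.update_of_ne hs1]
  have h8 : s - 1 = ((2 * a : ℝ) : ℂ) + (u : ℂ) * I := by rw [hs]; push_cast; ring
  have h9 : Real.log ‖F s‖ = Real.log ‖((2 * a : ℝ) : ℂ) + (u : ℂ) * I‖ + Real.log (Zo a u) := by
    rw [h7, norm_mul, h8, Real.log_mul]
    · unfold Zo
      rw [← hs]
    · rw [← h8]
      exact norm_ne_zero_iff.mpr (sub_ne_zero.mpr hs1)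
    · exact norm_ne_zero_iff.mpr (riemannZeta_ne_zero_of_one_le_re (by rw [hsre]; linarith))
  rw [← hs, h9] at h1
  rw [add_comm]
  exact h1.trans (le_abs_self M)

end Pool.Agent.Run7.h290.SH
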