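import Pool.Agent.Run7.h290.SH.N

set_option autoImplicit false

/-! Growth of the quadratic form of the phases. -/

namespace Pool.Agent.Run7.h290.SH

open Finset Filter MeasureTheory Topology Complex
open Pool.Agent.N748.MG Pool.Agent.N748.MJ Pool.Agent.N748.MJ.SM

lemma Qf_lower (hL : S_LZB) {B C : ℝ}
    (hC : ∀ a u : ℝ, 0 < a → a ≤ 1 / 16 → |u| ≤ B → |Real.log (Zo a u) + Real.log ‖((2 * a : ℝ) : ℂ) + (u : ℂ) * I‖| ≤ C)
    {m : ℕ} (n : Fin m → ℤ) (H : Fin m → ℝ) {a a' : ℝ} (ha : 0 < a) (haa : a ≤ a') (ha' : a' ≤ 1 / 16)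
    (hB : ∀ j l, |H j - H l| ≤ B) (hsep : ∀ j l, j ≠ l → a' ≤ |H j - H l|) :
    (∑ j, (n j : ℝ) ^ 2) * Real.log (a' / a) - (2 * C + 2) * ∑ j, ∑ l, |(n j : ℝ)| * |(n l : ℝ)| ≤ Qf n H a := by
  have ha'0 : 0 < a' := ha.trans_le haa
  have hpos := Qf_nn hL n H ha'0 ha'
  obtain ⟨e, he⟩ : ∃ e : Fin m → Fin m → ℝ, ∀ j l, e j l = Real.log (Zo a (H j - H l)) - Real.log (Zo a' (H j - H l)) -
      (if j = l then Real.log (a' / a) else 0) := ⟨_, fun _ _ => rfl⟩
  have heb : ∀ j l, |e j l| ≤ 2 * C + 2 := by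
    intro j l
    have h1 := hC a (H j - H l) ha (haa.trans ha') (hB j l)
    have h2 := hC a' (H j - H l) ha'0 ha' (hB j l)
    by_cases hjl : j = l
    · subst hjl
      rw [he, if_pos rfl]
      rw [sub_self] at h1 h2 ⊢
      have e1 : ∀ b : ℝ, 0 < b → Real.log ‖((2 * b : ℝ) : ℂ) + ((0:ℝ) : ℂ) * I‖ = Real.log 2 + Real.log b := by
        intro b hb
        rw [Complex.ofReal_zero, zero_mul, add_zero, Complex.norm_real, Real.norm_of_nonneg (by positivity),
          Real.log_mul (by norm_num) hb.ne']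
      rw [e1 a ha] at h1
      rw [e1 a' ha'0] at h2
      rw [Real.log_div ha'0.ne' ha.ne']
      have h3 := abs_le.mp h1
      have h4 := abs_le.mp h2
      rw [abs_le]
      constructor <;> linarith
    · rw [he, if_neg hjl, sub_zero]
      obtain ⟨u, hu⟩ : ∃ u, u = H j - H l := ⟨_, rfl⟩
      have hs := hsep j l hjl
      rw [← hu] at h1 h2 hs ⊢
      have hu0 : 0 < |u| := ha'0.trans_le hs
      have b1 : ∀ b : ℝ, 0 < b → |u| ≤ ‖((2 * b : ℝ) : ℂ) + (u : ℂ) * I‖ := by
        intro b _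
        have h9 := Complex.abs_im_le_norm (((2 * b : ℝ) : ℂ) + (u : ℂ) * I)
        have h10 : (((2 * b : ℝ) : ℂ) + (u : ℂ) * I).im = u := by simp
        rwa [h10] at h9
      have b2 : ∀ b : ℝ, 0 < b → b ≤ |u| → ‖((2 * b : ℝ) : ℂ) + (u : ℂ) * I‖ ≤ 3 * |u| := by
        intro b hb hbu
        refine (norm_add_le _ _).trans ?_
        rw [norm_mul, Complex.norm_I, Complex.norm_real, Complex.norm_real, Real.norm_of_nonneg (by positivity), Real.norm_eq_abs]
        linarith
      have l1 := Real.log_le_log hu0 (b1 a ha)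
      have l2 := Real.log_le_log hu0 (b1 a' ha'0)
      have l3 := Real.log_le_log (hu0.trans_le (b1 a ha)) (b2 a ha (haa.trans hs))
      have l4 := Real.log_le_log (hu0.trans_le (b1 a' ha'0)) (b2 a' ha'0 hs)
      rw [Real.log_mul (by norm_num) hu0.ne'] at l3 l4
      have l5 : Real.log 3 ≤ 2 := by
        have := Real.log_le_sub_one_of_pos (show (0:ℝ) < 3 by norm_num)
        linarith
      have h3 := abs_le.mp h1
      have h4 := abs_le.mp h2
      rw [abs_le]
      constructor <;> linarith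
  have hdiff : Qf n H a = Qf n H a' + (∑ j, (n j : ℝ) ^ 2) * Real.log (a' / a) + ∑ j, ∑ l, (n j : ℝ) * n l * e j l := by
    have h1 : ∑ j, ∑ l, (n j : ℝ) * n l * (if j = l then Real.log (a' / a) else 0) = (∑ j, (n j : ℝ) ^ 2) * Real.log (a' / a) := by
      rw [sum_mul]
      refine sum_congr rfl fun j _ => ?_
      rw [Finset.sum_eq_single j]
      · rw [if_pos rfl]
        ring
      · intro l _ hl
        rw [if_neg hl.symm, mul_zero]
      · intro hc
        exact absurd (mem_univ j) hc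
    rw [← h1]
    unfold Qf
    rw [← sum_add_distrib, ← sum_add_distrib]
    refine sum_congr rfl fun j _ => ?_
    rw [← sum_add_distrib, ← sum_add_distrib]
    refine sum_congr rfl fun l _ => ?_
    rw [he]
    ring
  have hE : |∑ j, ∑ l, (n j : ℝ) * n l * e j l| ≤ (2 * C + 2) * ∑ j, ∑ l, |(n j : ℝ)| * |(n l : ℝ)| := by
    rw [mul_sum]
    refine (abs_sum_le_sum_abs _ _).trans (sum_le_sum fun j _ => ?_)
    rw [mul_sum]
    refine (abs_sum_le_sum_abs _ _).trans (sum_le_sum fun l _ => ?_)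
    rw [abs_mul, abs_mul, mul_comm]
    exact mul_le_mul_of_nonneg_right (heb j l) (by positivity)
  have := (abs_le.mp hE).1
  rw [hdiff]
  linarith

/-- growth for bounded shifts which are far apart compared with the distance to the line -/
theorem Qf_top (hL : S_LZB) {m : ℕ} {d : ℝ → ℝ} (hd : ∀ᶠ T in atTop, 0 < d T) (h0 : Tendsto d atTop (𝓝 0)) {h : ℝ → Fin m → ℝ}
    {B : ℝ} (hB : ∀ᶠ T in atTop, ∀ j, |h T j| ≤ B)
    (hs : ∀ i l, i ≠ l → Tendsto (fun T => |h T i - h T l| / d T) atTop atTop) {n : Fin m → ℤ} (hn : n ≠ 0) :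
    Tendsto (fun T => Qf n (h T) (d T)) atTop atTop := by
  obtain ⟨C, hC0, hC⟩ := Zo_log (B := 2 * B)
  obtain ⟨j0, hj0⟩ : ∃ j, n j ≠ 0 := by
    by_contra hcon
    push Not at hcon
    exact hn (funext hcon)
  have hS : 0 < ∑ j, (n j : ℝ) ^ 2 := by
    have h1 : (n j0 : ℝ) ^ 2 ≤ ∑ j, (n j : ℝ) ^ 2 :=
      single_le_sum (f := fun j => (n j : ℝ) ^ 2) (fun _ _ => sq_nonneg _) (mem_univ j0)
    have h2 : (0:ℝ) < (n j0 : ℝ) ^ 2 := by positivity
    linarith
  have hx : Tendsto (fun T => ∑ j, ∑ l ∈ univ.erase j, d T / |h T j - h T l|) atTop (𝓝 (∑ j : Fin m, ∑ l ∈ univ.erase j, (0:ℝ))) := by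
    refine tendsto_finsetSum _ fun j _ => tendsto_finsetSum _ fun l hl => ?_
    have h2 := tendsto_inv_atTop_zero.comp (hs j l (ne_of_mem_erase hl).symm)
    refine h2.congr fun T => ?_
    simp only [Function.comp_def]
    rw [inv_div]
  simp only [sum_const_zero] at hx
  have hy := hx.add (h0.const_mul 16)
  rw [mul_zero, add_zero] at hy
  obtain ⟨y, hyd⟩ : ∃ y : ℝ → ℝ, ∀ T, y T = ∑ j, ∑ l ∈ univ.erase j, d T / |h T j - h T l| + 16 * d T := ⟨_, fun _ => rfl⟩
  have hyt : Tendsto y atTop (𝓝 0) := by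
    refine hy.congr fun T => ?_
    rw [hyd]
  have hy0 : ∀ᶠ T in atTop, 0 < y T := by
    filter_upwards [hd] with T hT
    rw [hyd]
    have : 0 ≤ ∑ j, ∑ l ∈ univ.erase j, d T / |h T j - h T l| := sum_nonneg fun _ _ => sum_nonneg fun _ _ => by positivity
    linarith
  have hlog : Tendsto (fun T => Real.log (1 / y T)) atTop atTop := by
    refine Real.tendsto_log_atTop.comp ?_
    have h3 : Tendsto (fun T => (y T)⁻¹) atTop atTop :=
      tendsto_inv_nhdsGT_zero.comp (tendsto_nhdsWithin_iff.mpr ⟨hyt, hy0.mono fun T hT => hT⟩)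
    simpa using h3
  have hlow : Tendsto (fun T => (∑ j, (n j : ℝ) ^ 2) * Real.log (1 / y T) -
      (2 * C + 2) * ∑ j, ∑ l, |(n j : ℝ)| * |(n l : ℝ)|) atTop atTop :=
    tendsto_atTop_add_const_right _ _ (hlog.const_mul_atTop hS)
  refine tendsto_atTop_mono' _ ?_ hlow
  have hsev : ∀ᶠ T in atTop, ∀ i l : Fin m, i ≠ l → 0 < |h T i - h T l| / d T := by
    rw [Filter.eventually_all]
    intro i
    rw [Filter.eventually_all]
    intro l
    by_cases hil : i = l
    · exact Eventually.of_forall fun T hc => absurd hil hc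
    · exact ((hs i l hil).eventually_gt_atTop 0).mono fun T hT _ => hT
  filter_upwards [hd, hy0, hyt.eventually_le_const one_pos, hB, hsev] with T g1 g2 g3 g4 g5
  have e1 : d T / y T / d T = 1 / y T := by field_simp
  have h16 : 16 * d T ≤ y T := by
    rw [hyd]
    have : 0 ≤ ∑ j, ∑ l ∈ univ.erase j, d T / |h T j - h T l| := sum_nonneg fun _ _ => sum_nonneg fun _ _ => by positivity
    linarith
  have h5 := Qf_lower hL hC n (h T) (a := d T) (a' := d T / y T) g1
    (by rw [le_div_iff₀ g2]; nlinarith)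
    (by rw [div_le_div_iff₀ g2 (by norm_num)]; linarith)
    (fun j l => by
      have h6 := abs_sub (h T j) (h T l)
      linarith [g4 j, g4 l])
    (fun j l hjl => by
      have h6 := g5 j l hjl
      have h7 : 0 < |h T j - h T l| := by
        rcases (abs_nonneg (h T j - h T l)).eq_or_lt with h8 | h8
        · rw [← h8, zero_div] at h6
          exact absurd h6 (lt_irrefl _)
        · exact h8
      rw [div_le_iff₀ g2]
      have h8 : d T / |h T j - h T l| ≤ y T := by
        have h9 : d T / |h T j - h T l| ≤ ∑ l ∈ univ.erase j, d T / |h T j - h T l| :=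
          single_le_sum (f := fun l => d T / |h T j - h T l|) (fun _ _ => by positivity) (mem_erase.mpr ⟨hjl.symm, mem_univ l⟩)
        have h10 : ∑ l ∈ univ.erase j, d T / |h T j - h T l| ≤ ∑ j, ∑ l ∈ univ.erase j, d T / |h T j - h T l| :=
          single_le_sum (f := fun j => ∑ l ∈ univ.erase j, d T / |h T j - h T l|)
            (fun _ _ => sum_nonneg fun _ _ => by positivity) (mem_univ j)
        rw [hyd]
        linarith
      rw [div_le_iff₀ h7] at h8
      linarith)
  rw [e1] at h5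
  exact h5

end Pool.Agent.Run7.h290.SH
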