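import Pool.Agent.Run7.h290.SH.H
import Pool.Agent.Run7.h290.SH.O

set_option autoImplicit false

/-! The phases of shifted values: functions on the torus. -/

namespace Pool.Agent.Run7.h290.SH

open Finset Filter MeasureTheory Topology Complex
open Pool.Agent.N748.MG Pool.Agent.N748.MJ Pool.Agent.N748.MJ.SM

lemma zeta_ae {δ : ℝ} (h0 : δ ≤ 1 / 16) (u : ℝ) : ∀ᵐ t : ℝ, riemannZeta (pw δ (t + u)) ≠ 0 := by
  obtain ⟨f, hf⟩ : ∃ f : ℝ → ℂ, f = fun t => pw δ (t + u) := ⟨_, rfl⟩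
  have hfa : AnalyticOnNhd ℝ f Set.univ := by
    intro t _
    rw [hf]
    unfold pw
    have h1 : AnalyticAt ℝ (fun t : ℝ => ((t + u : ℝ) : ℂ)) t := by
      have h2 : (fun t : ℝ => ((t + u : ℝ) : ℂ)) = fun t : ℝ => Complex.ofRealCLM t + (u : ℂ) := by
        funext t
        rw [Complex.ofRealCLM_apply, Complex.ofReal_add]
      rw [h2]
      exact (Complex.ofRealCLM.analyticAt t).add analyticAt_const
    exact analyticAt_const.add (h1.mul analyticAt_const)
  have hconn : IsConnected ({1}ᶜ : Set ℂ) := isConnected_compl_singleton_of_one_lt_rank (by rw [Complex.rank_real_complex]; norm_num) 1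
  have hz : riemannZeta ⁻¹' {0}ᶜ ∈ codiscreteWithin ({1}ᶜ : Set ℂ) := by
    refine analyticOn_riemannZeta.preimage_zero_mem_codiscreteWithin (x := 2) ?_ ?_ hconn
    · exact riemannZeta_ne_zero_of_one_lt_re (by norm_num)
    · simp
  have h1 : riemannZeta ⁻¹' {0}ᶜ ∈ codiscreteWithin (f '' Set.univ) := by
    refine codiscreteWithin_mono ?_ hz
    rintro s ⟨t, -, rfl⟩
    rw [hf]
    exact TMA.pw_ne_one h0 (t + u)
  have h2 := hfa.preimage_mem_codiscreteWithin (s := riemannZeta ⁻¹' {0}ᶜ) ?_ h1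
  · have h3 := ae_restrict_le_codiscreteWithin (μ := (volume : Measure ℝ)) MeasurableSet.univ h2
    rw [Measure.restrict_univ] at h3
    filter_upwards [h3] with t ht
    rw [hf] at ht
    exact ht
  · intro t _ hcon
    obtain ⟨a, ha⟩ := eventuallyConst_iff_exists_eventuallyEq.1 hcon
    have h4 := ha.deriv.eq_of_nhds
    have h5 : HasDerivAt f I t := by
      rw [hf]
      unfold pw
      have h6 : HasDerivAt (fun t : ℝ => ((t + u : ℝ) : ℂ)) 1 t := by
        have := ((hasDerivAt_id t).add_const u).ofReal_comp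
        simpa using this
      have h7 := (h6.mul_const I).const_add (1 / 2 + (δ : ℂ))
      simpa using h7
    rw [h5.deriv] at h4
    simp at h4

/-- the function on the torus belonging to `F` -/
noncomputable def tf {m : ℕ} {F : (Fin m → ℂ) → ℂ} (hF : Continuous F) : C(UnitAddTorus (Fin m), ℂ) :=
  ⟨fun x => F fun j => fourier 1 (x j), hF.comp (continuous_pi fun j => (fourier 1).continuous.comp (continuous_apply j))⟩

lemma tf_Th {m : ℕ} {F : (Fin m → ℂ) → ℂ} (hF : Continuous F) {δ t : ℝ} {H : Fin m → ℝ} (hz : ∀ j, zj δ t (H j) ≠ 0) :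
    tf hF (Th δ H t) = F fun j => zj δ t (H j) / (‖zj δ t (H j)‖ : ℝ) := by
  change F (fun j => fourier 1 (Th δ H t j)) = _
  congr 1
  funext j
  unfold Th
  rw [fourier_arg 1 _ (hz j), zpow_one]

lemma tf_int {m : ℕ} {F : (Fin m → ℂ) → ℂ} (hF : Continuous F) :
    ∫ x, tf hF x ∂(tor m) = ∫ θ in Set.univ.pi (fun _ : Fin m => Set.Ioc (0:ℝ) 1), F fun j => Complex.exp (2 * Real.pi * I * (θ j : ℂ)) := by
  have h1 : MeasurePreserving (fun (a : Fin m → ℝ) j => ((a j : ℝ) : UnitAddCircle))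
      (Measure.pi fun _ : Fin m => (volume : Measure ℝ).restrict (Set.Ioc 0 1)) (tor m) := by
    unfold tor
    refine measurePreserving_pi _ _ fun j => ?_
    have h2 := AddCircle.measurePreserving_mk (1:ℝ) 0
    rw [zero_add, AddCircle.volume_eq_smul_haarAddCircle] at h2
    simpa using h2
  have h3 : (volume : Measure (Fin m → ℝ)).restrict (Set.univ.pi fun _ : Fin m => Set.Ioc (0:ℝ) 1) =
      Measure.pi fun _ : Fin m => (volume : Measure ℝ).restrict (Set.Ioc 0 1) := by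
    rw [volume_pi, Measure.restrict_pi_pi]
  rw [h3, ← h1.map_eq, integral_map h1.measurable.aemeasurable (tf hF).continuous.aestronglyMeasurable]
  refine integral_congr_ae (Eventually.of_forall fun θ => ?_)
  change F (fun j => fourier 1 ((θ j : ℝ) : UnitAddCircle)) = _
  congr 1
  funext j
  rw [fourier_coe_apply]
  congr 1
  push_cast
  ring

section

variable {m : ℕ} {d : ℝ → ℝ} {h : ℝ → Fin m → ℝ} (hJ : S_JM) (hP : S_POSV) (hL : S_LZB)
  (hd : Ad d) (hh : ∀ᶠ T : ℝ in atTop, ∀ j, |h T j| ≤ T ^ ((1:ℝ) / 2))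
  (hQ : ∀ n : Fin m → ℤ, n ≠ 0 → Tendsto (fun T => Qf n (h T) (d T)) atTop atTop)

include hJ hP hL hd hh hQ

theorem phasesF {k : Fin m → ℝ} (hk : ∀ j, 0 ≤ k j) {V : ℝ} (hV : ∑ j, k j < V) {F : (Fin m → ℂ) → ℂ} (hF : Continuous F) :
    (∀ᶠ T : ℝ in atTop, 0 < ∫ t in Gs V (h T) (d T) T, G k (h T) (d T) t) ∧
    Tendsto (fun T => (∫ t in Gs V (h T) (d T) T, ((G k (h T) (d T) t : ℝ) : ℂ) *
      F fun j => zj (d T) t (h T j) / (‖zj (d T) t (h T j)‖ : ℝ)) /
      ((∫ t in Gs V (h T) (d T) T, G k (h T) (d T) t : ℝ) : ℂ)) atTop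
      (𝓝 (∫ θ in Set.univ.pi (fun _ : Fin m => Set.Ioc (0:ℝ) 1), F fun j => Complex.exp (2 * Real.pi * I * (θ j : ℂ)))) := by
  have h1 := phases hJ hP hL hd hh hQ hk hV (tf hF)
  rw [tf_int] at h1
  refine ⟨h1.1, h1.2.congr' ?_⟩
  filter_upwards [(Ev.of_le (d := 1 / 16) (by norm_num)).app hd] with T g4
  congr 1
  refine integral_congr_ae (ae_restrict_of_ae ?_)
  have h2 : ∀ᵐ t : ℝ, ∀ j, zj (d T) t (h T j) ≠ 0 := by
    rw [ae_all_iff]
    exact fun j => zeta_ae g4 (h T j)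
  filter_upwards [h2] with t ht
  rw [tf_Th hF ht]

theorem phasesF0 {F : (Fin m → ℂ) → ℂ} (hF : Continuous F) :
    Tendsto (fun T : ℝ => (1 / (T : ℂ)) * ∫ t in Set.Icc 0 T, F fun j => zj (d T) t (h T j) / (‖zj (d T) t (h T j)‖ : ℝ)) atTop
      (𝓝 (∫ θ in Set.univ.pi (fun _ : Fin m => Set.Ioc (0:ℝ) 1), F fun j => Complex.exp (2 * Real.pi * I * (θ j : ℂ)))) := by
  have h1 := phases0 hJ hP hL hd hh hQ (tf hF)
  rw [tf_int] at h1
  refine h1.congr' ?_
  filter_upwards [(Ev.of_le (d := 1 / 16) (by norm_num)).app hd] with T g4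
  congr 1
  refine integral_congr_ae (ae_restrict_of_ae ?_)
  have h2 : ∀ᵐ t : ℝ, ∀ j, zj (d T) t (h T j) ≠ 0 := by
    rw [ae_all_iff]
    exact fun j => zeta_ae g4 (h T j)
  filter_upwards [h2] with t ht
  rw [tf_Th hF ht]

end

end Pool.Agent.Run7.h290.SH
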