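import Pool.Agent.N748.MJ.SM

set_option autoImplicit false

/-! Joint moments with bounded weights over the points where the shifted values are not too large. -/

namespace Pool.Agent.Run7.h290.SH

open Finset Filter MeasureTheory Topology Complex
open Pool.Agent.N748.MG Pool.Agent.N748.MJ Pool.Agent.N748.MJ.SM

/-- comparison of weighted integrals over two sets -/
lemma cmpw {g G : ℝ → ℝ} {w : ℝ → ℂ} {N E : Set ℝ} {T a b v : ℝ} (hN : MeasurableSet N) (hE : MeasurableSet E)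
    (hET : E ⊆ Set.Icc 0 T) (hg0 : ∀ t, 0 ≤ g t) (hG0 : ∀ t, 0 ≤ G t) (ha : 0 ≤ a) (hb : 0 ≤ b) (hv : 0 ≤ v)
    (hgm : Measurable g) (hgN : IntegrableOn g N) (hGN : IntegrableOn G N)
    (h1 : ∀ t ∈ E, g t ≤ b) (h2 : ∀ t ∈ N \ E, g t ≤ a * G t)
    (hvol : volume (Set.Icc 0 T \ N) ≤ ENNReal.ofReal v) (hw : Measurable w) (hw1 : ∀ t, ‖w t‖ ≤ 1) :
    ‖(∫ t in E, ((g t : ℝ) : ℂ) * w t) - ∫ t in N, ((g t : ℝ) : ℂ) * w t‖ ≤ a * (∫ t in N, G t) + b * v := by
  have hfin : volume (Set.Icc (0 : ℝ) T) < ⊤ := by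
    rw [Real.volume_Icc]
    exact ENNReal.ofReal_lt_top
  have hEfin : volume E < ⊤ := (measure_mono hET).trans_lt hfin
  have hgE : IntegrableOn g E := by
    refine Measure.integrableOn_of_bounded (M := b) hEfin.ne hgm.aestronglyMeasurable ?_
    refine (ae_restrict_iff' hE).2 (Eventually.of_forall fun t ht => ?_)
    rw [Real.norm_of_nonneg (hg0 t)]
    exact h1 t ht
  have hmul : ∀ {S : Set ℝ}, IntegrableOn g S → IntegrableOn (fun t => ((g t : ℝ) : ℂ) * w t) S := by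
    intro S hS
    have h0 : IntegrableOn (fun t => ((g t : ℝ) : ℂ)) S := hS.ofReal
    exact Integrable.mul_bdd (c := 1) h0 hw.aestronglyMeasurable (Eventually.of_forall hw1)
  have hle : ∀ {S : Set ℝ}, IntegrableOn g S → ‖∫ t in S, ((g t : ℝ) : ℂ) * w t‖ ≤ ∫ t in S, g t := by
    intro S hS
    refine norm_integral_le_of_norm_le hS (Eventually.of_forall fun t => ?_)
    rw [norm_mul, Complex.norm_real, Real.norm_of_nonneg (hg0 t)]
    exact mul_le_of_le_one_right (hg0 t) (hw1 t)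
  have e1 : (∫ t in E, ((g t : ℝ) : ℂ) * w t) = (∫ t in E ∩ N, ((g t : ℝ) : ℂ) * w t) + ∫ t in E \ N, ((g t : ℝ) : ℂ) * w t :=
    (integral_inter_add_sdiff hN (hmul hgE)).symm
  have e2 : (∫ t in N, ((g t : ℝ) : ℂ) * w t) = (∫ t in N ∩ E, ((g t : ℝ) : ℂ) * w t) + ∫ t in N \ E, ((g t : ℝ) : ℂ) * w t :=
    (integral_inter_add_sdiff hE (hmul hgN)).symm
  have e3 : (∫ t in E, ((g t : ℝ) : ℂ) * w t) - ∫ t in N, ((g t : ℝ) : ℂ) * w t =
      (∫ t in E \ N, ((g t : ℝ) : ℂ) * w t) - ∫ t in N \ E, ((g t : ℝ) : ℂ) * w t := by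
    rw [e1, e2, Set.inter_comm N E]
    ring
  have i1 : 0 ≤ ∫ t in E \ N, g t := integral_nonneg fun t => hg0 t
  have i3 : ∫ t in E \ N, g t ≤ b * v := by
    have hv1 : volume (E \ N) ≤ ENNReal.ofReal v :=
      (measure_mono (Set.sdiff_subset_sdiff_left hET)).trans hvol
    have hv2 : volume (E \ N) < ⊤ := hv1.trans_lt ENNReal.ofReal_lt_top
    have h5 := norm_setIntegral_le_of_norm_le_const (f := g) hv2 (C := b) fun t ht => by
      rw [Real.norm_of_nonneg (hg0 t)]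
      exact h1 t ht.1
    rw [Real.norm_of_nonneg i1] at h5
    refine h5.trans (mul_le_mul_of_nonneg_left ?_ hb)
    exact ENNReal.toReal_le_of_le_ofReal hv hv1
  have i4 : ∫ t in N \ E, g t ≤ a * ∫ t in N, G t := by
    calc ∫ t in N \ E, g t ≤ ∫ t in N \ E, a * G t :=
          setIntegral_mono_on (hgN.mono_set Set.sdiff_subset)
            ((hGN.mono_set Set.sdiff_subset).const_mul a) (hN.diff hE) h2
      _ = a * ∫ t in N \ E, G t := integral_const_mul _ _
      _ ≤ a * ∫ t in N, G t := by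
          refine mul_le_mul_of_nonneg_left ?_ ha
          exact setIntegral_mono_set hGN (Eventually.of_forall fun t => hG0 t)
            (Set.sdiff_subset.eventuallyLE)
  rw [e3]
  refine (norm_sub_le _ _).trans ?_
  have a1 := hle (hgE.mono_set (Set.sdiff_subset (s := E) (t := N)))
  have a2 := hle (hgN.mono_set (Set.sdiff_subset (s := N) (t := E)))
  linarith

/-- the points at which none of the shifted values is large -/
def Gs {m : ℕ} (V : ℝ) (h : Fin m → ℝ) (δ T : ℝ) : Set ℝ :=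
  {t : ℝ | t ∈ Set.Icc 0 T ∧ ∀ j, mz δ (t + h j) ≤ (2 * δ) ^ (-V)}

lemma Gs_meas {m : ℕ} (V : ℝ) (h : Fin m → ℝ) {δ : ℝ} (h0 : δ ≤ 1 / 16) (T : ℝ) : MeasurableSet (Gs V h δ T) := by
  have hmzc : ∀ j, Continuous fun t : ℝ => mz δ (t + h j) := fun j => (TMA.cont h0).comp (by fun_prop)
  have : Gs V h δ T = Set.Icc 0 T ∩ ⋂ j, {t : ℝ | mz δ (t + h j) ≤ (2 * δ) ^ (-V)} := by
    ext t
    simp [Gs]
  rw [this]
  exact measurableSet_Icc.inter (MeasurableSet.iInter fun j =>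
    measurableSet_le (hmzc j).measurable measurable_const)

/-- joint complex moments over `N` -/
def JMp {m : ℕ} (R ε X δ : ℝ) (h : Fin m → ℝ) (N : Set ℝ) : Prop :=
  ∀ (b : Fin m → ℂ) (n : Fin m → ℤ), (∀ j, ‖b j‖ ≤ R) → (∀ j, |((n j : ℤ) : ℝ)| ≤ R) →
    ‖Complex.exp (-(LM (sp b n) (sm b n) h δ)) * (∫ t in N, ∏ j, ZZ (riemannZeta (pw δ (t + h j))) (b j) (n j)) -
      X * aV (sp b n) (sm b n) h‖ ≤ ε * X

/-- the weighted moments over the two kinds of sets -/
theorem base (hJ : S_JM) (hP : S_POSV) (hL : S_LZB) {m : ℕ} {K V R : ℝ} (hK0 : 0 ≤ K) (hKV : K < V) (hR : K + V + 1 ≤ R)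
    {d : ℝ → ℝ} (hd : Ad d) {h : ℝ → Fin m → ℝ} (hh : ∀ᶠ T : ℝ in atTop, ∀ j, |h T j| ≤ T ^ ((1:ℝ) / 2)) {ε : ℝ}
    (hε : 0 < ε) : ∀ᶠ T : ℝ in atTop, ∃ N : Set ℝ, MeasurableSet N ∧ N ⊆ Set.Icc 0 T ∧
      (∀ t ∈ N, ∀ j, riemannZeta (pw (d T) (t + h T j)) ≠ 0) ∧ JMp R ε T (d T) (h T) N ∧
      ∀ k : Fin m → ℝ, (∀ j, 0 ≤ k j) → ∑ j, k j ≤ K → ∀ w : ℝ → ℂ, Measurable w → (∀ t, ‖w t‖ ≤ 1) →
        ‖(∫ t in Gs V (h T) (d T) T, ((G k (h T) (d T) t : ℝ) : ℂ) * w t) -
          ∫ t in N, ((G k (h T) (d T) t : ℝ) : ℂ) * w t‖ ≤ ε * T * Real.exp (Lr k (h T) (d T)) := by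
  have hV0 : 0 < V := lt_of_le_of_lt hK0 hKV
  set η : ℝ := V - K with hη
  have hη0 : 0 < η := sub_pos.2 hKV
  have hR0 : 0 < R := by linarith
  set D : ℝ := 2 * (V * K) + K ^ 2 + 1 with hD
  have hD0 : 0 < D := by positivity
  obtain ⟨c, C, hc, hC, hcC⟩ := hP m R hR0.le
  set ε0 : ℝ := min ε 1 with hε0
  have hε0p : 0 < ε0 := lt_min hε one_pos
  have hε1 : ε0 ≤ ε := min_le_left _ _
  have hε2 : ε0 ≤ 1 := min_le_right _ _
  have g1 := (hJ m R D hR0 hD0 ε0 hε0p).app hd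
  have g2 := (Ev.small (C := 2 ^ (2 * (η * V)) * (m * (C + 1))) (c := η ^ 2) (e := ε / 2)
    (by positivity) (by positivity)).app hd
  have g3 := (Ev.small (C := 1) (c := 1) (e := ε / 2) one_pos (by positivity)).app hd
  have g4 := (Ev.of_le (d := 1 / 16) (by norm_num)).app hd
  filter_upwards [g1, g2, g3, g4, hd.pos, hh, eventually_gt_atTop 0] with T g1 g2 g3 g4 g5 g6 hT
  obtain ⟨N, n1, n2, n3, n4, n5⟩ := g1 (h T) g6
  refine ⟨N, n1, n2, n4, fun b n hb hn => (n5 b n hb hn).trans (mul_le_mul_of_nonneg_right hε1 hT.le), ?_⟩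
  intro k hk hkK w hw hw1
  set δ : ℝ := d T with hδ
  set H : Fin m → ℝ := h T with hH
  have h2δ : 0 < 2 * δ := by positivity
  have hδ1 : δ ≤ 1 := by linarith
  have h2δ1 : 2 * δ ≤ 1 := by linarith
  obtain ⟨hCu, hcl⟩ := hcC H
  set L : ℝ := Real.log (1 / δ) with hLd
  have hL0 : 0 ≤ L := by rw [hLd, one_div, Real.log_inv]; linarith [Real.log_nonpos g5.le hδ1]
  have hLre : ∀ u, |(LZ (1 + 2 * δ) u).re| ≤ L := fun u =>
    (Complex.abs_re_le_norm _).trans (hL δ g5 g4 u).1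
  have hexpL : ∀ x : ℝ, Real.exp (x * L) = δ ^ (-x) := by
    intro x
    rw [hLd, one_div, Real.log_inv, Real.rpow_def_of_pos g5]
    congr 1
    ring
  set S : ℝ := ∑ j, k j with hS
  have hS0 : 0 ≤ S := Finset.sum_nonneg fun j _ => hk j
  have hkS : ∀ j, k j ≤ S := fun j =>
    Finset.single_le_sum (f := k) (fun i _ => hk i) (Finset.mem_univ j)
  -- real forms
  have hform : ∀ k' : Fin m → ℝ, (∀ j, |k' j| ≤ R) →
      Real.exp (-(Lr k' H δ)) * (∫ t in N, G k' H δ t) ≤ (C + 1) * T := by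
    intro k' hk'
    obtain ⟨a, ha1, ha2⟩ := hcl k' hk'
    have hn : ∀ j, ‖cc k' j‖ ≤ R := by
      intro j
      unfold cc
      rw [Complex.norm_real, Real.norm_eq_abs]
      exact hk' j
    have ha3 : a ≤ C := by
      have h1 := hCu (cc k') (cc k') hn hn
      have h2 : aV (cc k') (cc k') H = a := ha2
      rw [h2, Complex.norm_real, Real.norm_of_nonneg (hc.le.trans ha1)] at h1
      exact h1
    have h4 := real_form hT (hc.le.trans ha1) ha2 (n5 (cc k') (fun _ => 0) hn (fun j => by simpa using hR0.le))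
    have h5 := (abs_le.1 h4).2
    have h6 : T * a ≤ T * C := mul_le_mul_of_nonneg_left ha3 hT.le
    have h7 : ε0 * T ≤ 1 * T := mul_le_mul_of_nonneg_right hε2 hT.le
    linarith
  -- the set
  set E : Set ℝ := Gs V H δ T with hE
  have hEm : MeasurableSet E := Gs_meas V H g4 T
  have hET : E ⊆ Set.Icc 0 T := fun t ht => ht.1
  set c0 : ℝ := (2 * δ) ^ (-V) with hc0
  have hc00 : 0 < c0 := Real.rpow_pos_of_pos h2δ _
  have hGc : ∀ k' : Fin m → ℝ, (∀ j, 0 ≤ k' j) → IntegrableOn (fun t => G k' H δ t) N :=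
    fun k' hk' => ((G_cont g4 hk').integrableOn_Icc).mono_set n2
  have hkp0 : ∀ i j, 0 ≤ kp k η i j := by
    intro i j
    unfold kp
    have := hk j
    split_ifs <;> linarith
  have hkpR : ∀ i j, |kp k η i j| ≤ R := by
    intro i j
    rw [abs_of_nonneg (hkp0 i j)]
    have h1 : kp k η i j ≤ k j + η := by
      unfold kp
      split_ifs <;> linarith
    have h2 := hkS j
    linarith
  -- comparison
  have hcmp := cmpw (g := fun t => G k H δ t) (G := fun t => ∑ i, G (kp k η i) H δ t) (N := N)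
    (E := E) (T := T) (a := (2 * δ) ^ (2 * (η * V))) (b := (2 * δ) ^ (-(2 * (V * S))))
    (v := δ ^ D * T) n1 hEm hET
    (fun t => G_nn k H δ t) (fun t => Finset.sum_nonneg fun i _ => G_nn _ H δ t)
    (Real.rpow_pos_of_pos h2δ _).le (Real.rpow_pos_of_pos h2δ _).le (by positivity)
    ((G_cont g4 hk).measurable) (hGc k hk)
    (integrable_finsetSum _ fun i _ => hGc _ (hkp0 i))
    (by
      intro t ht
      calc G k H δ t ≤ ∏ j, c0 ^ (2 * k j) := by
            unfold G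
            refine Finset.prod_le_prod (fun j _ => Real.rpow_nonneg (norm_nonneg _) _) fun j _ => ?_
            exact Real.rpow_le_rpow (norm_nonneg _) (ht.2 j) (by have := hk j; linarith)
        _ = (2 * δ) ^ (-(2 * (V * S))) := by
            rw [← Real.rpow_sum_of_pos hc00, hc0, ← Real.rpow_mul h2δ.le, ← Finset.mul_sum, ← hS]
            congr 1
            ring)
    (by
      intro t ht
      have h1 : ∃ i, c0 < mz δ (t + H i) := by
        by_contra hcon
        push Not at hcon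
        exact ht.2 ⟨n2 ht.1, hcon⟩
      obtain ⟨i, hi⟩ := h1
      have hi0 : 0 < mz δ (t + H i) := hc00.trans hi
      have h2 : G k H δ t ≤ (2 * δ) ^ (2 * (η * V)) * G (kp k η i) H δ t := by
        rw [G_kp hi0]
        have h3 : 1 ≤ (2 * δ) ^ (2 * (η * V)) * mz δ (t + H i) ^ (2 * η) := by
          have h4 : c0 ^ (2 * η) ≤ mz δ (t + H i) ^ (2 * η) :=
            Real.rpow_le_rpow hc00.le hi.le (by linarith)
          have h5 : (2 * δ) ^ (2 * (η * V)) * c0 ^ (2 * η) = 1 := by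
            rw [hc0, ← Real.rpow_mul h2δ.le, ← Real.rpow_add h2δ]
            have : 2 * (η * V) + -V * (2 * η) = 0 := by ring
            rw [this, Real.rpow_zero]
          rw [← h5]
          exact mul_le_mul_of_nonneg_left h4 (Real.rpow_pos_of_pos h2δ _).le
        have h6 := G_nn k H δ t
        nlinarith
      refine h2.trans (mul_le_mul_of_nonneg_left ?_ (Real.rpow_pos_of_pos h2δ _).le)
      exact Finset.single_le_sum (f := fun i => G (kp k η i) H δ t)
        (fun i _ => G_nn _ H δ t) (Finset.mem_univ i))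
    n3 hw hw1
  -- the upper bound for the larger moments
  have hbig : ∀ i, Real.exp (-(Lr k H δ)) * (∫ t in N, G (kp k η i) H δ t) ≤
      δ ^ (-(2 * (η * K) + η ^ 2)) * ((C + 1) * T) := by
    intro i
    have h1 := hform (kp k η i) (hkpR i)
    have h2 : Lr (kp k η i) H δ - Lr k H δ ≤ (2 * (η * K) + η ^ 2) * L := by
      have h3 := Lr_diff (k := k) (k' := kp k η i) (h := H) hk
        (fun j => by
          unfold kp
          split_ifs <;> linarith) hLre
      rw [kp_sum, ← hS] at h3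
      refine h3.trans ?_
      have h4 : (S + η) ^ 2 - S ^ 2 ≤ 2 * (η * K) + η ^ 2 := by nlinarith
      exact mul_le_mul_of_nonneg_right h4 hL0
    have h4 : Real.exp (-(Lr k H δ)) =
        Real.exp (Lr (kp k η i) H δ - Lr k H δ) * Real.exp (-(Lr (kp k η i) H δ)) := by
      rw [← Real.exp_add]
      congr 1
      ring
    have h5 : Real.exp (Lr (kp k η i) H δ - Lr k H δ) ≤ δ ^ (-(2 * (η * K) + η ^ 2)) := by
      rw [← hexpL]
      exact Real.exp_le_exp.2 h2
    have h6 : 0 ≤ Real.exp (-(Lr (kp k η i) H δ)) * (∫ t in N, G (kp k η i) H δ t) :=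
      mul_nonneg (Real.exp_pos _).le (integral_nonneg fun t => G_nn _ H δ t)
    rw [h4, mul_assoc]
    exact mul_le_mul h5 h1 h6 (Real.rpow_pos_of_pos g5 _).le
  have hsumI : ∫ t in N, ∑ i, G (kp k η i) H δ t = ∑ i, ∫ t in N, G (kp k η i) H δ t :=
    integral_finsetSum _ fun i _ => hGc _ (hkp0 i)
  have p1 : Real.exp (-(Lr k H δ)) * ((2 * δ) ^ (2 * (η * V)) *
      ∫ t in N, ∑ i, G (kp k η i) H δ t) ≤ ε / 2 * T := by
    have q1 : Real.exp (-(Lr k H δ)) * (∫ t in N, ∑ i, G (kp k η i) H δ t) ≤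
        m * (δ ^ (-(2 * (η * K) + η ^ 2)) * ((C + 1) * T)) := by
      rw [hsumI, Finset.mul_sum]
      calc ∑ i, Real.exp (-(Lr k H δ)) * ∫ t in N, G (kp k η i) H δ t
          ≤ ∑ _i : Fin m, δ ^ (-(2 * (η * K) + η ^ 2)) * ((C + 1) * T) :=
            Finset.sum_le_sum fun i _ => hbig i
        _ = _ := by
            rw [Finset.sum_const, Finset.card_univ, Fintype.card_fin, nsmul_eq_mul]
    have q2 : δ ^ (2 * (η * V)) * δ ^ (-(2 * (η * K) + η ^ 2)) = δ ^ (η ^ 2) := by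
      rw [← Real.rpow_add g5]
      congr 1
      rw [hη]
      ring
    calc Real.exp (-(Lr k H δ)) * ((2 * δ) ^ (2 * (η * V)) * ∫ t in N, ∑ i, G (kp k η i) H δ t)
        = (2 * δ) ^ (2 * (η * V)) * (Real.exp (-(Lr k H δ)) *
          ∫ t in N, ∑ i, G (kp k η i) H δ t) := by ring
      _ ≤ (2 * δ) ^ (2 * (η * V)) * (m * (δ ^ (-(2 * (η * K) + η ^ 2)) * ((C + 1) * T))) :=
          mul_le_mul_of_nonneg_left q1 (Real.rpow_pos_of_pos h2δ _).le
      _ = (2 ^ (2 * (η * V)) * (m * (C + 1)) * (δ ^ (2 * (η * V)) *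
          δ ^ (-(2 * (η * K) + η ^ 2)))) * T := by
          rw [Real.mul_rpow (by norm_num) g5.le]
          ring
      _ = (2 ^ (2 * (η * V)) * (m * (C + 1)) * δ ^ (η ^ 2)) * T := by rw [q2]
      _ ≤ ε / 2 * T := mul_le_mul_of_nonneg_right g2 hT.le
  have p2 : Real.exp (-(Lr k H δ)) * ((2 * δ) ^ (-(2 * (V * S))) * (δ ^ D * T)) ≤
      ε / 2 * T := by
    have q1 : Real.exp (-(Lr k H δ)) ≤ δ ^ (-(K ^ 2)) := by
      rw [← hexpL]
      apply Real.exp_le_exp.2
      have h1 := (abs_le.1 (Lr_abs (k := k) (h := H) hk hLre)).1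
      rw [← hS] at h1
      have h2 : S ^ 2 * L ≤ K ^ 2 * L := mul_le_mul_of_nonneg_right (pow_le_pow_left₀ hS0 hkK 2) hL0
      linarith
    have q2 : (2 * δ) ^ (-(2 * (V * S))) ≤ δ ^ (-(2 * (V * K))) := by
      calc (2 * δ) ^ (-(2 * (V * S))) ≤ (2 * δ) ^ (-(2 * (V * K))) := by
            refine Real.rpow_le_rpow_of_exponent_ge h2δ h2δ1 ?_
            have := mul_le_mul_of_nonneg_left hkK hV0.le
            linarith
        _ ≤ _ := by
            apply Real.rpow_le_rpow_of_nonpos g5 (by linarith)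
            have : 0 ≤ V * K := by positivity
            linarith
    calc Real.exp (-(Lr k H δ)) * ((2 * δ) ^ (-(2 * (V * S))) * (δ ^ D * T))
        ≤ δ ^ (-(K ^ 2)) * (δ ^ (-(2 * (V * K))) * (δ ^ D * T)) := by gcongr
      _ = δ ^ (1 : ℝ) * T := by
          rw [← mul_assoc, ← mul_assoc, ← Real.rpow_add g5, ← Real.rpow_add g5]
          congr 2
          rw [hD]
          ring
      _ ≤ ε / 2 * T := by
          rw [one_mul] at g3
          exact mul_le_mul_of_nonneg_right g3 hT.le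
  refine hcmp.trans ?_
  have hE0 := Real.exp_pos (Lr k H δ)
  have hinv : Real.exp (Lr k H δ) * Real.exp (-(Lr k H δ)) = 1 := by rw [← Real.exp_add]; simp
  have p3 := mul_le_mul_of_nonneg_left (add_le_add p1 p2) hE0.le
  calc (2 * δ) ^ (2 * (η * V)) * (∫ t in N, ∑ i, G (kp k η i) H δ t) + (2 * δ) ^ (-(2 * (V * S))) * (δ ^ D * T)
      = Real.exp (Lr k H δ) * Real.exp (-(Lr k H δ)) * ((2 * δ) ^ (2 * (η * V)) * (∫ t in N, ∑ i, G (kp k η i) H δ t) +
        (2 * δ) ^ (-(2 * (V * S))) * (δ ^ D * T)) := by rw [hinv, one_mul]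
    _ = Real.exp (Lr k H δ) * (Real.exp (-(Lr k H δ)) * ((2 * δ) ^ (2 * (η * V)) *
      ∫ t in N, ∑ i, G (kp k η i) H δ t) + Real.exp (-(Lr k H δ)) * ((2 * δ) ^ (-(2 * (V * S))) * (δ ^ D * T))) := by ring
    _ ≤ Real.exp (Lr k H δ) * (ε / 2 * T + ε / 2 * T) := p3
    _ = ε * T * Real.exp (Lr k H δ) := by ring

end Pool.Agent.Run7.h290.SH
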