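import Mathlib

set_option autoImplicit false

/-! A lemma of Wiener's type for norms of order at least two: parts without large atoms do not count. -/

namespace Pool.Agent.Run7.h290.SH

open Finset Filter MeasureTheory Topology

lemma pow_perturb {p η : ℝ} (hp : 0 < p) (hη : 0 < η) :
    ∃ C : ℝ, 0 ≤ C ∧ ∀ a b : ℂ, |‖a + b‖ ^ p - ‖a‖ ^ p| ≤ η * ‖a‖ ^ p + C * ‖b‖ ^ p := by
  have c1 : Tendsto (fun θ : ℝ => (1 + θ) ^ p) (𝓝[>] 0) (𝓝 1) := by
    have h1 : ContinuousAt (fun θ : ℝ => (1 + θ) ^ p) 0 :=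
      (continuousAt_const.add continuousAt_id).rpow_const (Or.inr hp.le)
    have h2 := h1.tendsto
    simp only [add_zero, Real.one_rpow] at h2
    exact h2.mono_left nhdsWithin_le_nhds
  have c2 : Tendsto (fun θ : ℝ => (1 - θ) ^ p) (𝓝[>] 0) (𝓝 1) := by
    have h1 : ContinuousAt (fun θ : ℝ => (1 - θ) ^ p) 0 :=
      (continuousAt_const.sub continuousAt_id).rpow_const (Or.inr hp.le)
    have h2 := h1.tendsto
    simp only [sub_zero, Real.one_rpow] at h2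
    exact h2.mono_left nhdsWithin_le_nhds
  have h1 := c1.eventually_le_const (show (1:ℝ) < 1 + η by linarith)
  have h2 := c2.eventually_const_le (show 1 - η < (1:ℝ) by linarith)
  have h3 : ∀ᶠ θ : ℝ in 𝓝[>] 0, θ < 1 := nhdsWithin_le_nhds (gt_mem_nhds one_pos)
  have h4 : ∀ᶠ θ : ℝ in 𝓝[>] 0, 0 < θ := eventually_mem_nhdsWithin
  obtain ⟨θ, t1, t2, t3, t4⟩ := (h1.and (h2.and (h3.and h4))).exists
  refine ⟨(1 / θ + 1) ^ p, by positivity, fun a b => ?_⟩
  by_cases hb : ‖b‖ ≤ θ * ‖a‖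
  · have u1 : ‖a + b‖ ≤ (1 + θ) * ‖a‖ := by
      have := norm_add_le a b
      linarith
    have u2 : (1 - θ) * ‖a‖ ≤ ‖a + b‖ := by
      have h5 := norm_sub_le (a + b) b
      rw [add_sub_cancel_right] at h5
      linarith
    have u3 : ‖a + b‖ ^ p ≤ (1 + η) * ‖a‖ ^ p := by
      calc ‖a + b‖ ^ p ≤ ((1 + θ) * ‖a‖) ^ p := Real.rpow_le_rpow (norm_nonneg _) u1 hp.le
        _ = (1 + θ) ^ p * ‖a‖ ^ p := Real.mul_rpow (by linarith) (norm_nonneg _)
        _ ≤ _ := mul_le_mul_of_nonneg_right t1 (by positivity)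
    have u4 : (1 - η) * ‖a‖ ^ p ≤ ‖a + b‖ ^ p := by
      calc (1 - η) * ‖a‖ ^ p ≤ (1 - θ) ^ p * ‖a‖ ^ p := mul_le_mul_of_nonneg_right t2 (by positivity)
        _ = ((1 - θ) * ‖a‖) ^ p := (Real.mul_rpow (by linarith) (norm_nonneg _)).symm
        _ ≤ _ := Real.rpow_le_rpow (mul_nonneg (by linarith) (norm_nonneg _)) u2 hp.le
    have u5 : 0 ≤ (1 / θ + 1) ^ p * ‖b‖ ^ p := by positivity
    rw [abs_le]
    constructor <;> linarith
  · push Not at hb
    have hab : ‖a‖ ≤ 1 / θ * ‖b‖ := by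
      rw [one_div, inv_mul_eq_div, le_div_iff₀ t4]
      linarith
    have u1 : ‖a‖ ≤ (1 / θ + 1) * ‖b‖ := by linarith [norm_nonneg b]
    have u2 : ‖a + b‖ ≤ (1 / θ + 1) * ‖b‖ := by
      have := norm_add_le a b
      linarith
    have u3 : ‖a‖ ^ p ≤ (1 / θ + 1) ^ p * ‖b‖ ^ p := by
      rw [← Real.mul_rpow (by positivity) (norm_nonneg _)]
      exact Real.rpow_le_rpow (norm_nonneg _) u1 hp.le
    have u4 : ‖a + b‖ ^ p ≤ (1 / θ + 1) ^ p * ‖b‖ ^ p := by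
      rw [← Real.mul_rpow (by positivity) (norm_nonneg _)]
      exact Real.rpow_le_rpow (norm_nonneg _) u2 hp.le
    have u5 : 0 ≤ η * ‖a‖ ^ p := by positivity
    have u6 : 0 ≤ ‖a‖ ^ p := by positivity
    have u7 : 0 ≤ ‖a + b‖ ^ p := by positivity
    rw [abs_le]
    constructor <;> linarith

lemma jensen {α : Type*} [MeasurableSpace α] (ν : Measure α) [IsFiniteMeasure ν] {k : ℝ} (hk : 1 ≤ k) {F : α → ℝ}
    (hF : Measurable F) (h0 : ∀ x, 0 ≤ F x) {M : ℝ} (hM : ∀ x, F x ≤ M) :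
    (∫ x, F x ∂ν) ^ k ≤ ν.real Set.univ ^ (k - 1) * ∫ x, F x ^ k ∂ν := by
  by_cases hν : ν = 0
  · subst hν
    simp [Real.zero_rpow (by linarith : k ≠ 0)]
  · have : NeZero ν := ⟨hν⟩
    have hi : Integrable F ν := by
      refine Integrable.of_bound hF.aestronglyMeasurable M (Eventually.of_forall fun x => ?_)
      rw [Real.norm_of_nonneg (h0 x)]
      exact hM x
    have hik : Integrable (fun x => F x ^ k) ν := by
      refine Integrable.of_bound (hF.pow_const k).aestronglyMeasurable (M ^ k) (Eventually.of_forall fun x => ?_)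
      rw [Real.norm_of_nonneg (Real.rpow_nonneg (h0 x) _)]
      exact Real.rpow_le_rpow (h0 x) (hM x) (by linarith)
    have h1 := (convexOn_rpow hk).map_average_le (μ := ν) (f := F)
      ((Real.continuous_rpow_const (by linarith : (0:ℝ) ≤ k)).continuousOn) isClosed_Ici (Eventually.of_forall h0) hi hik
    rw [average_eq, average_eq, smul_eq_mul, smul_eq_mul] at h1
    have hv : 0 < ν.real Set.univ := by
      rw [measureReal_def]
      exact ENNReal.toReal_pos (by simpa using hν) (measure_ne_top _ _)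
    have hI : 0 ≤ ∫ x, F x ∂ν := integral_nonneg h0
    rw [Real.mul_rpow (by positivity) hI, Real.inv_rpow hv.le] at h1
    have h2 : (∫ x, F x ∂ν) ^ k = ν.real Set.univ ^ k * ((ν.real Set.univ ^ k)⁻¹ * (∫ x, F x ∂ν) ^ k) := by
      rw [← mul_assoc, mul_inv_cancel₀ (by positivity), one_mul]
    rw [h2]
    calc ν.real Set.univ ^ k * ((ν.real Set.univ ^ k)⁻¹ * (∫ x, F x ∂ν) ^ k) ≤
        ν.real Set.univ ^ k * ((ν.real Set.univ)⁻¹ * ∫ x, F x ^ k ∂ν) := mul_le_mul_of_nonneg_left h1 (by positivity)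
      _ = _ := by
          rw [Real.rpow_sub_one hv.ne', ← mul_assoc, div_eq_mul_inv]

/-- the norm of an average by the pairs -/
lemma pair_bound {lam ν : Measure ℝ} [IsFiniteMeasure lam] [IsFiniteMeasure ν] {k : ℝ} (hk : 1 ≤ k) {F : ℝ → ℝ → ℝ}
    (hF : Measurable fun q : ℝ × ℝ => F q.1 q.2) (h0 : ∀ x t, 0 ≤ F x t) {M : ℝ} (hM : ∀ x t, F x t ≤ M) :
    ∫ t, (∫ x, F x t ∂ν) ^ (2 * k) ∂lam ≤ ν.real Set.univ ^ (2 * k - 2) *
      ∫ q : ℝ × ℝ, (∫ t, F q.1 t ^ k * F q.2 t ^ k ∂lam) ∂(ν.prod ν) := by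
  have hk0 : 0 ≤ k := by linarith
  have hM0 : 0 ≤ M := (h0 0 0).trans (hM 0 0)
  have hFx : ∀ t, Measurable fun x => F x t := fun t => hF.comp (measurable_id.prodMk measurable_const)
  have hFkb : ∀ x t, F x t ^ k ≤ M ^ k := fun x t => Real.rpow_le_rpow (h0 x t) (hM x t) hk0
  have hG : Measurable fun z : ℝ × ℝ × ℝ => F z.2.1 z.1 ^ k * F z.2.2 z.1 ^ k := by
    have g1 : Measurable fun z : ℝ × ℝ × ℝ => F z.2.1 z.1 :=
      hF.comp ((measurable_fst.comp measurable_snd).prodMk measurable_fst)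
    have g2 : Measurable fun z : ℝ × ℝ × ℝ => F z.2.2 z.1 :=
      hF.comp ((measurable_snd.comp measurable_snd).prodMk measurable_fst)
    exact (g1.pow_const k).mul (g2.pow_const k)
  have hGb : ∀ z : ℝ × ℝ × ℝ, ‖F z.2.1 z.1 ^ k * F z.2.2 z.1 ^ k‖ ≤ M ^ k * M ^ k := by
    intro z
    rw [Real.norm_of_nonneg (mul_nonneg (Real.rpow_nonneg (h0 _ _) _) (Real.rpow_nonneg (h0 _ _) _))]
    exact mul_le_mul (hFkb _ _) (hFkb _ _) (Real.rpow_nonneg (h0 _ _) _) (Real.rpow_nonneg hM0 _)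
  have hGi : Integrable (fun z : ℝ × ℝ × ℝ => F z.2.1 z.1 ^ k * F z.2.2 z.1 ^ k) (lam.prod (ν.prod ν)) :=
    Integrable.of_bound hG.aestronglyMeasurable _ (Eventually.of_forall hGb)
  have hpt : ∀ t, (∫ x, F x t ∂ν) ^ (2 * k) ≤ ν.real Set.univ ^ (2 * k - 2) *
      ∫ q : ℝ × ℝ, F q.1 t ^ k * F q.2 t ^ k ∂(ν.prod ν) := by
    intro t
    have hI : 0 ≤ ∫ x, F x t ∂ν := integral_nonneg fun x => h0 x t
    have j1 := jensen ν hk (hFx t) (fun x => h0 x t) (fun x => hM x t)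
    have e1 : (∫ x, F x t ∂ν) ^ (2 * k) = ((∫ x, F x t ∂ν) ^ k) * ((∫ x, F x t ∂ν) ^ k) := by
      rw [two_mul, Real.rpow_add_of_nonneg hI hk0 hk0]
    have e2 : ν.real Set.univ ^ (2 * k - 2) = ν.real Set.univ ^ (k - 1) * ν.real Set.univ ^ (k - 1) := by
      rw [← Real.rpow_add_of_nonneg measureReal_nonneg (by linarith) (by linarith)]
      congr 1
      ring
    rw [e1, e2, integral_prod_mul (fun x => F x t ^ k) (fun y => F y t ^ k)]
    have j2 : 0 ≤ (∫ x, F x t ∂ν) ^ k := by positivity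
    calc (∫ x, F x t ∂ν) ^ k * (∫ x, F x t ∂ν) ^ k ≤
        (ν.real Set.univ ^ (k - 1) * ∫ x, F x t ^ k ∂ν) * (ν.real Set.univ ^ (k - 1) * ∫ x, F x t ^ k ∂ν) :=
          mul_le_mul j1 j1 j2 (j2.trans j1)
      _ = _ := by ring
  have hint1 : Integrable (fun t => ν.real Set.univ ^ (2 * k - 2) * ∫ q : ℝ × ℝ, F q.1 t ^ k * F q.2 t ^ k ∂(ν.prod ν)) lam :=
    hGi.integral_prod_left.const_mul _
  have hnn : ∀ t, 0 ≤ (∫ x, F x t ∂ν) ^ (2 * k) := fun t => Real.rpow_nonneg (integral_nonneg fun x => h0 x t) _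
  calc ∫ t, (∫ x, F x t ∂ν) ^ (2 * k) ∂lam ≤
      ∫ t, ν.real Set.univ ^ (2 * k - 2) * ∫ q : ℝ × ℝ, F q.1 t ^ k * F q.2 t ^ k ∂(ν.prod ν) ∂lam :=
        integral_mono_of_nonneg (Eventually.of_forall hnn) hint1 (Eventually.of_forall hpt)
    _ = ν.real Set.univ ^ (2 * k - 2) * ∫ t, ∫ q : ℝ × ℝ, F q.1 t ^ k * F q.2 t ^ k ∂(ν.prod ν) ∂lam := integral_const_mul _ _
    _ = _ := by
        congr 1
        exact integral_integral_swap hGi

/-- the diagonal has small mass if the atoms are small -/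
lemma diag_small (ν : Measure ℝ) [IsFiniteMeasure ν] {ε : ℝ} (hε : 0 ≤ ε) (ha : ∀ x, ν.real {x} ≤ ε) :
    (ν.prod ν).real (Set.diagonal ℝ) ≤ ε * ν.real Set.univ := by
  have h1 : (ν.prod ν) (Set.diagonal ℝ) ≤ ENNReal.ofReal (ε * ν.real Set.univ) := by
    rw [Measure.prod_apply measurableSet_diagonal]
    have h2 : ∀ x, ν (Prod.mk x ⁻¹' Set.diagonal ℝ) ≤ ENNReal.ofReal ε := by
      intro x
      have : Prod.mk x ⁻¹' Set.diagonal ℝ = {x} := by
        ext y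
        simp [eq_comm]
      rw [this, ← ofReal_measureReal]
      exact ENNReal.ofReal_le_ofReal (ha x)
    calc ∫⁻ x, ν (Prod.mk x ⁻¹' Set.diagonal ℝ) ∂ν ≤ ∫⁻ _x, ENNReal.ofReal ε ∂ν := lintegral_mono h2
      _ = ENNReal.ofReal (ε * ν.real Set.univ) := by
          rw [lintegral_const, ENNReal.ofReal_mul hε, ofReal_measureReal]
  exact ENNReal.toReal_le_of_le_ofReal (by positivity) h1

end Pool.Agent.Run7.h290.SH
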