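import Pool.Agent.Run7.h290.SH.Wa

set_option autoImplicit false

/-! The lemma of Wiener's type. -/

namespace Pool.Agent.Run7.h290.SH

open Finset Filter MeasureTheory Topology

section

variable {k a : ℝ} (hk : 1 ≤ k) (ha : 0 ≤ a) {K : Set ℝ} {lam : ℝ → Measure ℝ} [∀ T, IsFiniteMeasure (lam T)]
  {f : ℝ → ℝ → ℝ → ℂ} (hfm : ∀ᶠ T : ℝ in atTop, Measurable fun q : ℝ × ℝ => f T q.1 q.2)
  (hfb : ∀ᶠ T : ℝ in atTop, ∃ M : ℝ, ∀ x t, ‖f T x t‖ ≤ M)
  (h1 : ∀ (S : Finset ℝ) (c : ℝ → ℂ), (∀ x ∈ S, x ∈ K) →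
    Tendsto (fun T => ∫ t, ‖∑ x ∈ S, c x * f T x t‖ ^ (2 * k) ∂(lam T)) atTop (𝓝 (a * ∑ x ∈ S, ‖c x‖ ^ (2 * k))))
  (h2 : ∀ x ∈ K, ∀ y ∈ K, x ≠ y → Tendsto (fun T => ∫ t, ‖f T x t‖ ^ k * ‖f T y t‖ ^ k ∂(lam T)) atTop (𝓝 0))
  {C : ℝ} (h3 : ∀ᶠ T : ℝ in atTop, ∀ x ∈ K, ∫ t, ‖f T x t‖ ^ (2 * k) ∂(lam T) ≤ C)

include hk ha hfm hfb h1 h2 h3

/-- the part without large atoms -/
theorem small_part (ν : Measure ℝ) [IsFiniteMeasure ν] (hν : ν Kᶜ = 0) {ε : ℝ} (hε : 0 ≤ ε) (hat : ∀ x, ν.real {x} ≤ ε)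
    {τ : ℝ} (hτ : 0 < τ) : ∀ᶠ T : ℝ in atTop, ∫ t, (∫ x, ‖f T x t‖ ∂ν) ^ (2 * k) ∂(lam T) ≤
      ν.real Set.univ ^ (2 * k - 2) * (a * (ε * ν.real Set.univ)) + τ := by
  have hk0 : 0 ≤ k := by linarith
  have hae : ∀ᵐ x ∂ν, x ∈ K := by
    rw [ae_iff]
    exact hν
  have hae1 : ∀ᵐ q ∂(ν.prod ν), q.1 ∈ K := Measure.quasiMeasurePreserving_fst.ae hae
  have hae2 : ∀ᵐ q ∂(ν.prod ν), q.2 ∈ K := Measure.quasiMeasurePreserving_snd.ae hae
  have hlim : Tendsto (fun T => ∫ q : ℝ × ℝ, (∫ t, ‖f T q.1 t‖ ^ k * ‖f T q.2 t‖ ^ k ∂(lam T)) ∂(ν.prod ν)) atTop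
      (𝓝 (∫ q : ℝ × ℝ, (Set.diagonal ℝ).indicator (fun _ => a) q ∂(ν.prod ν))) := by
    refine tendsto_integral_filter_of_dominated_convergence (fun _ => C) ?_ ?_ (integrable_const _) ?_
    · filter_upwards [hfm] with T hfm
      have hG : Measurable fun z : (ℝ × ℝ) × ℝ => ‖f T z.1.1 z.2‖ ^ k * ‖f T z.1.2 z.2‖ ^ k := by
        have g1 : Measurable fun z : (ℝ × ℝ) × ℝ => f T z.1.1 z.2 :=
          hfm.comp ((measurable_fst.comp measurable_fst).prodMk measurable_snd)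
        have g2 : Measurable fun z : (ℝ × ℝ) × ℝ => f T z.1.2 z.2 :=
          hfm.comp ((measurable_snd.comp measurable_fst).prodMk measurable_snd)
        exact (g1.norm.pow_const k).mul (g2.norm.pow_const k)
      exact (hG.stronglyMeasurable.integral_prod_right (f := fun (q : ℝ × ℝ) (t : ℝ) => ‖f T q.1 t‖ ^ k * ‖f T q.2 t‖ ^ k)).aestronglyMeasurable
    · filter_upwards [hfm, hfb, h3] with T hfm hfb h3
      obtain ⟨M, hM⟩ := hfb
      filter_upwards [hae1, hae2] with q q1 q2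
      have hM0 : 0 ≤ M := (norm_nonneg _).trans (hM 0 0)
      have hi : ∀ x, Integrable (fun t => ‖f T x t‖ ^ (2 * k)) (lam T) := by
        intro x
        have hx : Measurable fun t => f T x t := hfm.comp (measurable_const.prodMk measurable_id)
        refine Integrable.of_bound (hx.norm.pow_const _).aestronglyMeasurable (M ^ (2 * k)) (Eventually.of_forall fun t => ?_)
        rw [Real.norm_of_nonneg (by positivity)]
        exact Real.rpow_le_rpow (norm_nonneg _) (hM x t) (by linarith)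
      rw [Real.norm_of_nonneg (integral_nonneg fun t => by positivity)]
      have hle : ∫ t, ‖f T q.1 t‖ ^ k * ‖f T q.2 t‖ ^ k ∂(lam T) ≤
          ∫ t, (1 / 2 : ℝ) * (‖f T q.1 t‖ ^ (2 * k) + ‖f T q.2 t‖ ^ (2 * k)) ∂(lam T) := by
        refine integral_mono_of_nonneg (Eventually.of_forall fun t => by positivity) (((hi _).add (hi _)).const_mul _)
          (Eventually.of_forall fun t => ?_)
        have e1 : ∀ z : ℂ, ‖z‖ ^ (2 * k) = (‖z‖ ^ k) ^ 2 := by
          intro z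
          rw [two_mul, Real.rpow_add_of_nonneg (norm_nonneg _) hk0 hk0, sq]
        simp only [e1]
        nlinarith [sq_nonneg (‖f T q.1 t‖ ^ k - ‖f T q.2 t‖ ^ k)]
      rw [integral_const_mul, integral_add (hi _) (hi _)] at hle
      have g1 := h3 q.1 q1
      have g2 := h3 q.2 q2
      linarith
    · filter_upwards [hae1, hae2] with q q1 q2
      by_cases hq : q.1 = q.2
      · have hmem : q ∈ Set.diagonal ℝ := hq
        rw [Set.indicator_of_mem hmem]
        have h4 := h1 {q.1} (fun _ => 1) (by intro x hx; rw [Finset.mem_singleton] at hx; rw [hx]; exact q1)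
        simp only [Finset.sum_singleton, one_mul, norm_one, Real.one_rpow, mul_one] at h4
        refine h4.congr fun T => ?_
        refine integral_congr_ae (Eventually.of_forall fun t => ?_)
        simp only
        rw [← hq, two_mul, Real.rpow_add_of_nonneg (norm_nonneg _) hk0 hk0]
      · have hmem : q ∉ Set.diagonal ℝ := hq
        rw [Set.indicator_of_notMem hmem]
        exact h2 q.1 q1 q.2 q2 hq
  have e1 : ∫ q : ℝ × ℝ, (Set.diagonal ℝ).indicator (fun _ => a) q ∂(ν.prod ν) = (ν.prod ν).real (Set.diagonal ℝ) * a := by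
    rw [integral_indicator_const _ measurableSet_diagonal, smul_eq_mul]
  rw [e1] at hlim
  have hd := diag_small ν hε hat
  obtain ⟨v, hv⟩ : ∃ v, v = ν.real Set.univ ^ (2 * k - 2) := ⟨_, rfl⟩
  have hv0 : 0 ≤ v := by rw [hv]; positivity
  have hlt : (ν.prod ν).real (Set.diagonal ℝ) * a < a * (ε * ν.real Set.univ) + τ / (v + 1) := by
    have h5 : (ν.prod ν).real (Set.diagonal ℝ) * a ≤ (ε * ν.real Set.univ) * a := mul_le_mul_of_nonneg_right hd ha
    have h6 : 0 < τ / (v + 1) := by positivity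
    linarith
  filter_upwards [hfm, hfb, hlim.eventually_le_const hlt] with T hfm hfb h4
  obtain ⟨M, hM⟩ := hfb
  have h5 := pair_bound (lam := lam T) (ν := ν) hk (F := fun x t => ‖f T x t‖) hfm.norm (fun _ _ => norm_nonneg _) hM
  refine h5.trans ?_
  rw [← hv]
  refine (mul_le_mul_of_nonneg_left h4 hv0).trans ?_
  have h6 : v * (τ / (v + 1)) ≤ τ := by
    rw [mul_div_assoc', div_le_iff₀ (by positivity)]
    nlinarith
  rw [mul_add]
  linarith

/-- the lemma of Wiener's type -/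
theorem wiener (μ : Measure ℝ) [IsFiniteMeasure μ] (hμ : μ Kᶜ = 0) {g : ℝ → ℂ} (hg : Measurable g) {M0 : ℝ}
    (hgb : ∀ x, ‖g x‖ ≤ M0) :
    Tendsto (fun T => ∫ t, ‖∫ x, g x * f T x t ∂μ‖ ^ (2 * k) ∂(lam T)) atTop
      (𝓝 (a * ∑' x : ℝ, (‖g x‖ * μ.real {x}) ^ (2 * k))) := by
  classical
  have hk0 : 0 ≤ k := by linarith
  have hp : 0 < 2 * k := by linarith
  have hM0 : 0 ≤ M0 := (norm_nonneg _).trans (hgb 0)
  -- the atoms
  have hsum : Summable fun x : ℝ => μ.real {x} := by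
    refine summable_of_sum_le (fun x => measureReal_nonneg) (c := μ.real Set.univ) fun u => ?_
    rw [sum_measureReal_singleton]
    exact measureReal_mono (Set.subset_univ _)
  obtain ⟨w, hw⟩ : ∃ w : ℝ → ℝ, ∀ x, w x = (‖g x‖ * μ.real {x}) ^ (2 * k) := ⟨_, fun _ => rfl⟩
  have hw0 : ∀ x, 0 ≤ w x := fun x => by rw [hw]; positivity
  have hwb : ∀ x, w x ≤ (M0 * μ.real Set.univ) ^ (2 * k - 1) * (M0 * μ.real {x}) := by
    intro x
    have y0 : 0 ≤ ‖g x‖ * μ.real {x} := by positivity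
    have y1 : ‖g x‖ * μ.real {x} ≤ M0 * μ.real {x} := mul_le_mul_of_nonneg_right (hgb x) measureReal_nonneg
    have y2 : ‖g x‖ * μ.real {x} ≤ M0 * μ.real Set.univ :=
      y1.trans (mul_le_mul_of_nonneg_left (measureReal_mono (Set.subset_univ _)) hM0)
    rw [hw]
    have e1 : (‖g x‖ * μ.real {x}) ^ (2 * k) = (‖g x‖ * μ.real {x}) ^ (2 * k - 1) * (‖g x‖ * μ.real {x}) := by
      conv_rhs => rw [← Real.rpow_one (‖g x‖ * μ.real {x})]
      rw [← Real.rpow_mul y0, one_mul, ← Real.rpow_add_of_nonneg y0 (by linarith) (by norm_num)]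
      congr 1
      ring
    rw [e1]
    exact mul_le_mul (Real.rpow_le_rpow y0 y2 (by linarith)) y1 y0 (by positivity)
  have hws : Summable w := Summable.of_nonneg_of_le hw0 hwb ((hsum.mul_left M0).mul_left _)
  have hwe : (fun x : ℝ => (‖g x‖ * μ.real {x}) ^ (2 * k)) = w := by
    funext x
    rw [hw]
  rw [hwe]
  obtain ⟨L, hL⟩ : ∃ L, L = ∑' x, w x := ⟨_, rfl⟩
  have hL0 : 0 ≤ L := by rw [hL]; exact tsum_nonneg hw0
  rw [← hL]
  have hwL : HasSum w L := by rw [hL]; exact hws.hasSum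
  rw [Metric.tendsto_nhds]
  intro ε hε
  -- the parameters
  obtain ⟨η, hη⟩ : ∃ η, η = ε / (8 * (a * L + a + 1)) := ⟨_, rfl⟩
  have hη0 : 0 < η := by rw [hη]; positivity
  obtain ⟨Cη, hCη0, hCη⟩ := pow_perturb hp hη0
  obtain ⟨U, hU⟩ : ∃ U, U = μ.real Set.univ := ⟨_, rfl⟩
  have hU0 : 0 ≤ U := by rw [hU]; exact measureReal_nonneg
  obtain ⟨Q, hQ⟩ : ∃ Q, Q = Cη * M0 ^ (2 * k) := ⟨_, rfl⟩
  have hQ0 : 0 ≤ Q := by rw [hQ]; positivity
  obtain ⟨e1, he1⟩ : ∃ e1, e1 = ε / (8 * (Q + 1) * (U ^ (2 * k - 2) * (a * U) + 1)) := ⟨_, rfl⟩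
  have he10 : 0 < e1 := by rw [he1]; positivity
  -- the finite set of atoms
  have hfin : {x : ℝ | ¬ μ.real {x} < e1}.Finite := by
    have := hsum.tendsto_cofinite_zero.eventually_lt_const he10
    exact this
  obtain ⟨S0, hS0⟩ : ∃ S0 : Finset ℝ, ∀ S, S0 ⊆ S → |∑ x ∈ S, w x - L| < ε / (8 * (a + 1)) ∧ |∑ x ∈ S, w x - L| < 1 := by
    have h5 := (Metric.tendsto_nhds.mp hwL) (min (ε / (8 * (a + 1))) 1) (by positivity)
    rw [SummationFilter.unconditional_filter, Filter.eventually_atTop] at h5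
    obtain ⟨S0, h6⟩ := h5
    refine ⟨S0, fun S hS => ?_⟩
    have h7 := h6 S hS
    rw [Real.dist_eq] at h7
    exact ⟨h7.trans_le (min_le_left _ _), h7.trans_le (min_le_right _ _)⟩
  obtain ⟨S, hSd⟩ : ∃ S : Finset ℝ, S = S0 ∪ hfin.toFinset := ⟨_, rfl⟩
  have hS1 : S0 ⊆ S := by rw [hSd]; exact Finset.subset_union_left
  have hS2 : ∀ x, x ∉ S → μ.real {x} ≤ e1 := by
    intro x hx
    by_contra hcon
    push Not at hcon
    apply hx
    rw [hSd, Finset.mem_union]
    right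
    rw [Set.Finite.mem_toFinset]
    exact not_lt.mpr hcon.le
  obtain ⟨hSa, hSb⟩ := hS0 S hS1
  -- the main part
  have hKat : ∀ x, x ∉ K → μ.real {x} = 0 := by
    intro x hx
    rw [measureReal_eq_zero_iff]
    exact measure_mono_null (Set.singleton_subset_iff.mpr hx) hμ
  obtain ⟨c, hc⟩ : ∃ c : ℝ → ℂ, ∀ x, c x = ((μ.real {x} : ℝ) : ℂ) * g x := ⟨_, fun _ => rfl⟩
  have hcw : ∀ x, ‖c x‖ ^ (2 * k) = w x := by
    intro x
    rw [hc, hw, norm_mul, Complex.norm_real, Real.norm_of_nonneg measureReal_nonneg, mul_comm]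
  have hcK : ∀ x, x ∉ K → c x = 0 := by
    intro x hx
    rw [hc, hKat x hx]
    simp
  have hP : Tendsto (fun T => ∫ t, ‖∑ x ∈ S, c x * f T x t‖ ^ (2 * k) ∂(lam T)) atTop (𝓝 (a * ∑ x ∈ S, w x)) := by
    have h5 := h1 (S.filter fun x => x ∈ K) c (by intro x hx; exact (Finset.mem_filter.mp hx).2)
    have e2 : ∀ T t, ∑ x ∈ S.filter (fun x => x ∈ K), c x * f T x t = ∑ x ∈ S, c x * f T x t := by
      intro T t
      refine Finset.sum_filter_of_ne fun x _ hne => ?_
      by_contra hcon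
      exact hne (by rw [hcK x hcon, zero_mul])
    have e3 : ∑ x ∈ S.filter (fun x => x ∈ K), ‖c x‖ ^ (2 * k) = ∑ x ∈ S, w x := by
      simp_rw [hcw]
      refine Finset.sum_filter_of_ne fun x _ hne => ?_
      by_contra hcon
      apply hne
      rw [← hcw, hcK x hcon, norm_zero, Real.zero_rpow hp.ne']
    simp_rw [e2] at h5
    rw [e3] at h5
    exact h5
  -- the small part
  obtain ⟨ν, hνd⟩ : ∃ ν, ν = μ.restrict ((S : Set ℝ)ᶜ) := ⟨_, rfl⟩
  have hνf : IsFiniteMeasure ν := by rw [hνd]; infer_instance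
  have hSm : MeasurableSet ((S : Set ℝ)ᶜ) := S.measurableSet.compl
  have hνK : ν Kᶜ = 0 := by
    rw [hνd]
    exact le_antisymm ((Measure.restrict_apply_le _ _).trans hμ.le) bot_le
  have hνat : ∀ x, ν.real {x} ≤ e1 := by
    intro x
    rw [hνd, measureReal_def, Measure.restrict_apply (measurableSet_singleton x)]
    by_cases hx : x ∈ S
    · have : ({x} : Set ℝ) ∩ ((S : Set ℝ)ᶜ) = ∅ := by
        ext y
        simp only [Set.mem_inter_iff, Set.mem_singleton_iff, Set.mem_compl_iff, Finset.mem_coe, Set.mem_empty_iff_false, iff_false,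
          not_and, not_not]
        rintro rfl
        exact hx
      rw [this]
      simp
      exact he10.le
    · refine le_trans ?_ (hS2 x hx)
      rw [measureReal_def]
      exact ENNReal.toReal_mono (measure_ne_top _ _) (measure_mono Set.inter_subset_left)
  have hνU : ν.real Set.univ ≤ U := by
    rw [hνd, hU, measureReal_def, measureReal_def]
    exact ENNReal.toReal_mono (measure_ne_top _ _) (Measure.restrict_apply_le _ _)
  obtain ⟨τ, hτ⟩ : ∃ τ, τ = ε / (8 * (Q + 1)) := ⟨_, rfl⟩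
  have hτ0 : 0 < τ := by rw [hτ]; positivity
  have hX := small_part hk ha hfm hfb h1 h2 h3 ν hνK he10.le hνat hτ0
  have hX2 : ν.real Set.univ ^ (2 * k - 2) * (a * (e1 * ν.real Set.univ)) + τ ≤ 2 * (ε / (8 * (Q + 1))) := by
    have h5 : ν.real Set.univ ^ (2 * k - 2) * (a * (e1 * ν.real Set.univ)) ≤ U ^ (2 * k - 2) * (a * (e1 * U)) := by
      refine mul_le_mul (Real.rpow_le_rpow measureReal_nonneg hνU (by linarith)) ?_ (by positivity) (by positivity)
      exact mul_le_mul_of_nonneg_left (mul_le_mul_of_nonneg_left hνU he10.le) ha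
    have h6 : U ^ (2 * k - 2) * (a * (e1 * U)) = e1 * (U ^ (2 * k - 2) * (a * U)) := by ring
    have h7 : e1 * (U ^ (2 * k - 2) * (a * U)) ≤ ε / (8 * (Q + 1)) := by
      rw [he1, div_mul_eq_mul_div, div_le_div_iff₀ (by positivity) (by positivity)]
      have : 0 ≤ U ^ (2 * k - 2) * (a * U) := by positivity
      nlinarith [mul_nonneg hε.le (by positivity : 0 ≤ 8 * (Q + 1))]
    rw [hτ]
    linarith
  have hSwL : a * ∑ x ∈ S, w x ≤ a * L + a := by
    have h5 := (abs_lt.mp hSb).2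
    have h6 : a * ∑ x ∈ S, w x ≤ a * (L + 1) := mul_le_mul_of_nonneg_left (by linarith) ha
    linarith
  have hSwL2 : |a * ∑ x ∈ S, w x - a * L| ≤ ε / 8 := by
    rw [← mul_sub, abs_mul, abs_of_nonneg ha]
    have h5 : a * |∑ x ∈ S, w x - L| ≤ a * (ε / (8 * (a + 1))) := mul_le_mul_of_nonneg_left hSa.le ha
    refine h5.trans ?_
    rw [mul_div_assoc', div_le_div_iff₀ (by positivity) (by norm_num)]
    nlinarith
  have hPb := (Metric.tendsto_nhds.mp hP) (min (ε / 8) 1) (by positivity)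
  filter_upwards [hPb, hX, hfm, hfb] with T g1 g2 hfm hfb
  obtain ⟨M, hM⟩ := hfb
  have hM1 : 0 ≤ M := (norm_nonneg _).trans (hM 0 0)
  rw [Real.dist_eq] at g1 ⊢
  have g3 := g1.trans_le (min_le_left _ _)
  have g4 := g1.trans_le (min_le_right _ _)
  -- the parts
  obtain ⟨A, hA⟩ : ∃ A : ℝ → ℂ, ∀ t, A t = ∫ x, g x * f T x t ∂μ := ⟨_, fun _ => rfl⟩
  obtain ⟨P, hPd⟩ : ∃ P : ℝ → ℂ, ∀ t, P t = ∑ x ∈ S, c x * f T x t := ⟨_, fun _ => rfl⟩
  obtain ⟨X, hXd⟩ : ∃ X : ℝ → ℂ, ∀ t, X t = ∫ x, g x * f T x t ∂ν := ⟨_, fun _ => rfl⟩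
  obtain ⟨Y, hYd⟩ : ∃ Y : ℝ → ℝ, ∀ t, Y t = ∫ x, ‖f T x t‖ ∂ν := ⟨_, fun _ => rfl⟩
  have hfx : ∀ t, Measurable fun x => f T x t := fun t => hfm.comp (measurable_id.prodMk measurable_const)
  have hft : ∀ x, Measurable fun t => f T x t := fun x => hfm.comp (measurable_const.prodMk measurable_id)
  have hgf : ∀ x t, ‖g x * f T x t‖ ≤ M0 * M := fun x t => by
    rw [norm_mul]
    exact mul_le_mul (hgb x) (hM x t) (norm_nonneg _) hM0
  have hdec : ∀ t, A t = P t + X t := by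
    intro t
    have hi : Integrable (fun x => g x * f T x t) μ :=
      Integrable.of_bound (hg.mul (hfx t)).aestronglyMeasurable (M0 * M) (Eventually.of_forall fun x => hgf x t)
    have h5 := integral_add_compl S.measurableSet hi
    rw [setIntegral_finset (hf := hi.integrableOn)] at h5
    rw [hA, ← h5, hPd, hXd, hνd]
    congr 1
    refine Finset.sum_congr rfl fun x _ => ?_
    rw [hc, Complex.real_smul]
    ring
  have hXY : ∀ t, ‖X t‖ ≤ M0 * Y t := by
    intro t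
    rw [hXd, hYd, ← integral_const_mul]
    have hi : Integrable (fun x => ‖f T x t‖) ν :=
      Integrable.of_bound (hfx t).norm.aestronglyMeasurable M (Eventually.of_forall fun x => by
        rw [norm_norm]
        exact hM x t)
    refine norm_integral_le_of_norm_le (hi.const_mul _) (Eventually.of_forall fun x => ?_)
    rw [norm_mul]
    exact mul_le_mul_of_nonneg_right (hgb x) (norm_nonneg _)
  have hY0 : ∀ t, 0 ≤ Y t := fun t => by rw [hYd]; exact integral_nonneg fun x => norm_nonneg _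
  have hYb : ∀ t, Y t ≤ M * ν.real Set.univ := by
    intro t
    rw [hYd]
    have h5 : ∫ x, ‖f T x t‖ ∂ν ≤ ∫ _x, M ∂ν :=
      integral_mono_of_nonneg (Eventually.of_forall fun x => norm_nonneg _) (integrable_const _) (Eventually.of_forall fun x => hM x t)
    rw [integral_const, smul_eq_mul, mul_comm] at h5
    exact h5
  -- integrability
  have hAm : Measurable A := by
    have h5 : Measurable fun q : ℝ × ℝ => g q.1 * f T q.1 q.2 := (hg.comp measurable_fst).mul hfm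
    have h6 := h5.stronglyMeasurable.integral_prod_left (f := fun x t => g x * f T x t) (μ := μ)
    have h7 : A = fun t => ∫ x, g x * f T x t ∂μ := funext hA
    rw [h7]
    exact h6.measurable
  have hYm : Measurable Y := by
    have h6 := hfm.norm.stronglyMeasurable.integral_prod_left (f := fun x t => ‖f T x t‖) (μ := ν)
    have h7 : Y = fun t => ∫ x, ‖f T x t‖ ∂ν := funext hYd
    rw [h7]
    exact h6.measurable
  have hPm : Measurable P := by
    have h7 : P = fun t => ∑ x ∈ S, c x * f T x t := funext hPd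
    rw [h7]
    exact Finset.measurable_sum _ fun x _ => (hft x).const_mul _
  have hAb : ∀ t, ‖A t‖ ≤ M0 * M * μ.real Set.univ := by
    intro t
    rw [hA]
    exact norm_integral_le_of_norm_le_const (Eventually.of_forall fun x => hgf x t)
  have hPbd : ∀ t, ‖P t‖ ≤ ∑ x ∈ S, ‖c x‖ * M := by
    intro t
    rw [hPd]
    refine (norm_sum_le _ _).trans (Finset.sum_le_sum fun x _ => ?_)
    rw [norm_mul]
    exact mul_le_mul_of_nonneg_left (hM x t) (norm_nonneg _)
  have iA : Integrable (fun t => ‖A t‖ ^ (2 * k)) (lam T) := by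
    refine Integrable.of_bound (hAm.norm.pow_const _).aestronglyMeasurable ((M0 * M * μ.real Set.univ) ^ (2 * k))
      (Eventually.of_forall fun t => ?_)
    rw [Real.norm_of_nonneg (by positivity)]
    exact Real.rpow_le_rpow (norm_nonneg _) (hAb t) hp.le
  have iP : Integrable (fun t => ‖P t‖ ^ (2 * k)) (lam T) := by
    refine Integrable.of_bound (hPm.norm.pow_const _).aestronglyMeasurable ((∑ x ∈ S, ‖c x‖ * M) ^ (2 * k))
      (Eventually.of_forall fun t => ?_)
    rw [Real.norm_of_nonneg (by positivity)]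
    exact Real.rpow_le_rpow (norm_nonneg _) (hPbd t) hp.le
  have iY : Integrable (fun t => Y t ^ (2 * k)) (lam T) := by
    refine Integrable.of_bound (hYm.pow_const _).aestronglyMeasurable ((M * ν.real Set.univ) ^ (2 * k))
      (Eventually.of_forall fun t => ?_)
    rw [Real.norm_of_nonneg (Real.rpow_nonneg (hY0 t) _)]
    exact Real.rpow_le_rpow (hY0 t) (hYb t) hp.le
  have hdiff : |∫ t, ‖A t‖ ^ (2 * k) ∂(lam T) - ∫ t, ‖P t‖ ^ (2 * k) ∂(lam T)| ≤
      η * (∫ t, ‖P t‖ ^ (2 * k) ∂(lam T)) + Q * ∫ t, Y t ^ (2 * k) ∂(lam T) := by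
    have iPY : Integrable (fun t => η * ‖P t‖ ^ (2 * k) + Q * Y t ^ (2 * k)) (lam T) := (iP.const_mul _).add (iY.const_mul _)
    rw [← integral_sub iA iP, ← integral_const_mul, ← integral_const_mul, ← integral_add (iP.const_mul _) (iY.const_mul _),
      ← Real.norm_eq_abs]
    refine norm_integral_le_of_norm_le iPY (Eventually.of_forall fun t => ?_)
    rw [Real.norm_eq_abs, hdec]
    refine (hCη (P t) (X t)).trans ?_
    have h5 : ‖X t‖ ^ (2 * k) ≤ M0 ^ (2 * k) * Y t ^ (2 * k) := by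
      rw [← Real.mul_rpow hM0 (hY0 t)]
      exact Real.rpow_le_rpow (norm_nonneg _) (hXY t) hp.le
    have h6 : Cη * ‖X t‖ ^ (2 * k) ≤ Q * Y t ^ (2 * k) := by
      rw [hQ, mul_assoc]
      exact mul_le_mul_of_nonneg_left h5 hCη0
    linarith
  simp_rw [← hPd] at g1 g3 g4
  simp_rw [← hYd] at g2
  simp_rw [← hA]
  have k1 : ∫ t, ‖P t‖ ^ (2 * k) ∂(lam T) ≤ a * L + a + 1 := by
    have := (abs_lt.mp g4).2
    linarith
  have k2 : η * (∫ t, ‖P t‖ ^ (2 * k) ∂(lam T)) ≤ ε / 8 := by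
    refine (mul_le_mul_of_nonneg_left k1 hη0.le).trans ?_
    rw [hη, div_mul_eq_mul_div, div_le_div_iff₀ (by positivity) (by norm_num)]
    linarith
  have k3 : Q * ∫ t, Y t ^ (2 * k) ∂(lam T) ≤ ε / 4 := by
    refine (mul_le_mul_of_nonneg_left (g2.trans hX2) hQ0).trans ?_
    have : Q * (2 * (ε / (8 * (Q + 1)))) = (2 * Q * ε) / (8 * (Q + 1)) := by ring
    rw [this, div_le_div_iff₀ (by positivity) (by norm_num)]
    nlinarith
  have k4 := abs_le.mp hdiff
  have k5 := abs_lt.mp g3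
  have k6 := abs_le.mp hSwL2
  rw [abs_lt]
  constructor <;> linarith

end

end Pool.Agent.Run7.h290.SH
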