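import Pool.Agent.Run7.h290.SH.Wb
import Pool.Agent.Run7.h290.SH.M

set_option autoImplicit false

/-! Averages of zeta over measures: the setting, and the case of the whole interval. -/

namespace Pool.Agent.Run7.h290.SH

open Finset Filter MeasureTheory Topology Complex
open Pool.Agent.N748.MG Pool.Agent.N748.MJ Pool.Agent.N748.MJ.SM
open Pool.Agent.H306R2 (aF_pos)

/-- the normalised measure on `[0, T]` -/
noncomputable def lam (k δ T : ℝ) : Measure ℝ := ENNReal.ofReal ((2 * δ) ^ (k ^ 2) * (1 / T)) • (volume : Measure ℝ).restrict (Set.Icc 0 T)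

instance (k δ T : ℝ) : IsFiniteMeasure (lam k δ T) := by
  unfold lam
  exact Measure.smul_finite _ ENNReal.ofReal_ne_top

lemma lam_int {k δ T : ℝ} (hδ : 0 < δ) (hT : 0 < T) (F : ℝ → ℝ) :
    ∫ t, F t ∂(lam k δ T) = (2 * δ) ^ (k ^ 2) * ((1 / T) * ∫ t in Set.Icc 0 T, F t) := by
  unfold lam
  rw [integral_smul_measure, ENNReal.toReal_ofReal (by positivity), smul_eq_mul, mul_assoc]

lemma sum_fin (S : Finset ℝ) {M : Type*} [AddCommMonoid M] (F : ℝ → M) :
    ∑ x ∈ S, F x = ∑ j : Fin S.card, F (S.equivFin.symm j) := by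
  rw [← Finset.sum_coe_sort S F]
  exact (Equiv.sum_comp S.equivFin.symm (fun x : S => F x)).symm

lemma const_adm {d : ℝ → ℝ} (hd : Ad d) {u : ℝ} (hu : u ≠ 0) : Tendsto (fun T => d T * Zo (d T) u) atTop (𝓝 0) := by
  refine adm_shift (u := fun _ => u) (B := |u|) hd.pos hd.t0 (Eventually.of_forall fun _ => le_rfl) ?_
  have h1 : Tendsto (fun T => (d T)⁻¹) atTop atTop :=
    tendsto_inv_nhdsGT_zero.comp (tendsto_nhdsWithin_iff.mpr ⟨hd.t0, hd.pos.mono fun T hT => hT⟩)
  have h2 := h1.const_mul_atTop (abs_pos.mpr hu)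
  exact h2

lemma const_small {m : ℕ} (x : Fin m → ℝ) : ∀ᶠ T : ℝ in atTop, ∀ j, |x j| ≤ T ^ ((1:ℝ) / 2) := by
  rw [Filter.eventually_all]
  intro j
  exact (tendsto_rpow_atTop (by norm_num)).eventually_ge_atTop _

/-- the values on the square -/
noncomputable def fz (B δ T x t : ℝ) : ℂ :=
  (Set.Icc (-B) B ×ˢ Set.Icc 0 T).indicator (fun q : ℝ × ℝ => zj δ q.2 q.1) (x, t)

lemma zj_jcont {δ : ℝ} (h0 : δ ≤ 1 / 16) : Continuous fun q : ℝ × ℝ => zj δ q.2 q.1 := by
  have h1 : Continuous fun t : ℝ => zj δ t 0 := zj_cont h0 0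
  have h2 : (fun q : ℝ × ℝ => zj δ q.2 q.1) = fun q : ℝ × ℝ => zj δ (q.2 + q.1) 0 := by
    funext q
    unfold zj
    rw [add_zero]
  rw [h2]
  exact h1.comp (by fun_prop)

lemma fz_meas {B δ T : ℝ} (h0 : δ ≤ 1 / 16) : Measurable fun q : ℝ × ℝ => fz B δ T q.1 q.2 :=
  (zj_jcont h0).measurable.indicator (measurableSet_Icc.prod measurableSet_Icc)

lemma fz_bd {B δ T : ℝ} (h0 : δ ≤ 1 / 16) : ∃ M : ℝ, ∀ x t, ‖fz B δ T x t‖ ≤ M := by
  obtain ⟨M, hM⟩ := (isCompact_Icc.prod isCompact_Icc : IsCompact (Set.Icc (-B) B ×ˢ Set.Icc (0:ℝ) T)).exists_bound_of_continuousOn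
    (zj_jcont h0).continuousOn
  refine ⟨|M|, fun x t => ?_⟩
  unfold fz
  by_cases hq : (x, t) ∈ Set.Icc (-B) B ×ˢ Set.Icc (0:ℝ) T
  · rw [Set.indicator_of_mem hq]
    exact (hM _ hq).trans (le_abs_self M)
  · rw [Set.indicator_of_notMem hq, norm_zero]
    exact abs_nonneg _

lemma fz_eq {B δ T x t : ℝ} (hx : x ∈ Set.Icc (-B) B) (ht : t ∈ Set.Icc 0 T) : fz B δ T x t = zj δ t x := by
  unfold fz
  rw [Set.indicator_of_mem (Set.mk_mem_prod hx ht)]

/-- averages over measures, whole interval -/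
theorem avg_full {d : ℝ → ℝ} (hd : Ad d) {k : ℝ} (hk : 1 ≤ k) (hk2 : k ≤ 2) {B : ℝ} (hB : 0 ≤ B) (μ : Measure ℝ)
    [IsFiniteMeasure μ] (hμ : μ (Set.Icc (-B) B)ᶜ = 0) {g : ℝ → ℂ} (hg : Measurable g) {M0 : ℝ} (hgb : ∀ x, ‖g x‖ ≤ M0) :
    Tendsto (fun T => (2 * d T) ^ (k ^ 2) * ((1 / T) * ∫ t in Set.Icc 0 T, ‖∫ x, g x * zj (d T) t x ∂μ‖ ^ (2 * k))) atTop
      (𝓝 ((aC k).re * ∑' x : ℝ, (‖g x‖ * μ.real {x}) ^ (2 * k))) := by
  have hk0 : 0 < k := by linarith
  have hap : 0 ≤ (aC k).re := by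
    rw [aC_aF]
    exact (aF_pos hk0).le
  have h16 : ∀ᶠ T : ℝ in atTop, d T ≤ 1 / 16 := hd.t0.eventually_le_const (by norm_num)
  have hmain := wiener (k := k) (a := (aC k).re) hk hap (K := Set.Icc (-B) B) (lam := fun T => lam k (d T) T)
    (f := fun T x t => fz B (d T) T x t) (C := (aC k).re + 1)
    (h16.mono fun T hT => fz_meas hT) (h16.mono fun T hT => fz_bd hT) ?_ ?_ ?_ μ hμ hg hgb
  · refine hmain.congr' ?_
    filter_upwards [hd.pos, eventually_gt_atTop 0] with T g1 hT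
    rw [lam_int g1 hT]
    congr 2
    refine setIntegral_congr_fun measurableSet_Icc fun t ht => ?_
    congr 2
    refine integral_congr_ae ?_
    have hae : ∀ᵐ x ∂μ, x ∈ Set.Icc (-B) B := by
      rw [ae_iff]
      exact hμ
    filter_upwards [hae] with x hx
    rw [fz_eq hx ht]
  · intro S c hS
    have hs : ∀ i l : Fin S.card, i ≠ l → Tendsto (fun T => d T * Zo (d T) ((S.equivFin.symm i : ℝ) - (S.equivFin.symm l : ℝ))) atTop (𝓝 0) := by
      intro i l hil
      refine const_adm hd (sub_ne_zero.mpr fun hcon => hil ?_)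
      exact S.equivFin.symm.injective (Subtype.ext hcon)
    have h1 := (lin_full (h := fun _ j => (S.equivFin.symm j : ℝ)) hd hs (B := B) hB
      (Eventually.of_forall fun T j => abs_le.mpr (hS _ (S.equivFin.symm j).2))
      (fun j => c (S.equivFin.symm j)) hk0 hk2).2
    rw [← sum_fin S fun x => ‖c x‖ ^ (2 * k)] at h1
    refine h1.congr' ?_
    filter_upwards [hd.pos, eventually_gt_atTop 0] with T g1 hT
    rw [lam_int g1 hT]
    congr 2
    refine setIntegral_congr_fun measurableSet_Icc fun t ht => ?_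
    congr 2
    rw [sum_fin S fun x => c x * fz B (d T) T x t]
    refine Finset.sum_congr rfl fun j _ => ?_
    rw [fz_eq (hS _ (S.equivFin.symm j).2) ht]
  · intro x hx y hy hxy
    have hs : ∀ i l : Fin 2, i ≠ l → Tendsto (fun T => d T * Zo (d T) ((![x, y] : Fin 2 → ℝ) i - (![x, y] : Fin 2 → ℝ) l)) atTop (𝓝 0) := by
      intro i l hil
      refine const_adm hd (sub_ne_zero.mpr fun hcon => ?_)
      fin_cases i <;> fin_cases l <;> simp_all
    have hc : Continuous fun z : Fin 2 → ℂ => ‖z 0‖ ^ k * ‖z 1‖ ^ k :=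
      ((continuous_apply 0).norm.rpow_const fun _ => Or.inr hk0.le).mul ((continuous_apply 1).norm.rpow_const fun _ => Or.inr hk0.le)
    have hH : Hom (2 * k) fun z : Fin 2 → ℂ => ‖z 0‖ ^ k * ‖z 1‖ ^ k := by
      intro r hr z
      simp only
      rw [norm_mul, norm_mul, Complex.norm_real, Real.norm_of_nonneg hr.le, Real.mul_rpow hr.le (norm_nonneg _),
        Real.mul_rpow hr.le (norm_nonneg _)]
      have : r ^ (2 * k) = r ^ k * r ^ k := by
        rw [← Real.rpow_add hr]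
        ring_nf
      rw [this]
      ring
    have h1 := hom_full (h := fun _ => (![x, y] : Fin 2 → ℝ)) hd hs (B := B) hB
      (Eventually.of_forall fun T j => abs_le.mpr (by fin_cases j <;> simp_all)) hc hk0 hk2 hH
    have h2 : ∑ j : Fin 2, axm (fun z : Fin 2 → ℂ => ‖z 0‖ ^ k * ‖z 1‖ ^ k) j = 0 := by
      refine Finset.sum_eq_zero fun j _ => ?_
      unfold axm
      have : ∀ θ : ℝ, (fun z : Fin 2 → ℂ => ‖z 0‖ ^ k * ‖z 1‖ ^ k) (Pi.single j (Complex.exp (2 * Real.pi * I * θ))) = 0 := by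
        intro θ
        fin_cases j <;> simp [Real.zero_rpow hk0.ne']
      simp_rw [this]
      simp
    rw [h2, mul_zero] at h1
    refine h1.congr' ?_
    filter_upwards [hd.pos, eventually_gt_atTop 0] with T g1 hT
    rw [lam_int g1 hT]
    congr 2
    refine setIntegral_congr_fun measurableSet_Icc fun t ht => ?_
    rw [fz_eq hx ht, fz_eq hy ht]
    rfl
  · obtain ⟨U, hU, hUb⟩ := full_up hd hk0 hk2 hB
    filter_upwards [hUb, hU.eventually_le_const (lt_add_one _), hd.pos, eventually_gt_atTop 0] with T g1 g2 g3 hT x hx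
    rw [lam_int g3 hT]
    refine le_trans (le_of_eq ?_) ((g1 x (abs_le.mpr hx)).trans g2)
    congr 2
    refine setIntegral_congr_fun measurableSet_Icc fun t ht => ?_
    rw [fz_eq hx ht]
    rfl

end Pool.Agent.Run7.h290.SH
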