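import Pool.Agent.Run7.h290.SH.Wc

set_option autoImplicit false

/-! Averages of zeta over measures: all orders, without the very large values. -/

namespace Pool.Agent.Run7.h290.SH

open Finset Filter MeasureTheory Topology Complex
open Pool.Agent.N748.MG Pool.Agent.N748.MJ Pool.Agent.N748.MJ.SM
open Pool.Agent.H306R2 (aF_pos)

/-- the truncated values -/
noncomputable def tz (V δ s : ℝ) : ℂ := {s : ℝ | mz δ s ≤ (2 * δ) ^ (-V)}.indicator (fun s => riemannZeta (pw δ s)) s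

lemma lev_meas {V δ : ℝ} (h0 : δ ≤ 1 / 16) : MeasurableSet {s : ℝ | mz δ s ≤ (2 * δ) ^ (-V)} :=
  measurableSet_le (TMA.cont h0).measurable measurable_const

lemma tz_meas {V δ : ℝ} (h0 : δ ≤ 1 / 16) : Measurable (tz V δ) := by
  have h1 : Measurable fun s : ℝ => riemannZeta (pw δ s) := by
    have := (zj_cont h0 0).measurable
    unfold zj at this
    simpa using this
  exact h1.indicator (lev_meas h0)

lemma tz_bd {V δ : ℝ} (hδ : 0 < δ) (s : ℝ) : ‖tz V δ s‖ ≤ (2 * δ) ^ (-V) := by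
  unfold tz
  by_cases hs : s ∈ {s : ℝ | mz δ s ≤ (2 * δ) ^ (-V)}
  · rw [Set.indicator_of_mem hs]
    exact hs
  · rw [Set.indicator_of_notMem hs, norm_zero]
    positivity

lemma tz_of_le {V δ s : ℝ} (hs : mz δ s ≤ (2 * δ) ^ (-V)) : tz V δ s = riemannZeta (pw δ s) :=
  Set.indicator_of_mem (s := {s : ℝ | mz δ s ≤ (2 * δ) ^ (-V)}) hs _

lemma tz_of_lt {V δ s : ℝ} (hs : ¬ mz δ s ≤ (2 * δ) ^ (-V)) : tz V δ s = 0 :=
  Set.indicator_of_notMem (s := {s : ℝ | mz δ s ≤ (2 * δ) ^ (-V)}) hs _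

/-- the truncated values on the square -/
noncomputable def ft (V B δ T x t : ℝ) : ℂ :=
  (Set.Icc (-B) B ×ˢ Set.Icc 0 T).indicator (fun q : ℝ × ℝ => tz V δ (q.2 + q.1)) (x, t)

lemma ft_meas {V B δ T : ℝ} (h0 : δ ≤ 1 / 16) : Measurable fun q : ℝ × ℝ => ft V B δ T q.1 q.2 :=
  ((tz_meas h0).comp (measurable_snd.add measurable_fst)).indicator (measurableSet_Icc.prod measurableSet_Icc)

lemma ft_bd {V B δ T : ℝ} (hδ : 0 < δ) : ∃ M : ℝ, ∀ x t, ‖ft V B δ T x t‖ ≤ M := by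
  refine ⟨(2 * δ) ^ (-V), fun x t => ?_⟩
  unfold ft
  by_cases hq : (x, t) ∈ Set.Icc (-B) B ×ˢ Set.Icc (0:ℝ) T
  · rw [Set.indicator_of_mem hq]
    exact tz_bd hδ _
  · rw [Set.indicator_of_notMem hq, norm_zero]
    positivity

lemma ft_eq {V B δ T x t : ℝ} (hx : x ∈ Set.Icc (-B) B) (ht : t ∈ Set.Icc 0 T) : ft V B δ T x t = tz V δ (t + x) := by
  unfold ft
  rw [Set.indicator_of_mem (Set.mk_mem_prod hx ht)]

lemma Gs_one (V u δ T : ℝ) : Gs V (fun _ : Fin 1 => u) δ T = Set.Icc 0 T ∩ {t : ℝ | mz δ (t + u) ≤ (2 * δ) ^ (-V)} := by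
  ext t
  simp [Gs]

lemma tz_int {k V δ T : ℝ} (hk : 0 < k) (h0 : δ ≤ 1 / 16) (u : ℝ) :
    ∫ t in Set.Icc 0 T, ‖tz V δ (t + u)‖ ^ (2 * k) = ∫ t in Gs V (fun _ : Fin 1 => u) δ T, mz δ (t + u) ^ (2 * k) := by
  have hm : MeasurableSet {t : ℝ | mz δ (t + u) ≤ (2 * δ) ^ (-V)} :=
    measurableSet_le (((TMA.cont h0).comp (by fun_prop : Continuous fun t : ℝ => t + u)).measurable) measurable_const
  rw [Gs_one, ← setIntegral_indicator hm]
  refine setIntegral_congr_fun measurableSet_Icc fun t _ => ?_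
  by_cases ht : mz δ (t + u) ≤ (2 * δ) ^ (-V)
  · rw [Set.indicator_of_mem (s := {t : ℝ | mz δ (t + u) ≤ (2 * δ) ^ (-V)}) ht]
    rw [tz_of_le ht]
    rfl
  · rw [Set.indicator_of_notMem (s := {t : ℝ | mz δ (t + u) ≤ (2 * δ) ^ (-V)}) ht]
    rw [tz_of_lt ht, norm_zero, Real.zero_rpow (by linarith)]

section

variable {d : ℝ → ℝ} (hd : Ad d) {k V : ℝ} (hk : 0 < k) (hV : k < V)

include hd hk hV

/-- one shift -/
lemma one_lim {u : ℝ → ℝ} (hu : ∀ᶠ T : ℝ in atTop, |u T| ≤ T ^ ((1:ℝ) / 2)) :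
    Tendsto (fun T => (2 * d T) ^ (k ^ 2) * ((1 / T) * ∫ t in Set.Icc 0 T, ‖tz V (d T) (t + u T)‖ ^ (2 * k))) atTop
      (𝓝 (aC k).re) := by
  have h1 := lim_one (m := 1) (h := fun T _ => u T) jmF posF LZB.main hd (hu.mono fun T hT _ => hT) hk.le hV 0
  refine h1.congr' ?_
  filter_upwards [hd.t0.eventually_le_const (show (0:ℝ) < 1 / 16 by norm_num)] with T g4
  rw [tz_int hk g4]

/-- uniformity in the shift -/
lemma one_sup {B : ℝ} (hB : 0 ≤ B) : ∀ᶠ T : ℝ in atTop, ∀ u ∈ Set.Icc (-B) B,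
    (2 * d T) ^ (k ^ 2) * ((1 / T) * ∫ t in Set.Icc 0 T, ‖tz V (d T) (t + u)‖ ^ (2 * k)) ≤ (aC k).re + 1 := by
  classical
  obtain ⟨E, hE⟩ : ∃ E : ℝ → ℝ → ℝ, ∀ T u, E T u = (2 * d T) ^ (k ^ 2) * ((1 / T) * ∫ t in Set.Icc 0 T, ‖tz V (d T) (t + u)‖ ^ (2 * k)) :=
    ⟨_, fun _ _ => rfl⟩
  obtain ⟨u, hu⟩ : ∃ u : ℝ → ℝ, ∀ T, |u T| ≤ B ∧ ((∃ v ∈ Set.Icc (-B) B, (aC k).re + 1 < E T v) → (aC k).re + 1 < E T (u T)) := by
    have : ∀ T, ∃ w : ℝ, |w| ≤ B ∧ ((∃ v ∈ Set.Icc (-B) B, (aC k).re + 1 < E T v) → (aC k).re + 1 < E T w) := by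
      intro T
      by_cases h : ∃ v ∈ Set.Icc (-B) B, (aC k).re + 1 < E T v
      · obtain ⟨v, hv1, hv2⟩ := h
        exact ⟨v, abs_le.mpr hv1, fun _ => hv2⟩
      · exact ⟨0, by rw [abs_zero]; exact hB, fun h' => absurd h' h⟩
    choose u hu using this
    exact ⟨u, hu⟩
  have hus : ∀ᶠ T : ℝ in atTop, |u T| ≤ T ^ ((1:ℝ) / 2) := by
    filter_upwards [(tendsto_rpow_atTop (show (0:ℝ) < 1 / 2 by norm_num)).eventually_ge_atTop B] with T hT
    exact (hu T).1.trans hT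
  have h1 := one_lim hd hk hV hus
  filter_upwards [h1.eventually_le_const (lt_add_one _)] with T hT v hv
  by_contra hcon
  push Not at hcon
  rw [← hE] at hT hcon
  have := (hu T).2 ⟨v, hv, hcon⟩
  linarith

/-- finitely many shifts -/
lemma fin_lim {m : ℕ} (x : Fin m → ℝ) (hx : Function.Injective x) (c : Fin m → ℂ) :
    Tendsto (fun T => (2 * d T) ^ (k ^ 2) * ((1 / T) * ∫ t in Set.Icc 0 T, ‖∑ j, c j * tz V (d T) (t + x j)‖ ^ (2 * k))) atTop
      (𝓝 ((aC k).re * ∑ j, ‖c j‖ ^ (2 * k))) := by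
  have hh := const_small x
  have hs : ∀ i l : Fin m, i ≠ l → Tendsto (fun T => d T * Zo (d T) (x i - x l)) atTop (𝓝 0) := fun i l hil =>
    const_adm hd (sub_ne_zero.mpr fun hcon => hil (hx hcon))
  have h1 := lin_trunc (h := fun _ => x) jmF posF LZB.main hd hh hs c hk hV
  -- the bad set
  have hbad : ∀ j : Fin m, Tendsto (fun T => (2 * d T) ^ (k ^ 2) * ((1 / T) * ∫ t in Set.Icc 0 T \ Gs V x (d T) T,
      ‖tz V (d T) (t + x j)‖ ^ (2 * k))) atTop (𝓝 0) := by
    intro j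
    have h2 := one_lim hd hk hV (u := fun _ => x j) (by filter_upwards [hh] with T hT; exact hT j)
    have h3 := lim_one (h := fun _ => x) jmF posF LZB.main hd hh hk.le hV j
    have h4 := h2.sub h3
    rw [sub_self] at h4
    refine h4.congr' ?_
    filter_upwards [hd.pos, hd.t0.eventually_le_const (show (0:ℝ) < 1 / 16 by norm_num)] with T g5 g4
    have hsub : Gs V x (d T) T ⊆ Set.Icc 0 T := fun t ht => ht.1
    have hfin : volume (Set.Icc (0:ℝ) T) < ⊤ := by
      rw [Real.volume_Icc]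
      exact ENNReal.ofReal_lt_top
    have htm : Measurable fun t => tz V (d T) (t + x j) := (tz_meas g4).comp (measurable_id.add_const _)
    have hint : IntegrableOn (fun t => ‖tz V (d T) (t + x j)‖ ^ (2 * k)) (Set.Icc 0 T) := by
      refine Measure.integrableOn_of_bounded (M := ((2 * d T) ^ (-V)) ^ (2 * k)) hfin.ne
        (htm.norm.pow_const _).aestronglyMeasurable (Eventually.of_forall fun t => ?_)
      rw [Real.norm_of_nonneg (by positivity)]
      exact Real.rpow_le_rpow (norm_nonneg _) (tz_bd g5 _) (by linarith)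
    have e1 := setIntegral_sdiff (μ := volume) (Gs_meas V x g4 T) hint hsub
    have e2 : ∫ t in Gs V x (d T) T, ‖tz V (d T) (t + x j)‖ ^ (2 * k) = ∫ t in Gs V x (d T) T, mz (d T) (t + x j) ^ (2 * k) := by
      refine setIntegral_congr_fun (Gs_meas V x g4 T) fun t ht => ?_
      rw [tz_of_le (ht.2 j)]
      rfl
    rw [e1, e2]
    ring
  obtain ⟨C, hCd⟩ : ∃ C : ℝ, C = ((m:ℝ) * (1 + ∑ j, ‖c j‖)) ^ (2 * k) := ⟨_, rfl⟩
  have hC : 0 ≤ C := by
    have hS : 0 ≤ ∑ j, ‖c j‖ := sum_nonneg fun _ _ => norm_nonneg _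
    rw [hCd]
    positivity
  have hb1 : Tendsto (fun T => C * ∑ j, ((2 * d T) ^ (k ^ 2) * ((1 / T) * ∫ t in Set.Icc 0 T \ Gs V x (d T) T,
      ‖tz V (d T) (t + x j)‖ ^ (2 * k)))) atTop (𝓝 (C * ∑ _j : Fin m, (0:ℝ))) :=
    Tendsto.const_mul _ (tendsto_finsetSum _ fun j _ => hbad j)
  rw [sum_const_zero, mul_zero] at hb1
  have hb2 : Tendsto (fun T => (2 * d T) ^ (k ^ 2) * ((1 / T) * ∫ t in Set.Icc 0 T \ Gs V x (d T) T,
      ‖∑ j, c j * tz V (d T) (t + x j)‖ ^ (2 * k))) atTop (𝓝 0) := by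
    refine squeeze_zero' ?_ ?_ hb1
    · filter_upwards [hd.pos, eventually_gt_atTop 0] with T g5 hT
      exact mul_nonneg (by positivity) (mul_nonneg (by positivity) (integral_nonneg fun t => by positivity))
    · filter_upwards [hd.pos, eventually_gt_atTop 0, hd.t0.eventually_le_const (show (0:ℝ) < 1 / 16 by norm_num)] with T g5 hT g4
      have hfin : volume (Set.Icc (0:ℝ) T \ Gs V x (d T) T) < ⊤ := by
        refine (measure_mono Set.sdiff_subset).trans_lt ?_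
        rw [Real.volume_Icc]
        exact ENNReal.ofReal_lt_top
      have hint : ∀ j, IntegrableOn (fun t => ‖tz V (d T) (t + x j)‖ ^ (2 * k)) (Set.Icc 0 T \ Gs V x (d T) T) := by
        intro j
        refine Measure.integrableOn_of_bounded (M := ((2 * d T) ^ (-V)) ^ (2 * k)) hfin.ne
          (((tz_meas g4).comp (measurable_id.add_const _)).norm.pow_const _).aestronglyMeasurable (Eventually.of_forall fun t => ?_)
        rw [Real.norm_of_nonneg (by positivity)]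
        exact Real.rpow_le_rpow (norm_nonneg _) (tz_bd g5 _) (by linarith)
      have i1 : ∫ t in Set.Icc 0 T \ Gs V x (d T) T, ‖∑ j, c j * tz V (d T) (t + x j)‖ ^ (2 * k) ≤
          C * ∑ j, ∫ t in Set.Icc 0 T \ Gs V x (d T) T, ‖tz V (d T) (t + x j)‖ ^ (2 * k) := by
        rw [← integral_finsetSum _ fun j _ => hint j, ← integral_const_mul]
        refine integral_mono_of_nonneg (Eventually.of_forall fun t => by positivity)
          ((integrable_finsetSum _ fun j _ => hint j).const_mul _) (Eventually.of_forall fun t => ?_)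
        rw [hCd]
        exact sum_rpow_le c (fun j => tz V (d T) (t + x j)) (p := 2 * k) (by linarith)
      calc (2 * d T) ^ (k ^ 2) * ((1 / T) * ∫ t in Set.Icc 0 T \ Gs V x (d T) T, ‖∑ j, c j * tz V (d T) (t + x j)‖ ^ (2 * k)) ≤
          (2 * d T) ^ (k ^ 2) * ((1 / T) * (C * ∑ j, ∫ t in Set.Icc 0 T \ Gs V x (d T) T, ‖tz V (d T) (t + x j)‖ ^ (2 * k))) := by
            gcongr
        _ = _ := by
            simp only [mul_sum]
            refine sum_congr rfl fun j _ => ?_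
            ring
  have h5 := h1.add hb2
  rw [add_zero] at h5
  refine h5.congr' ?_
  filter_upwards [hd.pos, hd.t0.eventually_le_const (show (0:ℝ) < 1 / 16 by norm_num)] with T g5 g4
  have hsub : Gs V x (d T) T ⊆ Set.Icc 0 T := fun t ht => ht.1
  have hfin : volume (Set.Icc (0:ℝ) T) < ⊤ := by
    rw [Real.volume_Icc]
    exact ENNReal.ofReal_lt_top
  have htm : Measurable fun t => ∑ j, c j * tz V (d T) (t + x j) :=
    Finset.measurable_sum _ fun j _ => ((tz_meas g4).comp (measurable_id.add_const _)).const_mul _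
  have hint : IntegrableOn (fun t => ‖∑ j, c j * tz V (d T) (t + x j)‖ ^ (2 * k)) (Set.Icc 0 T) := by
    refine Measure.integrableOn_of_bounded (M := (∑ j, ‖c j‖ * (2 * d T) ^ (-V)) ^ (2 * k)) hfin.ne
      (htm.norm.pow_const _).aestronglyMeasurable (Eventually.of_forall fun t => ?_)
    rw [Real.norm_of_nonneg (by positivity)]
    refine Real.rpow_le_rpow (norm_nonneg _) ((norm_sum_le _ _).trans (sum_le_sum fun j _ => ?_)) (by linarith)
    rw [norm_mul]
    exact mul_le_mul_of_nonneg_left (tz_bd g5 _) (norm_nonneg _)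
  have e1 := setIntegral_sdiff (μ := volume) (Gs_meas V x g4 T) hint hsub
  have e2 : ∫ t in Gs V x (d T) T, ‖∑ j, c j * tz V (d T) (t + x j)‖ ^ (2 * k) =
      ∫ t in Gs V x (d T) T, ‖∑ j, c j * zj (d T) t (x j)‖ ^ (2 * k) := by
    refine setIntegral_congr_fun (Gs_meas V x g4 T) fun t ht => ?_
    congr 2
    refine sum_congr rfl fun j _ => ?_
    rw [tz_of_le (ht.2 j)]
    rfl
  rw [e1, e2]
  ring

/-- two shifts -/
lemma two_lim {x y : ℝ} (hxy : x ≠ y) :
    Tendsto (fun T => (2 * d T) ^ (k ^ 2) * ((1 / T) * ∫ t in Set.Icc 0 T, ‖tz V (d T) (t + x)‖ ^ k * ‖tz V (d T) (t + y)‖ ^ k)) atTop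
      (𝓝 0) := by
  have hh := const_small ![x, y]
  have h1 := lim_two (h := fun _ => ![x, y]) jmF posF LZB.main hd hh (κ := k / 2) (μ := k / 2) (V := V) (by linarith) (by linarith)
    (by linarith) (i := 0) (l := 1) (by decide) (const_adm hd (sub_ne_zero.mpr hxy)) (const_adm hd (sub_ne_zero.mpr hxy.symm))
  have e0 : k / 2 + k / 2 = k := by ring
  have e1 : 2 * (k / 2) = k := by ring
  rw [e0, e1] at h1
  refine h1.congr' ?_
  filter_upwards [hd.t0.eventually_le_const (show (0:ℝ) < 1 / 16 by norm_num)] with T g4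
  congr 2
  have hm : MeasurableSet {t : ℝ | mz (d T) (t + x) ≤ (2 * d T) ^ (-V) ∧ mz (d T) (t + y) ≤ (2 * d T) ^ (-V)} := by
    have c1 : ∀ u : ℝ, MeasurableSet {t : ℝ | mz (d T) (t + u) ≤ (2 * d T) ^ (-V)} := fun u =>
      measurableSet_le (((TMA.cont g4).comp (by fun_prop : Continuous fun t : ℝ => t + u)).measurable) measurable_const
    exact (c1 x).inter (c1 y)
  have e2 : Gs V ![x, y] (d T) T = Set.Icc 0 T ∩ {t : ℝ | mz (d T) (t + x) ≤ (2 * d T) ^ (-V) ∧ mz (d T) (t + y) ≤ (2 * d T) ^ (-V)} := by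
    ext t
    simp [Gs, Fin.forall_fin_two]
  rw [e2, ← setIntegral_indicator hm]
  refine setIntegral_congr_fun measurableSet_Icc fun t _ => ?_
  by_cases ht : mz (d T) (t + x) ≤ (2 * d T) ^ (-V) ∧ mz (d T) (t + y) ≤ (2 * d T) ^ (-V)
  · rw [Set.indicator_of_mem (s := {t : ℝ | mz (d T) (t + x) ≤ (2 * d T) ^ (-V) ∧ mz (d T) (t + y) ≤ (2 * d T) ^ (-V)}) ht]
    rw [tz_of_le ht.1, tz_of_le ht.2]
    rfl
  · rw [Set.indicator_of_notMem (s := {t : ℝ | mz (d T) (t + x) ≤ (2 * d T) ^ (-V) ∧ mz (d T) (t + y) ≤ (2 * d T) ^ (-V)}) ht]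
    rw [not_and_or] at ht
    rcases ht with ht | ht
    · rw [tz_of_lt ht, norm_zero, Real.zero_rpow hk.ne', zero_mul]
    · rw [tz_of_lt ht, norm_zero, Real.zero_rpow hk.ne', mul_zero]

end

/-- averages over measures, all orders -/
theorem avg_trunc {d : ℝ → ℝ} (hd : Ad d) {k V : ℝ} (hk : 1 ≤ k) (hV : k < V) {B : ℝ} (hB : 0 ≤ B) (μ : Measure ℝ)
    [IsFiniteMeasure μ] (hμ : μ (Set.Icc (-B) B)ᶜ = 0) {g : ℝ → ℂ} (hg : Measurable g) {M0 : ℝ} (hgb : ∀ x, ‖g x‖ ≤ M0) :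
    Tendsto (fun T => (2 * d T) ^ (k ^ 2) * ((1 / T) * ∫ t in Set.Icc 0 T, ‖∫ x, g x * tz V (d T) (t + x) ∂μ‖ ^ (2 * k))) atTop
      (𝓝 ((aC k).re * ∑' x : ℝ, (‖g x‖ * μ.real {x}) ^ (2 * k))) := by
  have hk0 : 0 < k := by linarith
  have hap : 0 ≤ (aC k).re := by
    rw [aC_aF]
    exact (aF_pos hk0).le
  have h16 : ∀ᶠ T : ℝ in atTop, d T ≤ 1 / 16 := hd.t0.eventually_le_const (by norm_num)
  have hmain := wiener (k := k) (a := (aC k).re) hk hap (K := Set.Icc (-B) B) (lam := fun T => lam k (d T) T)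
    (f := fun T x t => ft V B (d T) T x t) (C := (aC k).re + 1)
    (h16.mono fun T hT => ft_meas hT) (hd.pos.mono fun T hT => ft_bd hT) ?_ ?_ ?_ μ hμ hg hgb
  · refine hmain.congr' ?_
    filter_upwards [hd.pos, eventually_gt_atTop 0] with T g1 hT
    rw [lam_int g1 hT]
    congr 2
    refine setIntegral_congr_fun measurableSet_Icc fun t ht => ?_
    congr 2
    refine integral_congr_ae ?_
    have hae : ∀ᵐ x ∂μ, x ∈ Set.Icc (-B) B := by
      rw [ae_iff]
      exact hμ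
    filter_upwards [hae] with x hx
    rw [ft_eq hx ht]
  · intro S c hS
    have hinj : Function.Injective fun j : Fin S.card => (S.equivFin.symm j : ℝ) := fun i l hil =>
      S.equivFin.symm.injective (Subtype.ext hil)
    have h1 := fin_lim hd hk0 hV (fun j : Fin S.card => (S.equivFin.symm j : ℝ)) hinj (fun j => c (S.equivFin.symm j))
    rw [← sum_fin S fun x => ‖c x‖ ^ (2 * k)] at h1
    refine h1.congr' ?_
    filter_upwards [hd.pos, eventually_gt_atTop 0] with T g1 hT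
    rw [lam_int g1 hT]
    congr 2
    refine setIntegral_congr_fun measurableSet_Icc fun t ht => ?_
    congr 2
    rw [sum_fin S fun x => c x * ft V B (d T) T x t]
    refine Finset.sum_congr rfl fun j _ => ?_
    rw [ft_eq (hS _ (S.equivFin.symm j).2) ht]
  · intro x hx y hy hxy
    have h1 := two_lim hd hk0 hV hxy
    refine h1.congr' ?_
    filter_upwards [hd.pos, eventually_gt_atTop 0] with T g1 hT
    rw [lam_int g1 hT]
    congr 2
    refine setIntegral_congr_fun measurableSet_Icc fun t ht => ?_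
    rw [ft_eq hx ht, ft_eq hy ht]
  · filter_upwards [one_sup hd hk0 hV hB, hd.pos, eventually_gt_atTop 0] with T g1 g3 hT x hx
    rw [lam_int g3 hT]
    refine le_trans (le_of_eq ?_) (g1 x hx)
    congr 2
    refine setIntegral_congr_fun measurableSet_Icc fun t ht => ?_
    rw [ft_eq hx ht]

end Pool.Agent.Run7.h290.SH
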