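import Pool.Agent.Run7.h290.SH.Wd

set_option autoImplicit false

/-! Averages of zeta over arbitrary finite measures on the line: all orders, without the very large values. -/

namespace Pool.Agent.Run7.h290.SH

open Finset Filter MeasureTheory Topology Complex
open Pool.Agent.N748.MG Pool.Agent.N748.MJ Pool.Agent.N748.MJ.SM
open Pool.Agent.H306R2 (aF_pos)

/-- uniformity in the shift -/
lemma one_sup2 {d : ℝ → ℝ} (hd : Ad d) {k V : ℝ} (hk : 0 < k) (hV : k < V) :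
    ∀ᶠ T : ℝ in atTop, ∀ u : ℝ, |u| ≤ T ^ ((1:ℝ) / 2) →
    (2 * d T) ^ (k ^ 2) * ((1 / T) * ∫ t in Set.Icc 0 T, ‖tz V (d T) (t + u)‖ ^ (2 * k)) ≤ (aC k).re + 1 := by
  classical
  obtain ⟨E, hE⟩ : ∃ E : ℝ → ℝ → ℝ, ∀ T u, E T u = (2 * d T) ^ (k ^ 2) * ((1 / T) * ∫ t in Set.Icc 0 T, ‖tz V (d T) (t + u)‖ ^ (2 * k)) :=
    ⟨_, fun _ _ => rfl⟩
  obtain ⟨u, hu⟩ : ∃ u : ℝ → ℝ, ∀ T, 0 ≤ T → |u T| ≤ T ^ ((1:ℝ) / 2) ∧
      ((∃ v : ℝ, |v| ≤ T ^ ((1:ℝ) / 2) ∧ (aC k).re + 1 < E T v) → (aC k).re + 1 < E T (u T)) := by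
    have : ∀ T : ℝ, ∃ w : ℝ, 0 ≤ T → |w| ≤ T ^ ((1:ℝ) / 2) ∧
        ((∃ v : ℝ, |v| ≤ T ^ ((1:ℝ) / 2) ∧ (aC k).re + 1 < E T v) → (aC k).re + 1 < E T w) := by
      intro T
      by_cases h : ∃ v : ℝ, |v| ≤ T ^ ((1:ℝ) / 2) ∧ (aC k).re + 1 < E T v
      · obtain ⟨v, hv1, hv2⟩ := h
        exact ⟨v, fun _ => ⟨hv1, fun _ => hv2⟩⟩
      · exact ⟨0, fun hT => ⟨by rw [abs_zero]; positivity, fun h' => absurd h' h⟩⟩
    choose u hu using this
    exact ⟨u, hu⟩
  have hus : ∀ᶠ T : ℝ in atTop, |u T| ≤ T ^ ((1:ℝ) / 2) := by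
    filter_upwards [eventually_ge_atTop 0] with T hT
    exact (hu T hT).1
  have h1 := one_lim hd hk hV hus
  filter_upwards [h1.eventually_le_const (lt_add_one _), eventually_ge_atTop 0] with T hT hT0 v hv
  by_contra hcon
  push Not at hcon
  rw [← hE] at hT hcon
  have := (hu T hT0).2 ⟨v, hv, hcon⟩
  linarith

/-- averages over finite measures on the line, all orders -/
theorem avg_line {d : ℝ → ℝ} (hd : Ad d) {k V : ℝ} (hk : 1 ≤ k) (hV : k < V) (μ : Measure ℝ)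
    [IsFiniteMeasure μ] {g : ℝ → ℂ} (hg : Measurable g) {M0 : ℝ} (hgb : ∀ x, ‖g x‖ ≤ M0) :
    Tendsto (fun T : ℝ => (2 * d T) ^ (k ^ 2) * ((1 / T) * ∫ t in Set.Icc 0 T,
      ‖∫ x in Set.Icc (-T ^ ((1:ℝ) / 2)) (T ^ ((1:ℝ) / 2)), g x * tz V (d T) (t + x) ∂μ‖ ^ (2 * k))) atTop
      (𝓝 ((aC k).re * ∑' x : ℝ, (‖g x‖ * μ.real {x}) ^ (2 * k))) := by
  have hk0 : 0 < k := by linarith
  have hap : 0 ≤ (aC k).re := by
    rw [aC_aF]
    exact (aF_pos hk0).le
  have h16 : ∀ᶠ T : ℝ in atTop, d T ≤ 1 / 16 := hd.t0.eventually_le_const (by norm_num)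
  have hbig : ∀ B : ℝ, ∀ᶠ T : ℝ in atTop, B ≤ T ^ ((1:ℝ) / 2) := fun B =>
    (tendsto_rpow_atTop (by norm_num)).eventually_ge_atTop B
  have hmain := wiener (k := k) (a := (aC k).re) hk hap (K := Set.univ) (lam := fun T => lam k (d T) T)
    (f := fun T x t => ft V (T ^ ((1:ℝ) / 2)) (d T) T x t) (C := (aC k).re + 1)
    (h16.mono fun T hT => ft_meas hT) (hd.pos.mono fun T hT => ft_bd hT) ?_ ?_ ?_ μ (by simp) hg hgb
  · refine hmain.congr' ?_
    filter_upwards [hd.pos, eventually_gt_atTop 0] with T g1 hT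
    rw [lam_int g1 hT]
    congr 2
    refine setIntegral_congr_fun measurableSet_Icc fun t ht => ?_
    congr 2
    rw [← integral_indicator measurableSet_Icc]
    refine integral_congr_ae (Eventually.of_forall fun x => ?_)
    by_cases hx : x ∈ Set.Icc (-T ^ ((1:ℝ) / 2)) (T ^ ((1:ℝ) / 2))
    · rw [Set.indicator_of_mem hx]
      simp only
      rw [ft_eq hx ht]
    · rw [Set.indicator_of_notMem hx]
      simp only
      unfold ft
      rw [Set.indicator_of_notMem, mul_zero]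
      exact fun hc => hx hc.1
  · intro S c _
    have hinj : Function.Injective fun j : Fin S.card => (S.equivFin.symm j : ℝ) := fun i l hil =>
      S.equivFin.symm.injective (Subtype.ext hil)
    have h1 := fin_lim hd hk0 hV (fun j : Fin S.card => (S.equivFin.symm j : ℝ)) hinj (fun j => c (S.equivFin.symm j))
    rw [← sum_fin S fun x => ‖c x‖ ^ (2 * k)] at h1
    refine h1.congr' ?_
    filter_upwards [hd.pos, eventually_gt_atTop 0, const_small (fun j : Fin S.card => (S.equivFin.symm j : ℝ))] with T g1 hT g6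
    rw [lam_int g1 hT]
    congr 2
    refine setIntegral_congr_fun measurableSet_Icc fun t ht => ?_
    congr 2
    rw [sum_fin S fun x => c x * ft V (T ^ ((1:ℝ) / 2)) (d T) T x t]
    refine Finset.sum_congr rfl fun j _ => ?_
    rw [ft_eq (abs_le.mp (g6 j)) ht]
  · intro x _ y _ hxy
    have h1 := two_lim hd hk0 hV hxy
    refine h1.congr' ?_
    filter_upwards [hd.pos, eventually_gt_atTop 0, hbig |x|, hbig |y|] with T g1 hT g6 g7
    rw [lam_int g1 hT]
    congr 2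
    refine setIntegral_congr_fun measurableSet_Icc fun t ht => ?_
    rw [ft_eq (abs_le.mp g6) ht, ft_eq (abs_le.mp g7) ht]
  · filter_upwards [one_sup2 hd hk0 hV, hd.pos, eventually_gt_atTop 0] with T g1 g3 hT x _
    rw [lam_int g3 hT]
    by_cases hx : |x| ≤ T ^ ((1:ℝ) / 2)
    · refine le_trans (le_of_eq ?_) (g1 x hx)
      congr 2
      refine setIntegral_congr_fun measurableSet_Icc fun t ht => ?_
      rw [ft_eq (abs_le.mp hx) ht]
    · have h0 : ∀ t, ‖ft V (T ^ ((1:ℝ) / 2)) (d T) T x t‖ ^ (2 * k) = 0 := by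
        intro t
        unfold ft
        rw [Set.indicator_of_notMem, norm_zero, Real.zero_rpow (by linarith)]
        exact fun hc => hx (abs_le.mpr hc.1)
      simp_rw [h0]
      simp
      linarith

end Pool.Agent.Run7.h290.SH
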